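import Pool.Agent.LibFA.Semigroup

open Filter Topology

namespace Pool.Agent.LibFA

/-- `δ x` bounds the oscillation of `g` under changes at `x`. -/
def OscB (g : Cfg → ℝ) (δ : ℤ → ℝ) : Prop :=
  ∀ (x : ℤ) (η : Cfg) (v w : Bool), |g (Function.update η x v) - g (Function.update η x w)| ≤ δ x

theorem OscB.upd {g : Cfg → ℝ} {δ : ℤ → ℝ} (h : OscB g δ) (x : ℤ) (η : Cfg) (v : Bool) :
    |g (Function.update η x v) - g η| ≤ δ x := by
  have := h x η v (η x)
  rwa [Function.update_eq_self] at this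

theorem OscB.nonneg {g : Cfg → ℝ} {δ : ℤ → ℝ} (h : OscB g δ) (x : ℤ) : 0 ≤ δ x :=
  (abs_nonneg _).trans (h x (fun _ => true) true true)

theorem abs_KK_sub_le {q : ℝ} (h0 : 0 ≤ q) (h1 : q ≤ 1) {g : Cfg → ℝ} {δ : ℤ → ℝ} (h : OscB g δ)
    (x : ℤ) (η : Cfg) : |KK q x g η - g η| ≤ δ x := by
  unfold KK
  split_ifs
  · have a := h.upd x η true
    have b := h.upd x η false
    rw [abs_le] at *
    constructor <;> nlinarith
  · simpa using h.nonneg x

theorem KK_osc {q : ℝ} (h0 : 0 ≤ q) (h1 : q ≤ 1) {g : Cfg → ℝ} {δ : ℤ → ℝ} (h : OscB g δ)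
    (y x : ℤ) (η : Cfg) (v w : Bool) :
    |KK q y g (Function.update η x v) - KK q y g (Function.update η x w)| ≤
      δ x + ((if y = x - 1 then δ (x - 1) else 0) + (if y = x + 1 then δ (x + 1) else 0)) := by
  have hd0 := fun z => h.nonneg z
  have conv : ∀ a b c d e : ℝ, |a - c| ≤ e → |b - d| ≤ e →
      |(q * a + (1 - q) * b) - (q * c + (1 - q) * d)| ≤ e := by
    intro a b c d e h2 h3
    rw [abs_le] at *
    constructor <;> nlinarith
  by_cases hyx : y = x
  · subst hyx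
    have e1 : (Function.update η y v) (y - 1) = η (y - 1) := by
      rw [Function.update_of_ne]; omega
    have e2 : (Function.update η y v) (y + 1) = η (y + 1) := by
      rw [Function.update_of_ne]; omega
    have e3 : (Function.update η y w) (y - 1) = η (y - 1) := by
      rw [Function.update_of_ne]; omega
    have e4 : (Function.update η y w) (y + 1) = η (y + 1) := by
      rw [Function.update_of_ne]; omega
    have hn1 : ¬ (y = y - 1) := by omega
    have hn2 : ¬ (y = y + 1) := by omega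
    simp only [KK, e1, e2, e3, e4, Function.update_idem, hn1, hn2, if_false, add_zero]
    split_ifs
    · simpa using hd0 y
    · exact h y η v w
  · by_cases hadj : y = x - 1 ∨ y = x + 1
    · have hbound : δ x + δ y ≤ δ x + ((if y = x - 1 then δ (x - 1) else 0) + (if y = x + 1 then δ (x + 1) else 0)) := by
        rcases hadj with hy | hy
        · subst hy
          have hn : ¬ (x - 1 = x + 1) := by omega
          simp only [if_true, hn, if_false, add_zero]; exact le_refl _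
        · subst hy
          have hn : ¬ (x + 1 = x - 1) := by omega
          simp only [if_true, hn, if_false, zero_add]; exact le_refl _
      refine le_trans ?_ hbound
      have hcm : ∀ a b : Bool, Function.update (Function.update η x a) y b =
          Function.update (Function.update η y b) x a := fun a b => Function.update_comm (Ne.symm hyx) a b η
      have g1 := h x η v w
      have t1 := h x (Function.update η y true) v w
      have t2 := h x (Function.update η y false) v w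
      have u1 := fun a b => h.upd y (Function.update η x a) b
      unfold KK
      split_ifs with c1 c2 c2
      · refine (conv _ _ _ _ (δ x) ?_ ?_).trans (by linarith [hd0 y])
        · rw [hcm, hcm]; exact t1
        · rw [hcm, hcm]; exact t2
      · have a1 := u1 v true
        have a2 := u1 v false
        rw [abs_le] at *
        constructor <;> nlinarith [hd0 y]
      · have a1 := u1 w true
        have a2 := u1 w false
        rw [abs_le] at *
        constructor <;> nlinarith [hd0 y]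
      · exact g1.trans (by linarith [hd0 y])
    · rw [not_or] at hadj
      simp only [hadj.1, hadj.2, if_false, add_zero]
      have e1 : ∀ v : Bool, (Function.update η x v) (y - 1) = η (y - 1) := by
        intro v; rw [Function.update_of_ne]; omega
      have e2 : ∀ v : Bool, (Function.update η x v) (y + 1) = η (y + 1) := by
        intro v; rw [Function.update_of_ne]; omega
      have hcm : ∀ a b : Bool, Function.update (Function.update η x a) y b =
          Function.update (Function.update η y b) x a := fun a b => Function.update_comm (Ne.symm hyx) a b η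
      simp only [KK, e1, e2]
      split_ifs
      · refine conv _ _ _ _ (δ x) ?_ ?_
        · rw [hcm, hcm]; exact h x _ v w
        · rw [hcm, hcm]; exact h x _ v w
      · exact h x η v w

theorem KS_osc {q : ℝ} (h0 : 0 ≤ q) (h1 : q ≤ 1) (L : ℕ) {g : Cfg → ℝ} {D : ℝ}
    (h : OscB g (fun x => D * Real.exp (-|(x:ℝ)|))) :
    OscB (KS q L g) (fun x => ((2 * L + 1 + 2 * Real.exp 1) * D) * Real.exp (-|(x:ℝ)|)) := by
  intro x η v w
  have hD : 0 ≤ D := by
    have := h.nonneg 0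
    simpa using this
  unfold KS
  rw [← Finset.sum_sub_distrib]
  refine (Finset.abs_sum_le_sum_abs _ _).trans ?_
  refine (Finset.sum_le_sum fun y _ => KK_osc h0 h1 h y x η v w).trans ?_
  rw [Finset.sum_add_distrib, Finset.sum_add_distrib, Finset.sum_const, card_sites]
  have hs : ∀ z : ℤ, ∀ c : ℝ, 0 ≤ c → ∑ y ∈ Finset.Icc (-(L:ℤ)) (L:ℤ), (if y = z then c else 0) ≤ c := by
    intro z c hc
    rw [Finset.sum_ite_eq']
    split_ifs
    · exact le_refl _
    · exact hc
  have a1 := hs (x - 1) (D * Real.exp (-|((x-1 : ℤ):ℝ)|)) (by positivity)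
  have a2 := hs (x + 1) (D * Real.exp (-|((x+1 : ℤ):ℝ)|)) (by positivity)
  have b1 : Real.exp (-|((x-1 : ℤ):ℝ)|) ≤ Real.exp 1 * Real.exp (-|(x:ℝ)|) := by
    rw [← Real.exp_add, Real.exp_le_exp]
    push_cast
    have : |(x:ℝ)| ≤ |(x:ℝ) - 1| + 1 := by
      have := abs_add_le ((x:ℝ) - 1) 1
      simpa using this
    linarith
  have b2 : Real.exp (-|((x+1 : ℤ):ℝ)|) ≤ Real.exp 1 * Real.exp (-|(x:ℝ)|) := by
    rw [← Real.exp_add, Real.exp_le_exp]
    push_cast
    have : |(x:ℝ)| ≤ |(x:ℝ) + 1| + 1 := by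
      have := abs_sub ((x:ℝ) + 1) 1
      simpa using this
    linarith
  have c1 := mul_le_mul_of_nonneg_left b1 hD
  have c2 := mul_le_mul_of_nonneg_left b2 hD
  rw [nsmul_eq_mul]
  push_cast
  push_cast at a1 a2 c1 c2
  linarith

theorem KS_iter_osc {q : ℝ} (h0 : 0 ≤ q) (h1 : q ≤ 1) (L : ℕ) {g : Cfg → ℝ} {D : ℝ}
    (h : OscB g (fun x => D * Real.exp (-|(x:ℝ)|))) (n : ℕ) :
    OscB ((KS q L)^[n] g) (fun x => ((2 * L + 1 + 2 * Real.exp 1) ^ n * D) * Real.exp (-|(x:ℝ)|)) := by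
  induction n with
  | zero => simpa using h
  | succ n ih =>
    rw [Function.iterate_succ_apply']
    have := KS_osc h0 h1 L ih
    rw [← mul_assoc, ← pow_succ'] at this
    exact this

/-- finite speed of propagation -/
theorem SS_osc {q : ℝ} (h0 : 0 ≤ q) (h1 : q ≤ 1) (L : ℕ) {g : Cfg → ℝ} {D : ℝ}
    (h : OscB g (fun x => D * Real.exp (-|(x:ℝ)|))) {t : ℝ} (ht : 0 ≤ t) :
    OscB (SS q L t g) (fun x => (Real.exp (2 * Real.exp 1 * t) * D) * Real.exp (-|(x:ℝ)|)) := by
  intro x η v w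
  have e1 := hasSum_SS q L t g (Function.update η x v)
  have e2 := hasSum_SS q L t g (Function.update η x w)
  have e3 := e1.sub e2
  have e4 : HasSum (fun n : ℕ => Real.exp (-((2 * L + 1) * t)) * (((2 * L + 1 + 2 * Real.exp 1) * t) ^ n /
      (n.factorial : ℝ)) * (D * Real.exp (-|(x:ℝ)|)))
      (Real.exp (-((2 * L + 1) * t)) * Real.exp ((2 * L + 1 + 2 * Real.exp 1) * t) *
        (D * Real.exp (-|(x:ℝ)|))) := by
    have := NormedSpace.expSeries_div_hasSum_exp ((2 * L + 1 + 2 * Real.exp 1) * t)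
    rw [← Real.exp_eq_exp_ℝ] at this
    exact (this.mul_left _).mul_right _
  have e5 : Real.exp (-((2 * L + 1) * t)) * Real.exp ((2 * L + 1 + 2 * Real.exp 1) * t) *
        (D * Real.exp (-|(x:ℝ)|)) = (Real.exp (2 * Real.exp 1 * t) * D) * Real.exp (-|(x:ℝ)|) := by
    rw [← Real.exp_add, ← mul_assoc]
    congr 3
    ring
  beta_reduce
  rw [← e5]
  have hpt : ∀ n : ℕ, |Real.exp (-((2 * L + 1) * t)) *
      (t ^ n / (n.factorial : ℝ) * ((KS q L)^[n] g) (Function.update η x v)) -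
      Real.exp (-((2 * L + 1) * t)) *
      (t ^ n / (n.factorial : ℝ) * ((KS q L)^[n] g) (Function.update η x w))| ≤
      Real.exp (-((2 * L + 1) * t)) * (((2 * L + 1 + 2 * Real.exp 1) * t) ^ n /
      (n.factorial : ℝ)) * (D * Real.exp (-|(x:ℝ)|)) := by
    intro n
    have h3 := KS_iter_osc h0 h1 L h n x η v w
    rw [← mul_sub, ← mul_sub, abs_mul, abs_mul, abs_of_pos (Real.exp_pos _),
      abs_of_nonneg (by positivity : 0 ≤ t ^ n / (n.factorial : ℝ)), mul_pow]
    have h4 : 0 ≤ Real.exp (-((2 * L + 1) * t)) * (t ^ n / (n.factorial : ℝ)) := by positivity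
    have h5 := mul_le_mul_of_nonneg_left h3 h4
    calc _ = Real.exp (-((2 * L + 1) * t)) * (t ^ n / (n.factorial : ℝ)) *
          |((KS q L)^[n] g) (Function.update η x v) - ((KS q L)^[n] g) (Function.update η x w)| := by ring
      _ ≤ _ := h5
      _ = _ := by ring
  exact abs_le.2 ⟨by
    have := hasSum_le (fun n => (abs_le.1 (hpt n)).1) e4.neg e3
    linarith, hasSum_le (fun n => (abs_le.1 (hpt n)).2) e3 e4⟩

/-- carré du champ lower bound -/
theorem gamma_ge {q : ℝ} (h0 : 0 ≤ q) (h1 : q ≤ 1) (L : ℕ) (h : Cfg → ℝ) (η : Cfg) :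
    ∑ x ∈ Finset.Icc (-(L:ℤ)) (L:ℤ), (KK q x h η - h η) ^ 2 ≤
      gen q L (fun ζ => h ζ ^ 2) η - 2 * h η * gen q L h η := by
  unfold gen
  rw [Finset.mul_sum, ← Finset.sum_sub_distrib]
  refine Finset.sum_le_sum fun x _ => ?_
  unfold KK
  split_ifs
  · nlinarith [mul_nonneg (mul_nonneg h0 (by linarith : 0 ≤ 1 - q))
      (sq_nonneg (h (Function.update η x true) - h (Function.update η x false)))]
  · nlinarith

/-- a summable weight -/
noncomputable def CZ : ℝ := ∑' x : ℤ, Real.exp (-(|(x:ℝ)| / 2))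

theorem summable_CZ : Summable (fun x : ℤ => Real.exp (-(|(x:ℝ)| / 2))) := by
  have hgeom : Summable (fun n : ℕ => Real.exp (-((n:ℝ) / 2))) := by
    have h : (fun n : ℕ => Real.exp (-((n:ℝ) / 2))) = fun n : ℕ => (Real.exp (-(1/2))) ^ n := by
      funext n
      rw [← Real.exp_nat_mul]
      congr 1; ring
    rw [h]
    apply summable_geometric_of_lt_one (Real.exp_pos _).le
    rw [Real.exp_lt_one_iff]; norm_num
  refine Summable.of_nat_of_neg (by simpa using hgeom) (by simpa using hgeom)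

theorem CZ_pos : 0 < CZ := by
  have h := summable_CZ
  refine h.tsum_pos (fun x => (Real.exp_pos _).le) 0 (Real.exp_pos _)

theorem tail_bound (s : Finset ℤ) (R : ℝ) (hs : ∀ x ∈ s, R < |(x:ℝ)|) :
    ∑ x ∈ s, Real.exp (-|(x:ℝ)|) ≤ CZ * Real.exp (-(R / 2)) := by
  have h1 : ∀ x ∈ s, Real.exp (-|(x:ℝ)|) ≤ Real.exp (-(|(x:ℝ)| / 2)) * Real.exp (-(R / 2)) := by
    intro x hx
    rw [← Real.exp_add, Real.exp_le_exp]
    have := hs x hx
    linarith
  refine (Finset.sum_le_sum h1).trans ?_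
  rw [← Finset.sum_mul]
  refine mul_le_mul_of_nonneg_right ?_ (Real.exp_pos _).le
  exact summable_CZ.sum_le_tsum s (fun x _ => (Real.exp_pos _).le)

theorem card_le_of_abs (L : ℕ) (R : ℝ) (hR : 0 ≤ R) :
    (((Finset.Icc (-(L:ℤ)) (L:ℤ)).filter (fun x : ℤ => |(x:ℝ)| ≤ R)).card : ℝ) ≤ 2 * R + 1 := by
  have hsub : (Finset.Icc (-(L:ℤ)) (L:ℤ)).filter (fun x : ℤ => |(x:ℝ)| ≤ R) ⊆
      Finset.Icc (-⌊R⌋) ⌊R⌋ := by
    intro x hx
    rw [Finset.mem_filter] at hx
    have := abs_le.1 hx.2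
    rw [Finset.mem_Icc]
    constructor
    · have : ((-x : ℤ) : ℝ) ≤ R := by push_cast; linarith
      have := Int.le_floor.2 this
      linarith
    · exact Int.le_floor.2 this.2
  have h2 := Finset.card_le_card hsub
  rw [Int.card_Icc] at h2
  have h3 : 0 ≤ ⌊R⌋ := Int.floor_nonneg.2 hR
  have h4 : (((⌊R⌋ + 1 - -⌊R⌋).toNat : ℕ) : ℝ) = 2 * ⌊R⌋ + 1 := by
    have : ((⌊R⌋ + 1 - -⌊R⌋).toNat : ℤ) = 2 * ⌊R⌋ + 1 := by
      rw [Int.toNat_of_nonneg (by omega)]; ring
    exact_mod_cast this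
  have h5 : (((Finset.Icc (-(L:ℤ)) (L:ℤ)).filter (fun x : ℤ => |(x:ℝ)| ≤ R)).card : ℝ) ≤
      (((⌊R⌋ + 1 - -⌊R⌋).toNat : ℕ) : ℝ) := by exact_mod_cast h2
  rw [h4] at h5
  have h6 := Int.floor_le R
  linarith

theorem gen_sq_le {q : ℝ} (h0 : 0 ≤ q) (h1 : q ≤ 1) (L : ℕ) {h : Cfg → ℝ} {E : ℝ}
    (hosc : OscB h (fun x => E * Real.exp (-|(x:ℝ)|))) (R : ℝ) (hR : 0 ≤ R) (η : Cfg) :
    (gen q L h η) ^ 2 ≤ 2 * (2 * R + 1) * (gen q L (fun ζ => h ζ ^ 2) η - 2 * h η * gen q L h η)
      + 2 * (E * CZ * Real.exp (-(R / 2))) ^ 2 := by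
  have hE : 0 ≤ E := by
    have := hosc.nonneg 0
    simpa using this
  set I := Finset.Icc (-(L:ℤ)) (L:ℤ) with hI
  set d : ℤ → ℝ := fun x => KK q x h η - h η with hd
  have hsplit : gen q L h η = ∑ x ∈ I.filter (fun x : ℤ => |(x:ℝ)| ≤ R), d x +
      ∑ x ∈ I.filter (fun x : ℤ => ¬ |(x:ℝ)| ≤ R), d x := by
    rw [Finset.sum_filter_add_sum_filter_not]; rfl
  have hg := gamma_ge h0 h1 L h η
  have hA : (∑ x ∈ I.filter (fun x : ℤ => |(x:ℝ)| ≤ R), d x) ^ 2 ≤
      (2 * R + 1) * (gen q L (fun ζ => h ζ ^ 2) η - 2 * h η * gen q L h η) := by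
    have h2 := sq_sum_le_card_mul_sum_sq (s := I.filter (fun x : ℤ => |(x:ℝ)| ≤ R)) (f := d)
    have h3 : ∑ x ∈ I.filter (fun x : ℤ => |(x:ℝ)| ≤ R), d x ^ 2 ≤ ∑ x ∈ I, d x ^ 2 :=
      Finset.sum_le_sum_of_subset_of_nonneg (Finset.filter_subset _ _) (fun _ _ _ => sq_nonneg _)
    have h4 := card_le_of_abs L R hR
    have h5 : 0 ≤ ∑ x ∈ I.filter (fun x : ℤ => |(x:ℝ)| ≤ R), d x ^ 2 :=
      Finset.sum_nonneg fun _ _ => sq_nonneg _
    refine h2.trans ?_
    calc _ ≤ (2 * R + 1) * ∑ x ∈ I.filter (fun x : ℤ => |(x:ℝ)| ≤ R), d x ^ 2 :=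
          mul_le_mul_of_nonneg_right h4 h5
      _ ≤ (2 * R + 1) * _ := mul_le_mul_of_nonneg_left (h3.trans hg) (by linarith)
  have hB : |∑ x ∈ I.filter (fun x : ℤ => ¬ |(x:ℝ)| ≤ R), d x| ≤ E * CZ * Real.exp (-(R / 2)) := by
    refine (Finset.abs_sum_le_sum_abs _ _).trans ?_
    have h2 : ∀ x ∈ I.filter (fun x : ℤ => ¬ |(x:ℝ)| ≤ R), |d x| ≤ E * Real.exp (-|(x:ℝ)|) :=
      fun x _ => abs_KK_sub_le h0 h1 hosc x η
    refine (Finset.sum_le_sum h2).trans ?_
    rw [← Finset.mul_sum, mul_assoc]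
    refine mul_le_mul_of_nonneg_left ?_ hE
    apply tail_bound
    intro x hx
    rw [Finset.mem_filter, not_le] at hx
    exact hx.2
  have hB2 : (∑ x ∈ I.filter (fun x : ℤ => ¬ |(x:ℝ)| ≤ R), d x) ^ 2 ≤ (E * CZ * Real.exp (-(R / 2))) ^ 2 := by
    rw [← sq_abs]
    exact pow_le_pow_left₀ (abs_nonneg _) hB 2
  have h2 : (gen q L h η) ^ 2 ≤ 2 * (∑ x ∈ I.filter (fun x : ℤ => |(x:ℝ)| ≤ R), d x) ^ 2 +
      2 * (∑ x ∈ I.filter (fun x : ℤ => ¬ |(x:ℝ)| ≤ R), d x) ^ 2 := by
    rw [hsplit]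
    nlinarith [sq_nonneg (∑ x ∈ I.filter (fun x : ℤ => |(x:ℝ)| ≤ R), d x -
      ∑ x ∈ I.filter (fun x : ℤ => ¬ |(x:ℝ)| ≤ R), d x)]
  linarith

/-- The key estimate: the time derivative of the semigroup is small, uniformly. -/
theorem gen_SS_sq_le {q : ℝ} (h0 : 0 ≤ q) (h1 : q ≤ 1) (L : ℕ) {g : Cfg → ℝ} {D B : ℝ}
    (hosc : OscB g (fun x => D * Real.exp (-|(x:ℝ)|))) (hB : ∀ η, |g η| ≤ B) {t : ℝ} (ht : 0 < t)
    {K : ℝ} (hK : 0 ≤ K) (η : Cfg) :
    ((gen q L (SS q L t g) η) ^ 2 - 2 * (D * CZ * Real.exp (-K)) ^ 2) *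
      (Real.log (24 * t + 4 * K + 1) - Real.log (4 * K + 1)) ≤ 48 * B ^ 2 := by
  have hD : 0 ≤ D := by
    have := hosc.nonneg 0
    simpa using this
  set a := (gen q L (SS q L t g) η) ^ 2 with ha
  set b := 2 * (D * CZ * Real.exp (-K)) ^ 2 with hb
  set Y : ℝ → ℝ := fun u => SS q L u (fun ζ => (SS q L (t - u) g ζ) ^ 2) η with hY
  have hYd : ∀ u, HasDerivAt Y (SS q L u (fun ζ => gen q L (fun ξ => (SS q L (t - u) g ξ) ^ 2) ζ -
      2 * SS q L (t - u) g ζ * gen q L (SS q L (t - u) g) ζ) η) u := by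
    intro u
    have h2 : ∀ ζ, HasDerivAt (fun u => (SS q L (t - u) g ζ) ^ 2)
        (-(2 * SS q L (t - u) g ζ * gen q L (SS q L (t - u) g) ζ)) u := by
      intro ζ
      have h3 := (hasDerivAt_SS q L g (t - u) ζ)
      have h4 : HasDerivAt (fun u : ℝ => t - u) (-1) u := by
        simpa using (hasDerivAt_id' u).const_sub t
      have h5 : HasDerivAt (fun u => (SS q L (t - u) g ζ) ^ 2) (((2:ℕ):ℝ) * (SS q L (t - u) g ζ) ^ (2-1) *
        (SS q L (t-u) (gen q L g) ζ * (-1))) u := (h3.comp u h4).pow 2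
      rw [gen_SS]
      refine h5.congr_deriv ?_
      push_cast
      ring
    have h6 := hasDerivAt_SS_fun q L (fun u ζ => (SS q L (t - u) g ζ) ^ 2) _ u h2 η
    refine h6.congr_deriv ?_
    have h7 : (fun ζ => gen q L (fun ξ => (SS q L (t - u) g ξ) ^ 2) ζ -
      2 * SS q L (t - u) g ζ * gen q L (SS q L (t - u) g) ζ) =
      gen q L (fun ξ => (SS q L (t - u) g ξ) ^ 2) +
      (fun ζ => -(2 * SS q L (t - u) g ζ * gen q L (SS q L (t - u) g) ζ)) := by
      funext ζ; simp only [Pi.add_apply]; ring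
    rw [h7, SS_lin_add]
    rfl
  set Ψ : ℝ → ℝ := fun u => Y u + (a - b) / 48 * Real.log (24 * (t - u) + 4 * K + 1) with hΨ
  have hΨd : ∀ u, u ≤ t → HasDerivAt Ψ (SS q L u (fun ζ => gen q L (fun ξ => (SS q L (t - u) g ξ) ^ 2) ζ -
      2 * SS q L (t - u) g ζ * gen q L (SS q L (t - u) g) ζ) η +
      (a - b) / 48 * (-24 / (24 * (t - u) + 4 * K + 1))) u := by
    intro u hu
    have hpos : 0 < 24 * (t - u) + 4 * K + 1 := by nlinarith
    have h2 : HasDerivAt (fun u : ℝ => 24 * (t - u) + 4 * K + 1) (-24) u := by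
      have h3 : HasDerivAt (fun u : ℝ => t - u) (-1) u := by
        simpa using (hasDerivAt_id' u).const_sub t
      have h4 := ((h3.const_mul 24).add_const (4 * K)).add_const 1
      simpa using h4
    exact (hYd u).add ((h2.log hpos.ne').const_mul _)
  have hmono : MonotoneOn Ψ (Set.Icc 0 t) := by
    apply monotoneOn_of_deriv_nonneg (convex_Icc 0 t)
    · intro u hu
      exact (hΨd u hu.2).continuousAt.continuousWithinAt
    · intro u hu
      rw [interior_Icc] at hu
      exact (hΨd u hu.2.le).differentiableAt.differentiableWithinAt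
    · intro u hu
      rw [interior_Icc] at hu
      rw [(hΨd u hu.2.le).deriv]
      have hpos : 0 < 24 * (t - u) + 4 * K + 1 := by nlinarith [hu.2]
      -- pointwise bound, integrated
      have hu0 : 0 ≤ u := hu.1.le
      have htu : 0 ≤ t - u := by linarith [hu.2]
      have hosc' := SS_osc h0 h1 L hosc htu
      have hR : (0:ℝ) ≤ 12 * (t - u) + 2 * K := by positivity
      have hpt : ∀ ζ, (gen q L (SS q L (t - u) g) ζ) ^ 2 ≤
          (24 * (t - u) + 4 * K + 1) * 2 * (gen q L (fun ξ => (SS q L (t - u) g ξ) ^ 2) ζ -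
            2 * SS q L (t - u) g ζ * gen q L (SS q L (t - u) g) ζ) + b := by
        intro ζ
        have h2 := gen_sq_le h0 h1 L hosc' (12 * (t - u) + 2 * K) hR ζ
        have h3 : Real.exp (2 * Real.exp 1 * (t - u)) * D * CZ * Real.exp (-((12 * (t - u) + 2 * K) / 2)) ≤
            D * CZ * Real.exp (-K) := by
          have h4 : Real.exp (2 * Real.exp 1 * (t - u)) * Real.exp (-((12 * (t - u) + 2 * K) / 2)) ≤
              Real.exp (-K) := by
            rw [← Real.exp_add, Real.exp_le_exp]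
            have h5 : Real.exp 1 < 3 := Real.exp_one_lt_three
            nlinarith
          have h6 : 0 ≤ D * CZ := mul_nonneg hD CZ_pos.le
          have h7 := mul_le_mul_of_nonneg_left h4 h6
          calc _ = D * CZ * (Real.exp (2 * Real.exp 1 * (t - u)) * Real.exp (-((12 * (t - u) + 2 * K) / 2))) := by ring
            _ ≤ _ := h7
        have h4 : 0 ≤ Real.exp (2 * Real.exp 1 * (t - u)) * D * CZ * Real.exp (-((12 * (t - u) + 2 * K) / 2)) := by
          have := CZ_pos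
          positivity
        have h5 := pow_le_pow_left₀ h4 h3 2
        have h6 : 2 * (2 * (12 * (t - u) + 2 * K) + 1) = (24 * (t - u) + 4 * K + 1) * 2 := by ring
        rw [h6] at h2
        rw [hb]
        linarith
      have h2 : a ≤ (24 * (t - u) + 4 * K + 1) * 2 *
          SS q L u (fun ζ => gen q L (fun ξ => (SS q L (t - u) g ξ) ^ 2) ζ -
            2 * SS q L (t - u) g ζ * gen q L (SS q L (t - u) g) ζ) η + b := by
        have h3 : gen q L (SS q L t g) η = SS q L u (gen q L (SS q L (t - u) g)) η := by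
          have : t = u + (t - u) := by ring
          conv_lhs => rw [this, SS_add]
          rw [gen_SS]
        rw [ha, h3]
        refine (SS_sq_le h0 h1 L hu0 _ η).trans ?_
        refine (SS_mono h0 h1 L hu0 hpt η).trans ?_
        have h4 : (fun ζ => (24 * (t - u) + 4 * K + 1) * 2 * (gen q L (fun ξ => (SS q L (t - u) g ξ) ^ 2) ζ -
            2 * SS q L (t - u) g ζ * gen q L (SS q L (t - u) g) ζ) + b) =
            ((24 * (t - u) + 4 * K + 1) * 2) • (fun ζ => gen q L (fun ξ => (SS q L (t - u) g ξ) ^ 2) ζ -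
            2 * SS q L (t - u) g ζ * gen q L (SS q L (t - u) g) ζ) + fun _ => b := by
          funext ζ; simp only [Pi.add_apply, Pi.smul_apply, smul_eq_mul]
        rw [h4, SS_lin_add, SS_lin_smul, SS_const]
        simp only [Pi.add_apply, Pi.smul_apply, smul_eq_mul]
        exact le_refl _
      have h3 : (a - b) / 48 * (-24 / (24 * (t - u) + 4 * K + 1)) =
          -((a - b) / ((24 * (t - u) + 4 * K + 1) * 2)) := by
        field_simp
        ring
      rw [h3]
      have h4 : (a - b) / ((24 * (t - u) + 4 * K + 1) * 2) ≤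
          SS q L u (fun ζ => gen q L (fun ξ => (SS q L (t - u) g ξ) ^ 2) ζ -
            2 * SS q L (t - u) g ζ * gen q L (SS q L (t - u) g) ζ) η := by
        rw [div_le_iff₀ (by positivity)]
        linarith
      linarith
  have hfin := hmono (Set.left_mem_Icc.2 ht.le) (Set.right_mem_Icc.2 ht.le) ht.le
  simp only [hΨ, hY, sub_zero, sub_self, mul_zero, zero_add, SS_zero] at hfin
  have hYt : SS q L t (fun ζ => g ζ ^ 2) η ≤ B ^ 2 := by
    have := SS_abs_le h0 h1 L ht.le (g := fun ζ => g ζ ^ 2) (C := B ^ 2) (fun ζ => by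
      rw [abs_of_nonneg (sq_nonneg _), ← sq_abs]
      exact pow_le_pow_left₀ (abs_nonneg _) (hB ζ) 2) η
    exact (le_abs_self _).trans this
  have hY0 : 0 ≤ (SS q L t g η) ^ 2 := sq_nonneg _
  have : (a - b) * (Real.log (24 * t + 4 * K + 1) - Real.log (4 * K + 1)) =
    48 * ((a - b) / 48 * Real.log (24 * t + 4 * K + 1) - (a - b) / 48 * Real.log (4 * K + 1)) := by ring
  rw [this]
  linarith

/-- uniform decay of the time derivative -/
theorem gen_SS_tendsto {q : ℝ} (h0 : 0 ≤ q) (h1 : q ≤ 1) {g : Cfg → ℝ} {D B : ℝ}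
    (hosc : OscB g (fun x => D * Real.exp (-|(x:ℝ)|))) (hB : ∀ η, |g η| ≤ B) {ε : ℝ} (hε : 0 < ε) :
    ∃ T : ℝ, 0 < T ∧ ∀ t, T ≤ t → ∀ (L : ℕ) (η : Cfg), |SS q L t (gen q L g) η| ≤ ε := by
  have hD : 0 ≤ D := by
    have := hosc.nonneg 0
    simpa using this
  -- choose K
  have hlim : Tendsto (fun K : ℝ => 2 * (D * CZ * Real.exp (-K)) ^ 2) atTop (𝓝 0) := by
    have h2 : Tendsto (fun K : ℝ => Real.exp (-K)) atTop (𝓝 0) := Real.tendsto_exp_neg_atTop_nhds_zero
    have h3 := ((h2.const_mul (D * CZ)).pow 2).const_mul 2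
    simpa using h3
  obtain ⟨K, hK1, hK0⟩ : ∃ K : ℝ, 2 * (D * CZ * Real.exp (-K)) ^ 2 < ε ^ 2 / 2 ∧ 0 ≤ K := by
    have h2 := (hlim.eventually (gt_mem_nhds (show (0:ℝ) < ε ^ 2 / 2 by positivity))).and (eventually_ge_atTop 0)
    exact h2.exists
  have hlim2 : Tendsto (fun t : ℝ => Real.log (24 * t + 4 * K + 1) - Real.log (4 * K + 1)) atTop atTop := by
    apply tendsto_atTop_add_const_right
    apply Real.tendsto_log_atTop.comp
    apply tendsto_atTop_add_const_right
    apply tendsto_atTop_add_const_right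
    exact Tendsto.const_mul_atTop (by norm_num) tendsto_id
  obtain ⟨T, hT⟩ := ((hlim2.eventually (eventually_gt_atTop (96 * B ^ 2 / ε ^ 2))).and
    (eventually_gt_atTop 0)).exists_forall_of_atTop
  refine ⟨max T 1, by positivity, fun t ht L η => ?_⟩
  obtain ⟨hT1, hT0⟩ := hT t ((le_max_left _ _).trans ht)
  have h2 := gen_SS_sq_le h0 h1 L hosc hB hT0 hK0 η
  rw [gen_SS] at h2
  by_contra hcon
  rw [not_le] at hcon
  have h3 : ε ^ 2 < (SS q L t (gen q L g) η) ^ 2 := by
    rw [← sq_abs (SS q L t (gen q L g) η)]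
    exact pow_lt_pow_left₀ hcon hε.le (by norm_num)
  have h4 : ε ^ 2 / 2 < (SS q L t (gen q L g) η) ^ 2 - 2 * (D * CZ * Real.exp (-K)) ^ 2 := by linarith
  have h5 : 0 ≤ 96 * B ^ 2 / ε ^ 2 := by positivity
  have h6 : 48 * B ^ 2 < ((SS q L t (gen q L g) η) ^ 2 - 2 * (D * CZ * Real.exp (-K)) ^ 2) *
      (Real.log (24 * t + 4 * K + 1) - Real.log (4 * K + 1)) := by
    have h7 : 48 * B ^ 2 = (ε ^ 2 / 2) * (96 * B ^ 2 / ε ^ 2) := by
      field_simp; ring
    rw [h7]
    have hpos : 0 < ε ^ 2 / 2 := by positivity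
    nlinarith
  linarith

end Pool.Agent.LibFA
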