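import Pool.Agent.LibFA.Ineq

open Filter Topology

namespace Pool.Agent.LibFA

/-- dissipation of the flip at `x` given that the neighbour `y` is infected -/
noncomputable def eL (q : ℝ) (lam : Finset ℤ → ℝ) (U : Finset ℤ) (x y : ℤ) : ℝ :=
  ∑ A ∈ ((U.erase x).erase y).powerset, jj ((1 - q) * lam (insert x (insert y A))) (q * lam (insert y A))

/-- neighbours of `x` inside `U` -/
def nb (U : Finset ℤ) (x : ℤ) : Finset ℤ := U.filter (fun y => y = x + 1 ∨ y = x - 1)

noncomputable def DL (q : ℝ) (lam : Finset ℤ → ℝ) (U : Finset ℤ) : ℝ :=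
  ∑ x ∈ U, ∑ y ∈ nb U x, eL q lam U x y

noncomputable def marg (lam : Finset ℤ → ℝ) (V : Finset ℤ) : Finset ℤ → ℝ :=
  fun A => ∑ A₂ ∈ V.powerset, lam (A ∪ A₂)

theorem eL_nonneg (q : ℝ) (lam : Finset ℤ → ℝ) (U : Finset ℤ) (x y : ℤ) : 0 ≤ eL q lam U x y :=
  Finset.sum_nonneg fun _ _ => jj_nonneg _ _

theorem DL_nonneg (q : ℝ) (lam : Finset ℤ → ℝ) (U : Finset ℤ) : 0 ≤ DL q lam U :=
  Finset.sum_nonneg fun _ _ => Finset.sum_nonneg fun _ _ => eL_nonneg _ _ _ _ _

theorem sum_powerset_union {U V : Finset ℤ} (h : Disjoint U V) (f : Finset ℤ → ℝ) :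
    ∑ A ∈ (U ∪ V).powerset, f A = ∑ A₁ ∈ U.powerset, ∑ A₂ ∈ V.powerset, f (A₁ ∪ A₂) := by
  induction V using Finset.induction_on generalizing f with
  | empty => simp
  | insert a V ha ih =>
    have hUV : Disjoint U V := by
      refine Finset.disjoint_left.2 fun x hx hx' => ?_
      exact Finset.disjoint_left.1 h hx (Finset.mem_insert_of_mem hx')
    have haU : a ∉ U := fun hx => Finset.disjoint_left.1 h hx (Finset.mem_insert_self _ _)
    have haUV : a ∉ U ∪ V := by
      rw [Finset.mem_union, not_or]; exact ⟨haU, ha⟩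
    rw [Finset.union_insert, Finset.sum_powerset_insert haUV, ih hUV, ih hUV, ← Finset.sum_add_distrib]
    refine Finset.sum_congr rfl fun A₁ _ => ?_
    rw [Finset.sum_powerset_insert ha]
    congr 1
    refine Finset.sum_congr rfl fun A₂ _ => ?_
    rw [Finset.union_insert]

theorem eL_marg {q : ℝ} (h0 : 0 ≤ q) (h1 : q ≤ 1) {lam : Finset ℤ → ℝ} (hlam : ∀ A, 0 ≤ lam A)
    {U V : Finset ℤ} (h : Disjoint U V) {x y : ℤ} (hx : x ∈ U) (hy : y ∈ U) :
    eL q (marg lam V) U x y ≤ eL q lam (U ∪ V) x y := by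
  unfold eL
  have hxV : x ∉ V := Finset.disjoint_left.1 h hx
  have hyV : y ∉ V := Finset.disjoint_left.1 h hy
  have hset : ((U ∪ V).erase x).erase y = ((U.erase x).erase y) ∪ V := by
    rw [Finset.erase_union_distrib, Finset.erase_union_distrib, Finset.erase_eq_of_notMem hxV,
      Finset.erase_eq_of_notMem hyV]
  have hdisj : Disjoint ((U.erase x).erase y) V :=
    Finset.disjoint_of_subset_left ((Finset.erase_subset _ _).trans (Finset.erase_subset _ _)) h
  rw [hset, sum_powerset_union hdisj]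
  refine Finset.sum_le_sum fun A₁ _ => ?_
  unfold marg
  rw [Finset.mul_sum, Finset.mul_sum]
  refine (jj_sum_le _ _ _ ?_ ?_).trans ?_
  · intro i _; exact mul_nonneg (by linarith) (hlam _)
  · intro i _; exact mul_nonneg h0 (hlam _)
  · refine Finset.sum_le_sum fun A₂ _ => ?_
    rw [Finset.insert_union, Finset.insert_union]

theorem eL_right {q : ℝ} {lam : Finset ℤ → ℝ}
    {U V : Finset ℤ} (h : Disjoint U V) {x y : ℤ} (hx : x ∈ V) (hy : y ∈ V) :
    eL q lam (U ∪ V) x y = ∑ A₁ ∈ U.powerset, eL q (fun A₂ => lam (A₁ ∪ A₂)) V x y := by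
  unfold eL
  have hxV : x ∉ U := fun hh => Finset.disjoint_left.1 h hh hx
  have hyV : y ∉ U := fun hh => Finset.disjoint_left.1 h hh hy
  have hset : ((U ∪ V).erase x).erase y = U ∪ ((V.erase x).erase y) := by
    rw [Finset.erase_union_distrib, Finset.erase_union_distrib, Finset.erase_eq_of_notMem hxV,
      Finset.erase_eq_of_notMem hyV]
  have hdisj : Disjoint U ((V.erase x).erase y) :=
    Finset.disjoint_of_subset_right ((Finset.erase_subset _ _).trans (Finset.erase_subset _ _)) h
  rw [hset, sum_powerset_union hdisj]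
  refine Finset.sum_congr rfl fun A₁ _ => Finset.sum_congr rfl fun A₂ _ => ?_
  simp only [Finset.union_insert]

theorem DL_split {q : ℝ} (h0 : 0 ≤ q) (h1 : q ≤ 1) {lam : Finset ℤ → ℝ} (hlam : ∀ A, 0 ≤ lam A)
    {U V : Finset ℤ} (h : Disjoint U V) :
    DL q (marg lam V) U + ∑ A₁ ∈ U.powerset, DL q (fun A₂ => lam (A₁ ∪ A₂)) V ≤ DL q lam (U ∪ V) := by
  unfold DL
  rw [Finset.sum_union h]
  apply add_le_add
  · refine Finset.sum_le_sum fun x hx => ?_
    calc ∑ y ∈ nb U x, eL q (marg lam V) U x y ≤ ∑ y ∈ nb U x, eL q lam (U ∪ V) x y := by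
          refine Finset.sum_le_sum fun y hy => ?_
          exact eL_marg h0 h1 hlam h hx (Finset.mem_filter.1 hy).1
      _ ≤ ∑ y ∈ nb (U ∪ V) x, eL q lam (U ∪ V) x y := by
          refine Finset.sum_le_sum_of_subset_of_nonneg ?_ fun _ _ _ => eL_nonneg _ _ _ _ _
          exact Finset.filter_subset_filter _ Finset.subset_union_left
  · rw [Finset.sum_comm]
    refine Finset.sum_le_sum fun x hx => ?_
    rw [Finset.sum_comm]
    calc ∑ y ∈ nb V x, ∑ A₁ ∈ U.powerset, eL q (fun A₂ => lam (A₁ ∪ A₂)) V x y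
        = ∑ y ∈ nb V x, eL q lam (U ∪ V) x y := by
          refine Finset.sum_congr rfl fun y hy => ?_
          exact (eL_right h hx (Finset.mem_filter.1 hy).1).symm
      _ ≤ ∑ y ∈ nb (U ∪ V) x, eL q lam (U ∪ V) x y := by
          refine Finset.sum_le_sum_of_subset_of_nonneg ?_ fun _ _ _ => eL_nonneg _ _ _ _ _
          exact Finset.filter_subset_filter _ Finset.subset_union_right

/-- relative entropy with respect to the unnormalised measure `ρ^|A|`, homogeneous version -/
noncomputable def HLm (q : ℝ) (lam : Finset ℤ → ℝ) (U : Finset ℤ) : ℝ :=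
  ∑ A ∈ U.powerset, lam A * (Real.log (lam A) - A.card * Real.log (q / (1 - q)) -
    Real.log (∑ B ∈ U.powerset, lam B))

theorem HLm_split {q : ℝ} {lam : Finset ℤ → ℝ} {U V : Finset ℤ} (h : Disjoint U V) :
    HLm q lam (U ∪ V) = HLm q (marg lam V) U + ∑ A₁ ∈ U.powerset, HLm q (fun A₂ => lam (A₁ ∪ A₂)) V := by
  unfold HLm
  rw [sum_powerset_union h, sum_powerset_union h, ← Finset.sum_add_distrib]
  refine Finset.sum_congr rfl fun A₁ hA₁ => ?_
  have hm : ∑ A₂ ∈ V.powerset, lam (A₁ ∪ A₂) = marg lam V A₁ := rfl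
  have hM : ∑ A₁ ∈ U.powerset, ∑ A₂ ∈ V.powerset, lam (A₁ ∪ A₂) = ∑ A₁ ∈ U.powerset, marg lam V A₁ := rfl
  rw [hM, hm]
  rw [show marg lam V A₁ * (Real.log (marg lam V A₁) - (A₁.card : ℝ) * Real.log (q / (1 - q)) -
      Real.log (∑ B ∈ U.powerset, marg lam V B)) = ∑ A₂ ∈ V.powerset, lam (A₁ ∪ A₂) *
      (Real.log (marg lam V A₁) - (A₁.card : ℝ) * Real.log (q / (1 - q)) -
      Real.log (∑ B ∈ U.powerset, marg lam V B)) by rw [← Finset.sum_mul, hm]]
  rw [← Finset.sum_add_distrib]
  refine Finset.sum_congr rfl fun A₂ hA₂ => ?_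
  have hcard : ((A₁ ∪ A₂).card : ℝ) = A₁.card + A₂.card := by
    rw [Finset.card_union_of_disjoint]
    · push_cast; ring
    · exact Finset.disjoint_of_subset_left (Finset.mem_powerset.1 hA₁)
        (Finset.disjoint_of_subset_right (Finset.mem_powerset.1 hA₂) h)
  rw [hcard]
  ring

/-- a nonempty proper subset of an interval has a neighbour -/
theorem exists_adj {a b : ℤ} {A : Finset ℤ} (hA : A ⊆ Finset.Icc a b) (hne : A.Nonempty)
    (hne' : A ≠ Finset.Icc a b) :
    ∃ x y, x ∈ Finset.Icc a b ∧ x ∉ A ∧ y ∈ A ∧ (y = x + 1 ∨ y = x - 1) := by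
  by_contra hcon
  push Not at hcon
  apply hne'
  refine Finset.Subset.antisymm hA fun z hz => ?_
  obtain ⟨y, hy⟩ := hne
  have hyI := Finset.mem_Icc.1 (hA hy)
  have hzI := Finset.mem_Icc.1 hz
  -- upward
  have up : ∀ n : ℕ, y + n ≤ b → y + n ∈ A := by
    intro n
    induction n with
    | zero => intro _; simpa using hy
    | succ n ih =>
      intro hle
      push_cast at hle
      by_contra hc
      have h1 := hcon (y + (n + 1 : ℕ)) (y + n) (by rw [Finset.mem_Icc]; push_cast; constructor <;> omega) hc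
        (ih (by omega))
      exact h1.2 (by push_cast; ring)
  have down : ∀ n : ℕ, a ≤ y - n → y - n ∈ A := by
    intro n
    induction n with
    | zero => intro _; simpa using hy
    | succ n ih =>
      intro hle
      push_cast at hle
      by_contra hc
      have h1 := hcon (y - (n + 1 : ℕ)) (y - n) (by rw [Finset.mem_Icc]; push_cast; constructor <;> omega) hc
        (ih (by omega))
      exact h1.1 (by push_cast; ring)
  rcases le_total y z with h | h
  · have := up (z - y).toNat (by rw [Int.toNat_of_nonneg (by omega)]; omega)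
    rwa [Int.toNat_of_nonneg (by omega), add_sub_cancel] at this
  · have := down (y - z).toNat (by rw [Int.toNat_of_nonneg (by omega)]; omega)
    rwa [Int.toNat_of_nonneg (by omega), sub_sub_cancel] at this

/-- square root of the density -/
noncomputable def sd (q : ℝ) (lam : Finset ℤ → ℝ) (A : Finset ℤ) : ℝ :=
  Real.sqrt (lam A / (q / (1 - q)) ^ A.card)

noncomputable def cmin (q : ℝ) (w : ℕ) : ℝ := (1 - q) * (min 1 (q / (1 - q))) ^ w

theorem cmin_pos {q : ℝ} (h0 : 0 < q) (h1 : q < 1) (w : ℕ) : 0 < cmin q w := by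
  unfold cmin
  have : 0 < 1 - q := by linarith
  have h2 : 0 < min 1 (q / (1 - q)) := lt_min one_pos (div_pos h0 this)
  positivity

theorem jj_eq_sd {q : ℝ} (h0 : 0 < q) (h1 : q < 1) (lam : Finset ℤ → ℝ) {A : Finset ℤ} {x : ℤ}
    (hx : x ∉ A) :
    jj ((1 - q) * lam (insert x A)) (q * lam A) =
      ((1 - q) * (q / (1 - q)) ^ (A.card + 1)) * (sd q lam (insert x A) - sd q lam A) ^ 2 := by
  have h2 : 0 < 1 - q := by linarith
  have hρ : 0 < q / (1 - q) := div_pos h0 h2
  have e1 : (1 - q) * lam (insert x A) = ((1 - q) * (q / (1 - q)) ^ (A.card + 1)) *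
      (lam (insert x A) / (q / (1 - q)) ^ (insert x A).card) := by
    rw [Finset.card_insert_of_notMem hx]
    have : (q / (1 - q)) ^ (A.card + 1) ≠ 0 := by positivity
    field_simp
  have e2 : q * lam A = ((1 - q) * (q / (1 - q)) ^ (A.card + 1)) *
      (lam A / (q / (1 - q)) ^ A.card) := by
    have h3 : (q / (1 - q)) ^ A.card ≠ 0 := by positivity
    rw [pow_succ]
    have h4 : (1 - q) * ((q / (1 - q)) ^ A.card * (q / (1 - q))) = q * (q / (1 - q)) ^ A.card := by
      field_simp
    rw [h4]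
    field_simp
  rw [e1, e2, jj_mul (by positivity)]
  rfl

theorem sd_step {q : ℝ} (h0 : 0 < q) (h1 : q < 1) (lam : Finset ℤ → ℝ) {V : Finset ℤ} {A : Finset ℤ}
    (hA : A ⊆ V) {x y : ℤ} (hx : x ∈ V) (hxA : x ∉ A) (hy : y ∈ A) (hxy : y = x + 1 ∨ y = x - 1) {w : ℕ}
    (hw : V.card ≤ w) :
    |sd q lam (insert x A) - sd q lam A| ≤ Real.sqrt (DL q lam V / cmin q w) := by
  have h2 : 0 < 1 - q := by linarith
  have hρ : 0 < q / (1 - q) := div_pos h0 h2
  apply Real.le_sqrt_of_sq_le
  rw [sq_abs, le_div_iff₀ (cmin_pos h0 h1 w), mul_comm]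
  have hterm : jj ((1 - q) * lam (insert x A)) (q * lam A) ≤ DL q lam V := by
    have hyx : y ≠ x := fun h => hxA (h ▸ hy)
    have hyV : y ∈ V := hA hy
    have hA' : A.erase y ∈ ((V.erase x).erase y).powerset := by
      rw [Finset.mem_powerset]
      intro z hz
      rw [Finset.mem_erase] at hz
      rw [Finset.mem_erase, Finset.mem_erase]
      exact ⟨hz.1, fun h => hxA (h ▸ hz.2), hA hz.2⟩
    have hins : insert y (A.erase y) = A := Finset.insert_erase hy
    have t1 : jj ((1 - q) * lam (insert x A)) (q * lam A) ≤ eL q lam V x y := by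
      have := Finset.single_le_sum (f := fun A => jj ((1 - q) * lam (insert x (insert y A)))
        (q * lam (insert y A))) (fun _ _ => jj_nonneg _ _) hA'
      simp only [hins] at this
      exact this
    have t2 : eL q lam V x y ≤ ∑ y ∈ nb V x, eL q lam V x y :=
      Finset.single_le_sum (f := fun y => eL q lam V x y) (fun _ _ => eL_nonneg _ _ _ _ _)
        (Finset.mem_filter.2 ⟨hyV, hxy⟩)
    have t3 : ∑ y ∈ nb V x, eL q lam V x y ≤ DL q lam V :=
      Finset.single_le_sum (f := fun x => ∑ y ∈ nb V x, eL q lam V x y)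
        (fun _ _ => Finset.sum_nonneg fun _ _ => eL_nonneg _ _ _ _ _) hx
    exact t1.trans (t2.trans t3)
  rw [jj_eq_sd h0 h1 lam hxA] at hterm
  refine le_trans ?_ hterm
  refine mul_le_mul_of_nonneg_right ?_ (sq_nonneg _)
  unfold cmin
  refine mul_le_mul_of_nonneg_left ?_ h2.le
  have hcard : A.card + 1 ≤ w := by
    have : (insert x A).card ≤ V.card := Finset.card_le_card (Finset.insert_subset hx hA)
    rw [Finset.card_insert_of_notMem hxA] at this
    exact this.trans hw
  have hmin0 : 0 ≤ min 1 (q / (1 - q)) := le_min zero_le_one hρ.le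
  calc (min 1 (q / (1 - q))) ^ w ≤ (min 1 (q / (1 - q))) ^ (A.card + 1) :=
        pow_le_pow_of_le_one hmin0 (min_le_left _ _) hcard
    _ ≤ (q / (1 - q)) ^ (A.card + 1) := pow_le_pow_left₀ hmin0 (min_le_right _ _) _

theorem sd_close {q : ℝ} (h0 : 0 < q) (h1 : q < 1) (lam : Finset ℤ → ℝ) {a b : ℤ} {w : ℕ}
    (hw : (Finset.Icc a b).card ≤ w) (n : ℕ) : ∀ A : Finset ℤ, A ⊆ Finset.Icc a b → A.Nonempty →
    (Finset.Icc a b \ A).card ≤ n →
    |sd q lam (Finset.Icc a b) - sd q lam A| ≤ n * Real.sqrt (DL q lam (Finset.Icc a b) / cmin q w) := by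
  induction n with
  | zero =>
    intro A hA hne hcard
    have : Finset.Icc a b \ A = ∅ := Finset.card_eq_zero.1 (Nat.le_zero.1 hcard)
    have h2 : A = Finset.Icc a b := Finset.Subset.antisymm hA (Finset.sdiff_eq_empty_iff_subset.1 this)
    rw [h2]; simp
  | succ n ih =>
    intro A hA hne hcard
    by_cases hfull : A = Finset.Icc a b
    · rw [hfull]
      simp only [sub_self, abs_zero]
      positivity
    · obtain ⟨x, y, hx, hxA, hy, hxy⟩ := exists_adj hA hne hfull
      have hins : insert x A ⊆ Finset.Icc a b := Finset.insert_subset hx hA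
      have hcard' : (Finset.Icc a b \ insert x A).card ≤ n := by
        have h3 : Finset.Icc a b \ insert x A = (Finset.Icc a b \ A).erase x := by
          ext z; simp only [Finset.mem_sdiff, Finset.mem_insert, Finset.mem_erase, not_or]; tauto
        rw [h3, Finset.card_erase_of_mem (Finset.mem_sdiff.2 ⟨hx, hxA⟩)]
        omega
      have h4 := ih (insert x A) hins (Finset.insert_nonempty _ _) hcard'
      have h5 := sd_step h0 h1 lam hA hx hxA hy hxy hw
      have h6 := abs_sub_le (sd q lam (Finset.Icc a b)) (sd q lam (insert x A)) (sd q lam A)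
      push_cast
      linarith

theorem sum_pow_card (ρ : ℝ) (V : Finset ℤ) : ∑ A ∈ V.powerset, ρ ^ A.card = (1 + ρ) ^ V.card := by
  have := Finset.sum_pow_mul_eq_add_pow ρ 1 V
  simp only [one_pow, mul_one] at this
  rw [this, add_comm]

/-- the block inequality -/
theorem block_ineq {q : ℝ} (h0 : 0 < q) (h1 : q < 1) {lam : Finset ℤ → ℝ} (hlam : ∀ A, 0 < lam A)
    {a b : ℤ} {w : ℕ} (hw : (Finset.Icc a b).card = w) (hZ : 3 ≤ (1 + q / (1 - q)) ^ w) :
    HLm q lam (Finset.Icc a b) ≤ (64 * (w:ℝ) ^ 2 / cmin q w) * DL q lam (Finset.Icc a b) := by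
  set V := Finset.Icc a b with hV
  have h2 : 0 < 1 - q := by linarith
  have hρ : 0 < q / (1 - q) := div_pos h0 h2
  set m := ∑ B ∈ V.powerset, lam B with hm
  have hmpos : 0 < m := Finset.sum_pos (fun A _ => hlam A) ⟨∅, Finset.empty_mem_powerset _⟩
  have hwpos : 0 < w := by
    rcases Nat.eq_zero_or_pos w with h | h
    · rw [h, pow_zero] at hZ; linarith
    · exact h
  have hVne : V.Nonempty := by
    rw [← Finset.card_pos, hw]; exact hwpos
  set η := Real.sqrt (DL q lam V / cmin q w) with hη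
  have hη0 : 0 ≤ η := Real.sqrt_nonneg _
  have hηsq : η ^ 2 = DL q lam V / cmin q w :=
    Real.sq_sqrt (div_nonneg (DL_nonneg _ _ _) (cmin_pos h0 h1 w).le)
  -- maximal nonempty set
  have hne : (V.powerset.filter (fun A => A.Nonempty)).Nonempty :=
    ⟨V, Finset.mem_filter.2 ⟨Finset.mem_powerset_self _, hVne⟩⟩
  obtain ⟨As, hAs, hmax⟩ := Finset.exists_max_image (V.powerset.filter (fun A => A.Nonempty))
    (sd q lam) hne
  rw [Finset.mem_filter, Finset.mem_powerset] at hAs
  set s := sd q lam As with hs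
  have hs0 : 0 < s := Real.sqrt_pos.2 (div_pos (hlam _) (pow_pos hρ _))
  have hsdsq : ∀ A, sd q lam A ^ 2 = lam A / (q / (1 - q)) ^ A.card := fun A =>
    Real.sq_sqrt (div_nonneg (hlam A).le (pow_pos hρ _).le)
  -- upper bound for HLm
  have hH : HLm q lam V ≤ ∑ A ∈ V.powerset.filter (fun A => A.Nonempty), lam A * (Real.log (s ^ 2) - Real.log m) := by
    unfold HLm
    rw [← hm, ← Finset.sum_filter_add_sum_filter_not V.powerset (fun A => A.Nonempty)]
    have hneg : ∑ A ∈ V.powerset.filter (fun A => ¬ A.Nonempty), lam A * (Real.log (lam A) -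
        A.card * Real.log (q / (1 - q)) - Real.log m) ≤ 0 := by
      refine Finset.sum_nonpos fun A hA => ?_
      rw [Finset.mem_filter, Finset.not_nonempty_iff_eq_empty] at hA
      rw [hA.2]
      have h3 : lam ∅ ≤ m := Finset.single_le_sum (f := lam) (fun B _ => (hlam B).le)
        (Finset.empty_mem_powerset _)
      have h4 := Real.log_le_log (hlam ∅) h3
      simp only [Finset.card_empty, Nat.cast_zero, zero_mul, sub_zero]
      exact mul_nonpos_of_nonneg_of_nonpos (hlam _).le (by linarith)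
    have hpos : ∑ A ∈ V.powerset.filter (fun A => A.Nonempty), lam A * (Real.log (lam A) -
        A.card * Real.log (q / (1 - q)) - Real.log m) ≤
        ∑ A ∈ V.powerset.filter (fun A => A.Nonempty), lam A * (Real.log (s ^ 2) - Real.log m) := by
      refine Finset.sum_le_sum fun A hA => ?_
      refine mul_le_mul_of_nonneg_left ?_ (hlam A).le
      have h3 : Real.log (lam A) - A.card * Real.log (q / (1 - q)) = Real.log (sd q lam A ^ 2) := by
        rw [hsdsq, Real.log_div (hlam A).ne' (pow_pos hρ _).ne', Real.log_pow]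
      have h4 : sd q lam A ≤ s := hmax A hA
      have h5 : 0 < sd q lam A := Real.sqrt_pos.2 (div_pos (hlam _) (pow_pos hρ _))
      have h6 := Real.log_le_log (by positivity) (pow_le_pow_left₀ h5.le h4 2)
      rw [h3]
      linarith
    linarith
  have hC0 : 0 ≤ (64 * (w:ℝ) ^ 2 / cmin q w) * DL q lam V := by
    have := cmin_pos h0 h1 w
    have := DL_nonneg q lam V
    positivity
  by_cases hcase : s ^ 2 ≤ m
  · refine (hH.trans ?_).trans hC0
    refine Finset.sum_nonpos fun A _ => ?_
    have := Real.log_le_log (by positivity) hcase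
    exact mul_nonpos_of_nonneg_of_nonpos (hlam _).le (by linarith)
  · rw [not_le] at hcase
    -- mass bound
    have hmass : ∑ A ∈ V.powerset.filter (fun A => A.Nonempty), lam A ≤ m :=
      Finset.sum_le_sum_of_subset_of_nonneg (Finset.filter_subset _ _) (fun A _ _ => (hlam A).le)
    have hZ2 : ∑ A ∈ V.powerset.filter (fun A => A.Nonempty), (q / (1 - q)) ^ A.card ≥ 2 := by
      have h3 := Finset.sum_filter_add_sum_filter_not V.powerset (fun A => A.Nonempty)
        (fun A => (q / (1 - q)) ^ A.card)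
      rw [sum_pow_card, hw] at h3
      have h4 : V.powerset.filter (fun A => ¬ A.Nonempty) = {∅} := by
        ext A
        rw [Finset.mem_filter, Finset.not_nonempty_iff_eq_empty, Finset.mem_singleton]
        constructor
        · exact fun h => h.2
        · rintro rfl; exact ⟨Finset.empty_mem_powerset _, rfl⟩
      rw [h4, Finset.sum_singleton, Finset.card_empty, pow_zero] at h3
      linarith
    have hclose : ∀ A ∈ V.powerset.filter (fun A => A.Nonempty), s - 2 * w * η ≤ sd q lam A := by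
      intro A hA
      rw [Finset.mem_filter, Finset.mem_powerset] at hA
      have c1 := sd_close h0 h1 lam hw.le w A hA.1 hA.2
        ((Finset.card_le_card Finset.sdiff_subset).trans hw.le)
      have c2 := sd_close h0 h1 lam hw.le w As hAs.1 hAs.2
        ((Finset.card_le_card Finset.sdiff_subset).trans hw.le)
      rw [abs_le] at c1 c2
      rw [← hV, ← hη] at c1 c2
      linarith [c1.1, c1.2, c2.1, c2.2]
    have hkey : s < 8 * w * η := by
      by_contra hcon
      rw [not_lt] at hcon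
      have h3 : ∀ A ∈ V.powerset.filter (fun A => A.Nonempty), (9/16) * s ^ 2 * (q / (1 - q)) ^ A.card ≤ lam A := by
        intro A hA
        have h4 : (3/4) * s ≤ sd q lam A := by
          have := hclose A hA
          linarith
        have h5 : ((3/4) * s) ^ 2 ≤ sd q lam A ^ 2 := pow_le_pow_left₀ (by positivity) h4 2
        rw [hsdsq, le_div_iff₀ (pow_pos hρ _)] at h5
        nlinarith
      have h4 := Finset.sum_le_sum h3
      rw [← Finset.mul_sum] at h4
      have h5 : (9/16) * s ^ 2 * 2 ≤ m := by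
        have h6 : (9/16) * s ^ 2 * 2 ≤ (9/16) * s ^ 2 *
            ∑ A ∈ V.powerset.filter (fun A => A.Nonempty), (q / (1 - q)) ^ A.card :=
          mul_le_mul_of_nonneg_left hZ2 (by positivity)
        linarith
      nlinarith
    have hs2 : s ^ 2 ≤ 64 * (w:ℝ) ^ 2 / cmin q w * DL q lam V := by
      have h3 : s ^ 2 ≤ (8 * w * η) ^ 2 := pow_le_pow_left₀ hs0.le hkey.le 2
      rw [mul_pow, hηsq] at h3
      calc s ^ 2 ≤ (8 * (w:ℝ)) ^ 2 * (DL q lam V / cmin q w) := h3
        _ = 64 * (w:ℝ) ^ 2 / cmin q w * DL q lam V := by ring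
    refine le_trans ?_ hs2
    refine hH.trans ?_
    rw [← Finset.sum_mul]
    have hlog : Real.log (s ^ 2) - Real.log m ≤ s ^ 2 / m - 1 := by
      rw [← Real.log_div (by positivity) hmpos.ne']
      exact Real.log_le_sub_one_of_pos (by positivity)
    have hlog0 : 0 ≤ Real.log (s ^ 2) - Real.log m := by
      have := Real.log_le_log hmpos hcase.le
      linarith
    calc (∑ A ∈ V.powerset.filter (fun A => A.Nonempty), lam A) * (Real.log (s ^ 2) - Real.log m)
        ≤ m * (Real.log (s ^ 2) - Real.log m) := mul_le_mul_of_nonneg_right hmass hlog0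
      _ ≤ m * (s ^ 2 / m - 1) := mul_le_mul_of_nonneg_left hlog hmpos.le
      _ = s ^ 2 - m := by field_simp
      _ ≤ s ^ 2 := by linarith

theorem marg_pos {lam : Finset ℤ → ℝ} (hlam : ∀ A, 0 < lam A) (V A : Finset ℤ) : 0 < marg lam V A :=
  Finset.sum_pos (fun _ _ => hlam _) ⟨∅, Finset.empty_mem_powerset _⟩

/-- block constant -/
noncomputable def CB (q : ℝ) (w : ℕ) : ℝ := 64 * (w:ℝ) ^ 2 / cmin q w

theorem CB_nonneg {q : ℝ} (h0 : 0 < q) (h1 : q < 1) (w : ℕ) : 0 ≤ CB q w := by
  unfold CB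
  have := cmin_pos h0 h1 w
  positivity

/-- entropy is controlled by dissipation on unions of blocks -/
theorem chain_ineq {q : ℝ} (h0 : 0 < q) (h1 : q < 1) {w : ℕ} (hwpos : 0 < w)
    (hZ : 3 ≤ (1 + q / (1 - q)) ^ w) (a : ℤ) (n : ℕ) :
    ∀ {lam : Finset ℤ → ℝ}, (∀ A, 0 < lam A) →
    HLm q lam (Finset.Icc a (a + n * w - 1)) ≤ CB q w * DL q lam (Finset.Icc a (a + n * w - 1)) := by
  induction n with
  | zero =>
    intro lam hlam
    have : Finset.Icc a (a + (0:ℕ) * w - 1) = ∅ := by
      rw [Finset.Icc_eq_empty_iff]; push_cast; omega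
    rw [this]
    unfold HLm
    simp only [Finset.powerset_empty, Finset.sum_singleton, Finset.card_empty, Nat.cast_zero, zero_mul,
      sub_zero, sub_self, mul_zero]
    exact mul_nonneg (CB_nonneg h0 h1 w) (DL_nonneg _ _ _)
  | succ n ih =>
    intro lam hlam
    set U := Finset.Icc a (a + n * w - 1) with hU
    set V := Finset.Icc (a + n * w) (a + n * w + w - 1) with hV
    have hUV : Finset.Icc a (a + (n + 1 : ℕ) * w - 1) = U ∪ V := by
      ext z
      rw [Finset.mem_union, hU, hV, Finset.mem_Icc, Finset.mem_Icc, Finset.mem_Icc]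
      push_cast
      have h2 : (0:ℤ) ≤ n * w := by positivity
      have h3 : ((n:ℤ) + 1) * w = n * w + w := by ring
      rw [h3]
      have h4 : (0:ℤ) < w := by exact_mod_cast hwpos
      generalize (n:ℤ) * w = k at *
      constructor
      · rintro ⟨h5, h6⟩
        by_cases h7 : z ≤ a + k - 1
        · left; exact ⟨h5, h7⟩
        · right; constructor <;> omega
      · rintro (⟨h5, h6⟩ | ⟨h5, h6⟩)
        · constructor <;> omega
        · constructor <;> omega
    have hdisj : Disjoint U V := by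
      rw [Finset.disjoint_left]
      intro z hz hz'
      rw [hU, Finset.mem_Icc] at hz
      rw [hV, Finset.mem_Icc] at hz'
      omega
    have hVcard : V.card = w := by
      rw [hV, Int.card_Icc]; omega
    rw [hUV, HLm_split hdisj]
    have hsplit := DL_split h0.le h1.le (lam := lam) (fun A => (hlam A).le) hdisj
    have hC := CB_nonneg h0 h1 w
    have e1 := ih (lam := marg lam V) (marg_pos hlam V)
    have e2 : ∑ A₁ ∈ U.powerset, HLm q (fun A₂ => lam (A₁ ∪ A₂)) V ≤
        ∑ A₁ ∈ U.powerset, CB q w * DL q (fun A₂ => lam (A₁ ∪ A₂)) V :=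
      Finset.sum_le_sum fun A₁ _ => block_ineq h0 h1 (fun A => hlam _) hVcard hZ
    rw [← Finset.mul_sum] at e2
    calc _ ≤ CB q w * DL q (marg lam V) U + CB q w * ∑ A₁ ∈ U.powerset, DL q (fun A₂ => lam (A₁ ∪ A₂)) V :=
          add_le_add e1 e2
      _ = CB q w * (DL q (marg lam V) U + ∑ A₁ ∈ U.powerset, DL q (fun A₂ => lam (A₁ ∪ A₂)) V) := by ring
      _ ≤ _ := mul_le_mul_of_nonneg_left hsplit hC

/-- Gibbs variational lower bound -/
theorem gibbs_ineq {ι : Type*} (s : Finset ι) (p m : ι → ℝ) (hp : ∀ i ∈ s, 0 < p i) (hm : ∀ i ∈ s, 0 < m i)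
    (hp1 : ∑ i ∈ s, p i = 1) {Z : ℝ} (hZ : ∑ i ∈ s, m i ≤ Z) (hZ0 : 0 < Z) :
    ∑ i ∈ s, p i * (Real.log (m i) - Real.log (p i)) ≤ Real.log Z := by
  have h : ∀ i ∈ s, p i * (Real.log (m i) - Real.log (p i)) ≤ p i * Real.log Z + (m i / Z - p i) := by
    intro i hi
    have h1 : Real.log (m i / (p i * Z)) ≤ m i / (p i * Z) - 1 :=
      Real.log_le_sub_one_of_pos (div_pos (hm i hi) (mul_pos (hp i hi) hZ0))
    rw [Real.log_div (hm i hi).ne' (mul_pos (hp i hi) hZ0).ne', Real.log_mul (hp i hi).ne' hZ0.ne'] at h1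
    have h2 := mul_le_mul_of_nonneg_left h1 (hp i hi).le
    have h3 : p i * (m i / (p i * Z) - 1) = m i / Z - p i := by
      have := (hp i hi).ne'
      field_simp
    rw [h3] at h2
    nlinarith
  refine (Finset.sum_le_sum h).trans ?_
  rw [Finset.sum_add_distrib, ← Finset.sum_mul, hp1, Finset.sum_sub_distrib, hp1, ← Finset.sum_div]
  have : (∑ i ∈ s, m i) / Z ≤ 1 := by
    rw [div_le_one hZ0]; exact hZ
  linarith

end Pool.Agent.LibFA
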