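import Pool.Agent.LibFA.Carre
import Pool.Agent.LibFA.Diss

open Filter Topology

namespace Pool.Agent.LibFA

/-- A state: positive normalised linear functional on functions of configurations. -/
structure IsState (φ : (Cfg → ℝ) → ℝ) : Prop where
  add : ∀ g h, φ (g + h) = φ g + φ h
  smul : ∀ (c : ℝ) g, φ (c • g) = c * φ g
  nonneg : ∀ g, (∀ η, 0 ≤ g η) → 0 ≤ φ g
  one : φ (fun _ => 1) = 1

theorem IsState.zero {φ : (Cfg → ℝ) → ℝ} (h : IsState φ) : φ (fun _ => 0) = 0 := by
  have := h.smul 0 (fun _ => 0)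
  rw [zero_smul, zero_mul] at this
  exact this

theorem IsState.sub {φ : (Cfg → ℝ) → ℝ} (h : IsState φ) (g k : Cfg → ℝ) : φ (g - k) = φ g - φ k := by
  have : g - k = g + (-1 : ℝ) • k := by
    funext η; simp [sub_eq_add_neg]
  rw [this, h.add, h.smul]; ring

theorem IsState.mono {φ : (Cfg → ℝ) → ℝ} (h : IsState φ) {g k : Cfg → ℝ} (hgk : ∀ η, g η ≤ k η) :
    φ g ≤ φ k := by
  have := h.nonneg (k - g) (fun η => by simpa using hgk η)
  rw [h.sub] at this
  linarith

theorem IsState.sum {φ : (Cfg → ℝ) → ℝ} (h : IsState φ) {ι : Type*} (s : Finset ι) (g : ι → Cfg → ℝ) :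
    φ (fun η => ∑ i ∈ s, g i η) = ∑ i ∈ s, φ (g i) := by
  classical
  induction s using Finset.induction_on with
  | empty => simpa using h.zero
  | insert a s ha ih =>
    rw [Finset.sum_insert ha, ← ih, ← h.add]
    congr 1
    funext η
    rw [Finset.sum_insert ha]
    rfl

theorem IsState.const {φ : (Cfg → ℝ) → ℝ} (h : IsState φ) (c : ℝ) : φ (fun _ => c) = c := by
  have h1 : (fun _ : Cfg => c) = c • (fun _ : Cfg => (1:ℝ)) := by funext η; simp
  rw [h1, h.smul, h.one, mul_one]

theorem IsState.smul' {φ : (Cfg → ℝ) → ℝ} (h : IsState φ) (c : ℝ) (g : Cfg → ℝ) :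
    φ (fun η => c * g η) = c * φ g := h.smul c g

theorem IsState.abs_le {φ : (Cfg → ℝ) → ℝ} (h : IsState φ) {g : Cfg → ℝ} {C : ℝ} (hg : ∀ η, |g η| ≤ C) :
    |φ g| ≤ C := by
  rw [_root_.abs_le]
  constructor
  · have := h.mono (g := fun _ => -C) (k := g) (fun η => (_root_.abs_le.1 (hg η)).1)
    rwa [h.const] at this
  · have := h.mono (g := g) (k := fun _ => C) (fun η => (_root_.abs_le.1 (hg η)).2)
    rwa [h.const] at this

/-- cylinder indicator: on the window `W` the infected set is `A` -/
noncomputable def cyl (W A : Finset ℤ) : Cfg → ℝ := fun η =>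
  if ∀ x ∈ W, (η x = true ↔ x ∈ A) then 1 else 0

theorem cyl_nonneg (W A : Finset ℤ) (η : Cfg) : 0 ≤ cyl W A η := by
  unfold cyl; split_ifs <;> norm_num

theorem cyl_le_one (W A : Finset ℤ) (η : Cfg) : cyl W A η ≤ 1 := by
  unfold cyl; split_ifs <;> norm_num

/-- splitting a cylinder at a new site -/
theorem cyl_split {W A : Finset ℤ} {y : ℤ} (hy : y ∉ W) (hA : y ∉ A) (η : Cfg) :
    cyl W A η = cyl (insert y W) A η + cyl (insert y W) (insert y A) η := by
  have hW : ∀ x ∈ W, x ≠ y := fun x hx h => hy (h ▸ hx)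
  unfold cyl
  by_cases h : ∀ x ∈ W, (η x = true ↔ x ∈ A)
  · rw [if_pos h]
    by_cases hη : η y = true
    · rw [if_neg, if_pos]
      · ring
      · intro x hx
        rcases Finset.mem_insert.1 hx with rfl | hx
        · simp [hη]
        · rw [h x hx, Finset.mem_insert]
          constructor
          · exact fun h => Or.inr h
          · rintro (h' | h')
            · exact absurd h' (hW x hx)
            · exact h'
      · intro h'
        exact hA ((h' y (Finset.mem_insert_self _ _)).1 hη)
    · rw [if_pos, if_neg]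
      · ring
      · intro h'
        exact hη ((h' y (Finset.mem_insert_self _ _)).2 (Finset.mem_insert_self _ _))
      · intro x hx
        rcases Finset.mem_insert.1 hx with rfl | hx
        · simp [hη, hA]
        · exact h x hx
  · rw [if_neg h, if_neg, if_neg]
    · ring
    · intro h'
      apply h
      intro x hx
      rw [h' x (Finset.mem_insert_of_mem hx), Finset.mem_insert]
      constructor
      · rintro (h'' | h'')
        · exact absurd h'' (hW x hx)
        · exact h''
      · exact fun h => Or.inr h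
    · intro h'
      apply h
      intro x hx
      exact h' x (Finset.mem_insert_of_mem hx)

theorem sum_cyl (W : Finset ℤ) (η : Cfg) : ∑ A ∈ W.powerset, cyl W A η = 1 := by
  induction W using Finset.induction_on with
  | empty => simp [cyl]
  | insert y W hy ih =>
    rw [Finset.sum_powerset_insert hy, ← Finset.sum_add_distrib, ← ih]
    refine Finset.sum_congr rfl fun A hA => ?_
    have hyA : y ∉ A := fun h => hy (Finset.mem_powerset.1 hA h)
    rw [cyl_split hy hyA]

/-- marginalisation of cylinders -/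
theorem cyl_marg {U V : Finset ℤ} (h : Disjoint U V) {A : Finset ℤ} (hA : A ⊆ U) (η : Cfg) :
    cyl U A η = ∑ A₂ ∈ V.powerset, cyl (U ∪ V) (A ∪ A₂) η := by
  induction V using Finset.induction_on with
  | empty => simp
  | insert a V ha ih =>
    have hUV : Disjoint U V := by
      refine Finset.disjoint_left.2 fun x hx hx' => ?_
      exact Finset.disjoint_left.1 h hx (Finset.mem_insert_of_mem hx')
    have haU : a ∉ U := fun hx => Finset.disjoint_left.1 h hx (Finset.mem_insert_self _ _)
    have haUV : a ∉ U ∪ V := by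
      rw [Finset.mem_union, not_or]; exact ⟨haU, ha⟩
    rw [ih hUV, Finset.sum_powerset_insert ha, ← Finset.sum_add_distrib]
    refine Finset.sum_congr rfl fun A₂ hA₂ => ?_
    have haA : a ∉ A ∪ A₂ := by
      rw [Finset.mem_union, not_or]
      exact ⟨fun hh => haU (hA hh), fun hh => ha (Finset.mem_powerset.1 hA₂ hh)⟩
    rw [cyl_split haUV haA, Finset.union_insert, Finset.union_insert]

/-- cylinder probabilities -/
noncomputable def PP (φ : (Cfg → ℝ) → ℝ) (W A : Finset ℤ) : ℝ := φ (cyl W A)

theorem PP_nonneg {φ : (Cfg → ℝ) → ℝ} (h : IsState φ) (W A : Finset ℤ) : 0 ≤ PP φ W A :=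
  h.nonneg _ (cyl_nonneg W A)

theorem PP_marg {φ : (Cfg → ℝ) → ℝ} (hφ : IsState φ) {U V : Finset ℤ} (h : Disjoint U V)
    {A : Finset ℤ} (hA : A ⊆ U) : PP φ U A = marg (PP φ (U ∪ V)) V A := by
  unfold PP marg
  rw [← hφ.sum]
  congr 1
  funext η
  exact cyl_marg h hA η

theorem sum_PP {φ : (Cfg → ℝ) → ℝ} (hφ : IsState φ) (W : Finset ℤ) : ∑ A ∈ W.powerset, PP φ W A = 1 := by
  unfold PP
  rw [← hφ.sum, ← hφ.one]
  congr 1
  funext η
  exact sum_cyl W η

end Pool.Agent.LibFA
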