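import Pool.Agent.LibFA.Semigroup

open Filter Topology

namespace Pool.Agent.LibFA

/-- all sites at distance less than `k` from the origin are healthy -/
def hole (k : ℕ) (η : Cfg) : Prop := ∀ x : ℤ, x.natAbs < k → η x = false

theorem hole_zero (η : Cfg) : hole 0 η := fun _ hx => absurd hx (Nat.not_lt_zero _)

theorem hole_mono {k m : ℕ} (h : k ≤ m) {η : Cfg} (hm : hole m η) : hole k η :=
  fun x hx => hm x (lt_of_lt_of_le hx h)

open Classical in
/-- distance of the origin to the infected set, capped at `n` -/
noncomputable def uu (n : ℕ) (η : Cfg) : ℕ := Nat.findGreatest (fun k => hole k η) n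

theorem uu_le (n : ℕ) (η : Cfg) : uu n η ≤ n := by
  classical
  unfold uu
  exact Nat.findGreatest_le n

theorem hole_uu (n : ℕ) (η : Cfg) : hole (uu n η) η := by
  classical
  have := Nat.findGreatest_spec (P := fun k => hole k η) (Nat.zero_le n) (hole_zero η)
  exact this

theorem le_uu_iff {n k : ℕ} {η : Cfg} : k ≤ uu n η ↔ k ≤ n ∧ hole k η := by
  classical
  constructor
  · intro h
    exact ⟨h.trans (uu_le n η), hole_mono h (hole_uu n η)⟩
  · rintro ⟨h1, h2⟩
    exact Nat.le_findGreatest h1 h2

theorem exists_of_uu_lt {n : ℕ} {η : Cfg} (h : uu n η < n) : ∃ z : ℤ, z.natAbs = uu n η ∧ η z = true := by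
  by_contra hcon
  push Not at hcon
  have : uu n η + 1 ≤ uu n η := by
    rw [le_uu_iff]
    refine ⟨h, fun x hx => ?_⟩
    rcases Nat.lt_succ_iff_lt_or_eq.1 hx with h' | h'
    · exact hole_uu n η x h'
    · have := hcon x h'
      simpa using this
  omega

theorem uu_le_of_infected {n : ℕ} {η : Cfg} {z : ℤ} (hz : η z = true) : uu n η ≤ z.natAbs := by
  by_contra hcon
  rw [not_le] at hcon
  have := hole_uu n η z hcon
  rw [hz] at this
  exact absurd this (by simp)

/-- two configurations agreeing at distance less than `n` have the same distance -/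
theorem uu_congr {n : ℕ} {η ζ : Cfg} (h : ∀ x : ℤ, x.natAbs < n → η x = ζ x) : uu n η = uu n ζ := by
  have key : ∀ {η ζ : Cfg}, (∀ x : ℤ, x.natAbs < n → η x = ζ x) → uu n η ≤ uu n ζ := by
    intro η ζ h
    rw [le_uu_iff]
    refine ⟨uu_le n η, fun x hx => ?_⟩
    rw [← h x (lt_of_lt_of_le hx (uu_le n η))]
    exact hole_uu n η x hx
  exact le_antisymm (key h) (key fun x hx => (h x hx).symm)

/-- effect of infecting a site next to an infected one -/
theorem uu_upd_true {n : ℕ} {η : Cfg} {x : ℤ} (hc : η (x - 1) = true ∨ η (x + 1) = true) :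
    uu n (Function.update η x true) = uu n η ∨
      (x.natAbs + 1 = uu n η ∧ uu n (Function.update η x true) + 1 = uu n η) := by
  set u := uu n η with hu
  have hx : u ≤ x.natAbs + 1 := by
    rcases hc with h | h
    · have := uu_le_of_infected (n := n) h
      omega
    · have := uu_le_of_infected (n := n) h
      omega
  have hle : uu n (Function.update η x true) ≤ u := by
    rw [hu, le_uu_iff]
    refine ⟨uu_le _ _, fun z hz => ?_⟩
    have := hole_uu n (Function.update η x true) z hz
    by_cases hzx : z = x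
    · subst hzx; simp at this
    · rwa [Function.update_of_ne hzx] at this
  rcases Nat.lt_or_ge x.natAbs u with h | h
  · right
    have hxu : x.natAbs + 1 = u := by omega
    refine ⟨hxu, ?_⟩
    have h2 : uu n (Function.update η x true) ≤ x.natAbs := uu_le_of_infected (by simp)
    have h3 : x.natAbs ≤ uu n (Function.update η x true) := by
      rw [le_uu_iff]
      refine ⟨by have := uu_le n η; omega, fun z hz => ?_⟩
      have hzx : z ≠ x := by rintro rfl; omega
      rw [Function.update_of_ne hzx]
      exact hole_uu n η z (by omega)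
    omega
  · left
    refine le_antisymm hle ?_
    rw [le_uu_iff]
    refine ⟨uu_le _ _, fun z hz => ?_⟩
    have hzx : z ≠ x := by rintro rfl; omega
    rw [Function.update_of_ne hzx]
    exact hole_uu n η z hz

/-- effect of healing a site next to an infected one -/
theorem uu_upd_false {n : ℕ} {η : Cfg} {x : ℤ} (hc : η (x - 1) = true ∨ η (x + 1) = true) :
    uu n (Function.update η x false) = uu n η ∨
      (x.natAbs = uu n η ∧ uu n (Function.update η x false) = uu n η + 1) := by
  set u := uu n η with hu
  have hge : u ≤ uu n (Function.update η x false) := by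
    rw [le_uu_iff]
    refine ⟨uu_le _ _, fun z hz => ?_⟩
    by_cases hzx : z = x
    · subst hzx; simp
    · rw [Function.update_of_ne hzx]; exact hole_uu n η z hz
  rcases Nat.lt_or_ge u n with h | h
  · obtain ⟨z, hz1, hz2⟩ := exists_of_uu_lt (n := n) (η := η) h
    by_cases hzx : z = x
    · subst hzx
      have hy : uu n (Function.update η z false) ≤ u + 1 := by
        rcases hc with h' | h'
        · have : uu n (Function.update η z false) ≤ (z - 1).natAbs :=
            uu_le_of_infected (by rw [Function.update_of_ne (by omega)]; exact h')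
          omega
        · have : uu n (Function.update η z false) ≤ (z + 1).natAbs :=
            uu_le_of_infected (by rw [Function.update_of_ne (by omega)]; exact h')
          omega
      omega
    · left
      have : uu n (Function.update η x false) ≤ z.natAbs :=
        uu_le_of_infected (by rw [Function.update_of_ne hzx]; exact hz2)
      omega
  · left
    have := uu_le n (Function.update η x false)
    omega

/-- bound on the generator acting on functions of the distance -/
theorem gen_uu_le {q : ℝ} (h0 : 0 ≤ q) (h1 : q ≤ 1) (L n : ℕ) (ψ : ℕ → ℝ) (c : ℝ)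
    (hψ : ∀ k, 0 ≤ c * ψ k) (hup : ∀ k, ψ (k + 1) - ψ k ≤ c * ψ k)
    (hdown : ∀ k, ψ k - ψ (k + 1) ≤ c * ψ (k + 1)) (η : Cfg) :
    gen q L (fun ζ => ψ (uu n ζ)) η ≤ 4 * c * ψ (uu n η) := by
  set u := uu n η with hu
  have hpt : ∀ x ∈ Finset.Icc (-(L:ℤ)) (L:ℤ), KK q x (fun ζ => ψ (uu n ζ)) η - ψ u ≤
      (if x ∈ ({(u:ℤ), -(u:ℤ), (u:ℤ) - 1, -((u:ℤ) - 1)} : Finset ℤ) then c * ψ u else 0) := by
    intro x _
    unfold KK
    split_ifs with hc hx hx
    · -- legal and special
      have t1 : ψ (uu n (Function.update η x true)) - ψ u ≤ c * ψ u := by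
        rcases uu_upd_true (n := n) hc with h | ⟨_, h⟩
        · rw [h]; have := hψ u; linarith
        · have := hdown (uu n (Function.update η x true))
          rw [h] at this
          exact this
      have t2 : ψ (uu n (Function.update η x false)) - ψ u ≤ c * ψ u := by
        rcases uu_upd_false (n := n) hc with h | ⟨_, h⟩
        · rw [h]; have := hψ u; linarith
        · rw [h]; exact hup _
      have h2 : 0 ≤ 1 - q := by linarith
      nlinarith
    · have t1 : uu n (Function.update η x true) = u := by
        rcases uu_upd_true (n := n) hc with h | ⟨h, _⟩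
        · exact h
        · exfalso; apply hx
          simp only [Finset.mem_insert, Finset.mem_singleton]
          rw [← hu] at h
          omega
      have t2 : uu n (Function.update η x false) = u := by
        rcases uu_upd_false (n := n) hc with h | ⟨h, _⟩
        · exact h
        · exfalso; apply hx
          simp only [Finset.mem_insert, Finset.mem_singleton]
          rw [← hu] at h
          omega
      simp only [t1, t2]
      linarith
    · have := hψ u; linarith
    · linarith
  unfold gen
  refine (Finset.sum_le_sum hpt).trans ?_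
  rw [← Finset.sum_filter, Finset.sum_const, nsmul_eq_mul]
  have hcard : ((Finset.Icc (-(L:ℤ)) (L:ℤ)).filter
      (fun x => x ∈ ({(u:ℤ), -(u:ℤ), (u:ℤ) - 1, -((u:ℤ) - 1)} : Finset ℤ))).card ≤ 4 := by
    refine (Finset.card_le_card (t := ({(u:ℤ), -(u:ℤ), (u:ℤ) - 1, -((u:ℤ) - 1)} : Finset ℤ)) ?_).trans
      Finset.card_le_four
    intro x hx
    exact (Finset.mem_filter.1 hx).2
  have hcard' : (((Finset.Icc (-(L:ℤ)) (L:ℤ)).filter
      (fun x => x ∈ ({(u:ℤ), -(u:ℤ), (u:ℤ) - 1, -((u:ℤ) - 1)} : Finset ℤ))).card : ℝ) ≤ 4 := by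
    exact_mod_cast hcard
  have := mul_le_mul_of_nonneg_right hcard' (hψ u)
  linarith

/-- exponential moment bound, centred -/
theorem SS_exp_abs_le {q : ℝ} (h0 : 0 ≤ q) (h1 : q ≤ 1) (L n : ℕ) {θ : ℝ} (hθ : 0 ≤ θ) (c : ℝ)
    {t : ℝ} (ht : 0 ≤ t) (η : Cfg) :
    SS q L t (fun ζ => Real.exp (θ * |(uu n ζ : ℝ) - c|)) η ≤
      Real.exp (4 * (Real.exp θ - 1) * t) * Real.exp (θ * |(uu n η : ℝ) - c|) := by
  have hc : 0 ≤ Real.exp θ - 1 := by
    have := Real.add_one_le_exp θ
    linarith
  have key : ∀ a b : ℝ, |a - b| ≤ 1 → Real.exp (θ * |a - c|) - Real.exp (θ * |b - c|) ≤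
      (Real.exp θ - 1) * Real.exp (θ * |b - c|) := by
    intro a b hab
    have h2 : |a - c| ≤ |b - c| + 1 := by
      have := abs_sub_le a b c
      linarith
    have h3 : Real.exp (θ * |a - c|) ≤ Real.exp θ * Real.exp (θ * |b - c|) := by
      rw [← Real.exp_add, Real.exp_le_exp]
      nlinarith
    linarith
  refine SS_growth h0 h1 L (fun ζ => ?_) ht η
  refine gen_uu_le h0 h1 L n (fun k : ℕ => Real.exp (θ * |(k : ℝ) - c|)) (Real.exp θ - 1) ?_ ?_ ?_ ζ
  · intro k; exact mul_nonneg hc (Real.exp_pos _).le
  · intro k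
    exact key _ _ (by push_cast; rw [add_sub_cancel_left]; simp)
  · intro k
    exact key _ _ (by push_cast; rw [sub_add_cancel_left]; simp)

/-- exponential moment bound -/
theorem SS_exp_le {q : ℝ} (h0 : 0 ≤ q) (h1 : q ≤ 1) (L n : ℕ) {θ : ℝ} (hθ : 0 ≤ θ)
    {t : ℝ} (ht : 0 ≤ t) (η : Cfg) :
    SS q L t (fun ζ => Real.exp (θ * (uu n ζ : ℝ))) η ≤
      Real.exp (4 * (Real.exp θ - 1) * t) * Real.exp (θ * (uu n η : ℝ)) := by
  have := SS_exp_abs_le h0 h1 L n hθ 0 ht η
  simpa using this

end Pool.Agent.LibFA
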