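import Pool.Agent.LibFA.Moment

open Filter Topology

namespace Pool.Agent.LibFA

theorem phi_le {q : ℝ} (h0 : 0 ≤ q) (h1 : q ≤ 1) (L : ℕ) (η : Cfg) (n : ℕ) {ε t : ℝ}
    (hε0 : 0 ≤ ε) (ht : 0 ≤ t) {g : Cfg → ℝ} {B : ℝ} (hg0 : ∀ ζ, 0 ≤ g ζ)
    (hgB : ∀ ζ, g ζ ≤ B) : phi q L η n ε t g ≤ SS q L t g η + ε * B := by
  unfold phi
  have h2 := SS_nonneg h0 h1 L ht hg0 η
  have h3 : PiS q n η g ≤ B := by
    have hS := isState_PiS h0 h1 n η
    have := hS.mono (g := g) (k := fun _ => B) hgB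
    rwa [hS.const] at this
  have h4 := mul_le_mul_of_nonneg_left h3 hε0
  have h5 := mul_nonneg hε0 h2
  nlinarith

theorem drift_core {q : ℝ} (h0 : 0 < q) (h1 : q < 1) {m w : ℕ} (hwm : w = 2 * m + 1)
    (hZ : 3 ≤ (1 + q / (1 - q)) ^ w) {d κ C : ℝ} (hd : d = q ^ 3 / 128) (hκd : κ = d / 24)
    (hC : 0 < C) (hCB : CB q w ≤ C) {a δ T K s : ℝ} (ha0 : 0 ≤ a) (ha5 : a ≤ 5) (hδ : 0 < δ)
    (hT : 1 ≤ T) (hs0 : 0 ≤ s) (hsT : s ≤ T) (L : ℕ) (η : Cfg)
    (hG : ∀ t, 0 ≤ t → t ≤ T →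
      SS q L t (fun ζ => (max (UU L ζ - UU L η - a * t) 0) ^ 2) η ≤ (t + 1) * K)
    {j Q : ℕ} (hj : 0 < j) (hwj : (w:ℝ) * j ≤ δ * T)
    (hQ : Real.exp (7 * T) * Real.exp (-(Q:ℝ)) ≤ d / 16) (hu1 : Q + 1 ≤ uu (L + 1) η)
    (hu2 : UU L η + (5 + δ) * T + 2 * w + w * j + 1 ≤ L)
    (hnear : UU L η + (a - δ) * T ≤ SS q L T (UU L) η)
    (hp1 : (T + 1) * K / (δ * T) ^ 2 ≤ 1 / 16)
    (hrem : (1 + κ) / κ * ((1 + κ)⁻¹ ^ j * (4 * ((9 + 2 * δ) * T + 2 * w + 2))) ≤ κ) :
    (T - s) * (3 * d / 8) ≤ 2 * (ll q + 1) * (4 * δ * T + 2 * w + 2 + (T + 1) * K / (4 * (δ * T))) +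
      Real.log ((1 - Real.exp (-(2 * 1)))⁻¹) + 3 * κ * C +
      Real.exp (-(s / C)) * (2 * |Real.log (q / (1 - q))| * ((5 + 2 * δ) * T + 2 * w + 2)) := by
  have hw : 0 < w := by omega
  have hwR : (0:ℝ) < w := by exact_mod_cast hw
  have hd0 : 0 < d := by rw [hd]; positivity
  have hd1 : d ≤ 1 := by
    rw [hd]
    have : q ^ 3 ≤ 1 := pow_le_one₀ h0.le h1.le
    linarith
  have hκ : 0 < κ := by rw [hκd]; positivity
  have hδT : 0 < δ * T := by positivity
  set x := UU L η + (a + δ) * T with hx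
  have hx0 : 0 ≤ x := by
    have := UU_nonneg L η
    positivity
  set b := ⌈x / w⌉₊ with hb
  have hb1 : x ≤ w * b := by
    have := Nat.le_ceil (x / w)
    rw [div_le_iff₀ hwR] at this
    linarith
  have hb2 : (w:ℝ) * b ≤ x + w := by
    have := (Nat.ceil_lt_add_one (div_nonneg hx0 hwR.le)).le
    have h2 : (b:ℝ) * w ≤ (x / w + 1) * w := mul_le_mul_of_nonneg_right this hwR.le
    have h3 : (x / w + 1) * w = x + w := by field_simp
    linarith
  set M₀ := w * b + m with hM₀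
  have hM₀1 : x ≤ (M₀:ℝ) := by
    rw [hM₀]; push_cast
    have : (0:ℝ) ≤ m := Nat.cast_nonneg _
    linarith
  have hM₀2 : (M₀:ℝ) ≤ x + 2 * w := by
    rw [hM₀]; push_cast
    have : (m:ℝ) ≤ w := by exact_mod_cast (by omega : m ≤ w)
    linarith
  have hUη : (Q:ℝ) + 1 ≤ UU L η := by unfold UU; exact_mod_cast hu1
  have hQ0 : (0:ℝ) ≤ Q := Nat.cast_nonneg _
  have haT : a * T ≤ 5 * T := mul_le_mul_of_nonneg_right ha5 (by linarith)
  have haT0 : 0 ≤ a * T := by positivity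
  have hM0pos : 0 < M₀ := by
    have h2 : (0:ℝ) < M₀ := by
      have : (a + δ) * T = a * T + δ * T := by ring
      linarith
    exact_mod_cast h2
  have hi : 2 * M₀ + 1 = (2 * b + 1) * w := by
    rw [hM₀, hwm]; ring
  set MJ := M₀ + w * j with hMJ
  have hMJR : (MJ:ℝ) = M₀ + w * j := by rw [hMJ]; push_cast; ring
  have hMJL : MJ ≤ L := by
    have h2 : (MJ:ℝ) ≤ L := by
      rw [hMJR]
      have : (a + δ) * T = a * T + δ * T := by ring
      have : (5 + δ) * T = 5 * T + δ * T := by ring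
      linarith
    exact_mod_cast h2
  set ε := d / (100 * ((MJ:ℝ) + 1)) with hε
  have hMJ0 : (0:ℝ) ≤ MJ := Nat.cast_nonneg _
  have hε0 : 0 < ε := by positivity
  have hε2 : ε * ((MJ:ℝ) + 1) = d / 100 := by rw [hε]; field_simp
  have hε3 : ε ≤ d / 100 := by nlinarith
  have hε1 : ε ≤ 1 := by linarith
  have hXf : ∀ ζ, Xf MJ ζ = max ((MJ:ℝ) + 1 - UU L ζ) 0 := fun ζ => Xf_eq (by omega) ζ
  have hMJ1 : (MJ:ℝ) + 1 - UU L η ≤ (5 + 2 * δ) * T + 2 * w + 1 := by
    have e1 : (a + δ) * T = a * T + δ * T := by ring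
    have e2 : (5 + 2 * δ) * T = 5 * T + δ * T + δ * T := by ring
    rw [hMJR, e2]
    linarith
  have hB0 : Xf MJ η ≤ (5 + 2 * δ) * T + 2 * w + 1 := by
    rw [hXf]
    exact max_le hMJ1 (by positivity)
  have hphiX : ∀ t, 0 ≤ t → phi q L η MJ ε t (Xf MJ) ≤ SS q L t (Xf MJ) η + 1 := by
    intro t ht
    have := phi_le h0.le h1.le L η MJ hε0.le ht (Xf_nonneg MJ) (Xf_le MJ)
    linarith
  have hremT : ∀ t, 0 ≤ t → t ≤ T →
      (1 + κ) / κ * ((1 + κ)⁻¹ ^ j * (4 * phi q L η MJ ε t (Xf (M₀ + w * j)))) ≤ κ := by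
    intro t ht htT
    refine le_trans ?_ hrem
    refine mul_le_mul_of_nonneg_left ?_ (by positivity)
    refine mul_le_mul_of_nonneg_left ?_ (by positivity)
    refine mul_le_mul_of_nonneg_left ?_ (by positivity)
    have h2 := hphiX t ht
    have h3 := SS_Xf_le h0.le h1.le L (M := MJ) ht η
    have e2 : (9 + 2 * δ) * T = (5 + 2 * δ) * T + 4 * T := by ring
    rw [e2]
    linarith
  have hdT : ∀ t, 0 ≤ t → t ≤ T → d / 2 ≤ DL q (PP (phi q L η MJ ε t) (WW M₀)) (WW M₀) := by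
    intro t ht htT
    have hst := isState_phi h0.le h1.le L η MJ hε0.le hε1 ht
    set R' := uu (L + 1) η - Q with hR'
    have hR'1 : 1 ≤ R' := by omega
    have hedge : q ^ 3 / 128 * phi q L η MJ ε t
        (fun ζ => if R' ≤ uu (M₀ + 1) ζ ∧ uu (M₀ + 1) ζ < M₀ then 1 else 0) ≤
      DL q (PP (phi q L η MJ ε t) (WW M₀)) (WW M₀) +
      phi q L η MJ ε t (fun ζ => if uu (M₀ + 1) ζ ≤ R' then 1 else 0) :=
      edge_total h0 h1 hst R' M₀ hR'1
    have hcap : ∀ ζ, uu (M₀ + 1) ζ = min (M₀ + 1) (uu (L + 1) ζ) := fun ζ => uu_min (by omega) ζ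
    have hR'M : R' < M₀ + 1 := by
      have h2 : UU L η ≤ M₀ := by
        have : (a + δ) * T = a * T + δ * T := by ring
        linarith
      have h3 : uu (L + 1) η ≤ M₀ := by unfold UU at h2; exact_mod_cast h2
      omega
    set gA : Cfg → ℝ := fun ζ => if uu (L + 1) ζ ≤ R' then 1 else 0 with hgA
    set gB : Cfg → ℝ := fun ζ => if M₀ ≤ uu (L + 1) ζ then 1 else 0 with hgB
    have hA1 : phi q L η MJ ε t (fun ζ => if uu (M₀ + 1) ζ ≤ R' then 1 else 0) ≤
        phi q L η MJ ε t gA := by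
      refine hst.mono fun ζ => ?_
      simp only [hgA]
      rw [hcap ζ]
      by_cases h : uu (L + 1) ζ ≤ R'
      · rw [if_pos h]; split_ifs <;> norm_num
      · rw [if_neg h, if_neg]
        rw [min_le_iff]
        omega
    have hA2 : 1 - phi q L η MJ ε t gA - phi q L η MJ ε t gB ≤ phi q L η MJ ε t
        (fun ζ => if R' ≤ uu (M₀ + 1) ζ ∧ uu (M₀ + 1) ζ < M₀ then 1 else 0) := by
      have e : phi q L η MJ ε t (((fun _ => 1) - gA) - gB) =
          1 - phi q L η MJ ε t gA - phi q L η MJ ε t gB := by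
        rw [hst.sub, hst.sub, hst.const]
      rw [← e]
      refine hst.mono fun ζ => ?_
      simp only [Pi.sub_apply, hgA, hgB]
      by_cases h : uu (L + 1) ζ ≤ R'
      · rw [if_pos h]
        split_ifs <;> norm_num
      · by_cases h' : M₀ ≤ uu (L + 1) ζ
        · rw [if_neg h, if_pos h']
          split_ifs <;> norm_num
        · rw [if_neg h, if_neg h', if_pos]
          · norm_num
          · rw [hcap ζ]
            constructor
            · rw [le_min_iff]; omega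
            · rw [min_lt_iff]; omega
    have hA3 : phi q L η MJ ε t gA ≤ d / 8 := by
      have h2 := phi_le h0.le h1.le L η MJ hε0.le ht (g := gA) (B := 1)
        (fun ζ => by simp only [hgA]; split_ifs <;> norm_num)
        (fun ζ => by simp only [hgA]; split_ifs <;> norm_num)
      have h3 : ∀ ζ, gA ζ ≤ Real.exp (-(Q:ℝ)) * Real.exp |UU L ζ - UU L η| := by
        intro ζ
        simp only [hgA]
        split_ifs with h
        · rw [← Real.exp_add]
          apply Real.one_le_exp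
          have h4 : (uu (L + 1) ζ : ℝ) + Q ≤ uu (L + 1) η := by exact_mod_cast (by omega)
          have h5 := neg_abs_le (UU L ζ - UU L η)
          unfold UU at h5 ⊢
          linarith
        · positivity
      have h4 := SS_mono h0.le h1.le L ht h3 η
      have h5 : (fun ζ => Real.exp (-(Q:ℝ)) * Real.exp |UU L ζ - UU L η|) =
          Real.exp (-(Q:ℝ)) • (fun ζ => Real.exp |UU L ζ - UU L η|) := rfl
      rw [h5, SS_lin_smul] at h4
      simp only [Pi.smul_apply, smul_eq_mul] at h4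
      have h6 := SS_exp1 h0.le h1.le L ht η
      have h7 : Real.exp (7 * t) ≤ Real.exp (7 * T) := Real.exp_le_exp.2 (by linarith)
      have h8 := mul_le_mul_of_nonneg_left (h6.trans h7) (Real.exp_pos (-(Q:ℝ))).le
      linarith
    have hA4 : phi q L η MJ ε t gB ≤ 1 / 8 := by
      have h2 := phi_le h0.le h1.le L η MJ hε0.le ht (g := gB) (B := 1)
        (fun ζ => by simp only [hgB]; split_ifs <;> norm_num)
        (fun ζ => by simp only [hgB]; split_ifs <;> norm_num)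
      have h3 : ∀ ζ, gB ζ ≤ ((δ * T) ^ 2)⁻¹ * (max (UU L ζ - UU L η - a * t) 0) ^ 2 := by
        intro ζ
        simp only [hgB]
        split_ifs with h
        · have h4 : (M₀:ℝ) ≤ UU L ζ := by unfold UU; exact_mod_cast h
          have h5 : δ * T ≤ max (UU L ζ - UU L η - a * t) 0 := by
            apply le_max_of_le_left
            have e1 : (a + δ) * T = a * T + δ * T := by ring
            have h6 : a * t ≤ a * T := mul_le_mul_of_nonneg_left htT ha0
            linarith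
          have h7 := pow_le_pow_left₀ hδT.le h5 2
          rw [inv_mul_eq_div, le_div_iff₀ (by positivity)]
          linarith
        · positivity
      have h4 := SS_mono h0.le h1.le L ht h3 η
      have h5 : (fun ζ => ((δ * T) ^ 2)⁻¹ * (max (UU L ζ - UU L η - a * t) 0) ^ 2) =
          (((δ * T) ^ 2)⁻¹) • (fun ζ => (max (UU L ζ - UU L η - a * t) 0) ^ 2) := rfl
      rw [h5, SS_lin_smul] at h4
      simp only [Pi.smul_apply, smul_eq_mul] at h4
      have h6 := hG t ht htT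
      have hK0 : 0 ≤ K := by
        have h7 := SS_nonneg h0.le h1.le L ht
          (g := fun ζ => (max (UU L ζ - UU L η - a * t) 0) ^ 2) (fun ζ => sq_nonneg _) η
        have h8 : 0 ≤ (t + 1) * K := h7.trans h6
        exact nonneg_of_mul_nonneg_right h8 (by linarith)
      have h7 : (t + 1) * K ≤ (T + 1) * K := mul_le_mul_of_nonneg_right (by linarith) hK0
      have h8 := mul_le_mul_of_nonneg_left (h6.trans h7) (show 0 ≤ ((δ * T) ^ 2)⁻¹ by positivity)
      rw [inv_mul_eq_div ((δ * T) ^ 2) ((T + 1) * K)] at h8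
      linarith
    rw [← hd] at hedge
    have h9 : d * (1 - d / 8 - 1 / 8) ≤ d * phi q L η MJ ε t
        (fun ζ => if R' ≤ uu (M₀ + 1) ζ ∧ uu (M₀ + 1) ζ < M₀ then 1 else 0) :=
      mul_le_mul_of_nonneg_left (by linarith) hd0.le
    nlinarith
  have hkey := key_ineq h0 h1 hw hZ hκ L η MJ hε0 hε1 hM0pos hj hi hMJL le_rfl hs0 hsT hC hCB
    hremT hdT
  -- bounds for the two expectations
  have hX0 : phi q L η MJ ε 0 (Xf MJ) ≤ (5 + 2 * δ) * T + 2 * w + 2 := by
    have := hphiX 0 le_rfl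
    rw [SS_zero] at this
    linarith
  have hT0 : 0 < T := by linarith
  have hXT : phi q L η MJ ε T (Xf MJ) ≤ 4 * δ * T + 2 * w + 2 + (T + 1) * K / (4 * (δ * T)) := by
    have h2 := hphiX T hT0.le
    set B := (MJ:ℝ) + 1 - UU L η - a * T with hBdef
    have hB1 : B ≤ 2 * δ * T + 2 * w + 1 := by
      rw [hBdef, hMJR]
      have e1 : (a + δ) * T = a * T + δ * T := by ring
      have e2 : 2 * δ * T = δ * T + δ * T := by ring
      rw [e2]
      linarith
    have hB2 : 0 ≤ B := by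
      rw [hBdef, hMJR]
      have e1 : (a + δ) * T = a * T + δ * T := by ring
      have : (0:ℝ) ≤ w * j := by positivity
      linarith
    have hpt : ∀ ζ, Xf MJ ζ ≤ ((B + δ * T + UU L η + a * T) +
        (4 * (δ * T))⁻¹ * (max (UU L ζ - UU L η - a * T) 0) ^ 2) + (-1) * UU L ζ := by
      intro ζ
      rw [hXf]
      set y := UU L ζ - UU L η - a * T with hy
      have h3 : max y 0 ≤ (4 * (δ * T))⁻¹ * (max y 0) ^ 2 + δ * T := by
        rw [inv_mul_eq_div, div_add' _ _ _ (by positivity), le_div_iff₀ (by positivity)]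
        nlinarith [sq_nonneg (max y 0 - 2 * (δ * T))]
      have h4 : y ≤ max y 0 := le_max_left _ _
      have h5 : 0 ≤ max y 0 := le_max_right _ _
      apply max_le
      · have : (MJ:ℝ) + 1 - UU L ζ = B - y := by rw [hBdef, hy]; ring
        rw [this]
        have : UU L ζ = y + UU L η + a * T := by rw [hy]; ring
        rw [this]
        linarith
      · have : UU L ζ = y + UU L η + a * T := by rw [hy]; ring
        rw [this]
        linarith
    have h3 := SS_mono h0.le h1.le L hT0.le hpt η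
    have h4 : (fun ζ => ((B + δ * T + UU L η + a * T) +
        (4 * (δ * T))⁻¹ * (max (UU L ζ - UU L η - a * T) 0) ^ 2) + (-1) * UU L ζ) =
        ((fun _ => B + δ * T + UU L η + a * T) +
          ((4 * (δ * T))⁻¹) • (fun ζ => (max (UU L ζ - UU L η - a * T) 0) ^ 2)) + (-1:ℝ) • UU L := by
      funext ζ
      simp only [Pi.add_apply, Pi.smul_apply, smul_eq_mul]
    rw [h4, SS_lin_add, SS_lin_add, SS_lin_smul, SS_lin_smul, SS_const] at h3
    simp only [Pi.add_apply, Pi.smul_apply, smul_eq_mul] at h3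
    have h5 := mul_le_mul_of_nonneg_left (hG T hT0.le le_rfl) (show 0 ≤ (4 * (δ * T))⁻¹ by positivity)
    rw [inv_mul_eq_div (4 * (δ * T)) ((T + 1) * K)] at h5
    have e3 : (a - δ) * T = a * T - δ * T := by ring
    have e4 : 4 * δ * T = 4 * (δ * T) := by ring
    have e5 : 2 * δ * T = 2 * (δ * T) := by ring
    rw [e4]
    rw [e5] at hB1
    linarith
  have hll := ll_pos h0 h1
  have h20 := mul_le_mul_of_nonneg_left hXT (show 0 ≤ 2 * (ll q + 1) by positivity)
  have h21 : Real.exp (-(s / C)) * (2 * |Real.log (q / (1 - q))| * phi q L η MJ ε 0 (Xf MJ)) ≤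
      Real.exp (-(s / C)) * (2 * |Real.log (q / (1 - q))| * ((5 + 2 * δ) * T + 2 * w + 2)) := by
    refine mul_le_mul_of_nonneg_left ?_ (Real.exp_pos _).le
    exact mul_le_mul_of_nonneg_left hX0 (by positivity)
  have h22 : (T - s) * (d / 2 - 3 * κ) = (T - s) * (3 * d / 8) := by rw [hκd]; ring
  rw [h22] at hkey
  linarith

/-- uniform negative drift of the distance, away from the origin and from the boundary -/
theorem drift {q : ℝ} (h0 : 0 < q) (h1 : q < 1) : ∃ S : ℝ, 1 ≤ S ∧ ∃ c : ℝ, 0 < c ∧ ∃ R : ℕ,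
    ∀ (L : ℕ) (η : Cfg), R ≤ uu (L + 1) η → uu (L + 1) η + R ≤ L →
      SS q L S (UU L) η ≤ UU L η - c := by
  by_contra hcon
  push Not at hcon
  set P : ℝ → Prop := fun a => ∃ S : ℝ, 1 ≤ S ∧ ∃ R : ℕ, ∀ (L : ℕ) (η : Cfg),
    R ≤ uu (L + 1) η → uu (L + 1) η + R ≤ L → SS q L S (UU L) η ≤ UU L η + a * S with hP
  have hPneg : ∀ a, P a → 0 ≤ a := by
    rintro a ⟨S, hS, R, h⟩
    by_contra ha
    rw [not_le] at ha
    have hS0 : 0 < S := by linarith
    obtain ⟨L, η, h2, h3, h4⟩ := hcon S hS (-(a * S)) (by nlinarith) R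
    have h5 := h L η h2 h3
    linarith
  have hP4 : P 4 := by
    refine ⟨1, le_rfl, 0, fun L η _ _ => ?_⟩
    exact SS_UU_le h0.le h1.le L zero_le_one η
  set v := sInf {a | P a} with hv
  have hbdd : BddBelow {a | P a} := ⟨0, fun a ha => hPneg a ha⟩
  have hne : {a | P a}.Nonempty := ⟨4, hP4⟩
  have hv0 : 0 ≤ v := le_csInf hne fun a ha => hPneg a ha
  have hv4 : v ≤ 4 := csInf_le hbdd hP4
  -- parameters
  have hρ : 0 < q / (1 - q) := div_pos h0 (by linarith)
  obtain ⟨m, hm⟩ : ∃ m : ℕ, 3 ≤ (1 + q / (1 - q)) ^ m := by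
    have := (tendsto_pow_atTop_atTop_of_one_lt (r := 1 + q / (1 - q)) (by linarith)).eventually_ge_atTop 3
    obtain ⟨m, hm⟩ := this.exists
    exact ⟨m, hm⟩
  set w := 2 * m + 1 with hwm
  have hZ : 3 ≤ (1 + q / (1 - q)) ^ w :=
    hm.trans (pow_le_pow_right₀ (by linarith) (by omega))
  set d := q ^ 3 / 128 with hd
  have hd0 : 0 < d := by positivity
  have hd1 : d ≤ 1 := by
    rw [hd]
    have : q ^ 3 ≤ 1 := pow_le_one₀ h0.le h1.le
    linarith
  set κ := d / 24 with hκ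
  have hκ0 : 0 < κ := by positivity
  set C := CB q w + 1 with hC
  have hCB : CB q w ≤ C := by linarith
  have hC0 : 0 < C := by have := CB_nonneg h0 h1 w; linarith
  have hll := ll_pos h0 h1
  set δ := d / (64 * (ll q + 1)) with hδ
  have hδ0 : 0 < δ := by positivity
  have hδd : 64 * (ll q + 1) * δ = d := by rw [hδ]; field_simp
  have hδ1 : δ ≤ 1 := by nlinarith
  -- near optimal pair
  obtain ⟨a, haP, hav⟩ : ∃ a, P a ∧ a < v + δ / 2 := by
    obtain ⟨a, ha1, ha2⟩ := exists_lt_of_csInf_lt hne (show sInf {a | P a} < v + δ / 2 by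
      rw [← hv]; linarith)
    exact ⟨a, ha1, ha2⟩
  have ha0 := hPneg a haP
  have ha5 : a ≤ 5 := by linarith
  obtain ⟨S, hS, R₁, hdrift⟩ := haP
  have hS0 : 0 < S := by linarith
  have hnotP : ¬ P (v - δ / 2) := by
    intro h
    have := csInf_le hbdd h
    rw [← hv] at this
    linarith
  have hnear : ∀ T : ℝ, 1 ≤ T → ∀ R : ℕ, ∃ (L : ℕ) (η : Cfg), R ≤ uu (L + 1) η ∧ uu (L + 1) η + R ≤ L ∧
      UU L η + (a - δ) * T ≤ SS q L T (UU L) η := by
    intro T hT R
    by_contra hc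
    push Not at hc
    apply hnotP
    refine ⟨T, hT, R, fun L η h2 h3 => ?_⟩
    have h4 := hc L η h2 h3
    have h5 : (a - δ) * T ≤ (v - δ / 2) * T := mul_le_mul_of_nonneg_right (by linarith) (by linarith)
    linarith
  set K := 4 * Real.exp (7 * S) + 50 * S ^ 2 + 1 with hK
  have hK0 : 0 < K := by positivity
  -- the number of windows versus time
  obtain ⟨N, hN⟩ := exists_nat_ge ((w:ℝ) / δ + 1)
  have hwR : (0:ℝ) ≤ w := Nat.cast_nonneg _
  have hN1 : (1:ℝ) ≤ N := by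
    have : 0 ≤ (w:ℝ) / δ := by positivity
    linarith
  have hwN : (w:ℝ) ≤ δ * N := by
    have h2 : (w:ℝ) / δ ≤ N := by linarith
    rw [div_le_iff₀ hδ0] at h2
    linarith
  -- initial relaxation time
  set lr := 2 * |Real.log (q / (1 - q))| with hlr
  have hlr0 : 0 ≤ lr := by positivity
  obtain ⟨s, hs0, hs⟩ : ∃ s : ℝ, 0 ≤ s ∧ Real.exp (-(s / C)) * lr ≤ d / 56 := by
    refine ⟨C * (Real.log (lr + 1) + Real.log (56 / d)), ?_, ?_⟩
    · have h2 : 0 ≤ Real.log (lr + 1) := Real.log_nonneg (by linarith)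
      have h3 : 0 ≤ Real.log (56 / d) := Real.log_nonneg (by rw [le_div_iff₀ hd0]; linarith)
      positivity
    · have e1 : -(C * (Real.log (lr + 1) + Real.log (56 / d)) / C) =
          -Real.log (lr + 1) + -Real.log (56 / d) := by field_simp; ring
      rw [e1, Real.exp_add, Real.exp_neg, Real.exp_neg, Real.exp_log (by linarith),
        Real.exp_log (by positivity)]
      have e2 : (lr + 1)⁻¹ * (56 / d)⁻¹ * lr = (lr / (lr + 1)) * (d / 56) := by
        field_simp
      rw [e2]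
      have h4 : lr / (lr + 1) ≤ 1 := by rw [div_le_one (by linarith)]; linarith
      nlinarith
  set K₃ := 2 * (ll q + 1) * (2 * w + 2 + K / (2 * δ)) + |Real.log ((1 - Real.exp (-(2 * 1)))⁻¹)| + 3 * κ * C +
      (d / 56) * (2 * w + 2) + s * (3 * d / 8) with hK₃
  -- eventual conditions
  have ev1 : ∀ᶠ j : ℕ in atTop, 0 < j := eventually_gt_atTop 0
  have hTt : Tendsto (fun j : ℕ => (N:ℝ) * j * S) atTop atTop := by
    have : Tendsto (fun j : ℕ => ((N:ℝ) * S) * (j:ℝ)) atTop atTop :=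
      Tendsto.const_mul_atTop (by positivity) tendsto_natCast_atTop_atTop
    refine this.congr fun j => by ring
  have ev2 := hTt.eventually_ge_atTop 1
  have ev3 := hTt.eventually_ge_atTop s
  have ev4 := hTt.eventually_ge_atTop (32 * K / δ ^ 2)
  have ev5 := hTt.eventually_gt_atTop (8 * K₃ / d)
  have ev6 : ∀ᶠ j : ℕ in atTop, (1 + κ) / κ * ((1 + κ)⁻¹ ^ j *
      (4 * ((9 + 2 * δ) * ((N:ℝ) * j * S) + 2 * w + 2))) < κ := by
    have hr0 : 0 ≤ (1 + κ)⁻¹ := by positivity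
    have hr1 : (1 + κ)⁻¹ < 1 := by
      rw [inv_lt_one₀ (by positivity)]; linarith
    have t1 := tendsto_self_mul_const_pow_of_lt_one hr0 hr1
    have t2 := tendsto_pow_atTop_nhds_zero_of_lt_one hr0 hr1
    have t3 := (t1.const_mul ((1 + κ) / κ * (4 * ((9 + 2 * δ) * (N * S))))).add
      (t2.const_mul ((1 + κ) / κ * (4 * (2 * w + 2))))
    simp only [mul_zero, add_zero] at t3
    have t4 := t3.eventually_lt_const hκ0
    refine t4.mono fun j hj => ?_
    refine lt_of_eq_of_lt ?_ hj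
    ring
  obtain ⟨j, hj0, hT1, hsT, hT4, hT5, hT6⟩ :=
    (ev1.and (ev2.and (ev3.and (ev4.and (ev5.and ev6))))).exists
  set T := (N:ℝ) * j * S with hTdef
  have hT0 : 0 < T := by linarith
  obtain ⟨R₀, hR₀⟩ := G_bound h0.le h1.le ha0 ha5 hS R₁ hdrift T
  obtain ⟨Q, hQ⟩ := exists_nat_ge (7 * T + Real.log (16 / d))
  obtain ⟨R₂, hR₂⟩ := exists_nat_ge ((5 + δ) * T + 2 * w + w * j + 1)
  set R := max (max R₀ (Q + 1)) R₂ with hR
  obtain ⟨L, η, hη1, hη2, hη3⟩ := hnear T hT1 R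
  have hRR₀ : R₀ ≤ R := (le_max_left _ _).trans (le_max_left _ _)
  have hRQ : Q + 1 ≤ R := (le_max_right _ _).trans (le_max_left _ _)
  have hRR₂ : R₂ ≤ R := le_max_right _ _
  have hcore := drift_core h0 h1 hwm hZ hd hκ hC0 hCB ha0 ha5 hδ0 hT1 hs0 hsT L η
    (hR₀ R hRR₀ L η hη1 hη2) (j := j) (Q := Q) hj0 (by
      have hj : (0:ℝ) ≤ j := Nat.cast_nonneg _
      calc (w:ℝ) * j ≤ (δ * N) * j := mul_le_mul_of_nonneg_right hwN hj
        _ = δ * (N * j * 1) := by ring
        _ ≤ δ * (N * j * S) := mul_le_mul_of_nonneg_left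
            (mul_le_mul_of_nonneg_left hS (by positivity)) hδ0.le) (by
      rw [← Real.exp_add]
      have e1 : d / 16 = Real.exp (-Real.log (16 / d)) := by
        rw [Real.exp_neg, Real.exp_log (by positivity), inv_div]
      rw [e1, Real.exp_le_exp]
      linarith) (by omega) (by
      have h2 : (uu (L + 1) η : ℝ) + R ≤ L := by exact_mod_cast hη2
      have h3 : (R₂:ℝ) ≤ R := by exact_mod_cast hRR₂
      unfold UU
      linarith) hη3 (by
      rw [div_le_iff₀ (by positivity)]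
      rw [div_le_iff₀ (by positivity)] at hT4
      have : (T + 1) * K ≤ 2 * T * K := mul_le_mul_of_nonneg_right (by linarith) hK0.le
      rw [mul_pow]
      nlinarith) hT6.le
  -- final contradiction
  have hA : (T + 1) * K / (4 * (δ * T)) ≤ K / (2 * δ) := by
    rw [div_le_div_iff₀ (by positivity) (by positivity)]
    have h2 : (T + 1) ≤ 2 * T := by linarith
    have h3 : 0 ≤ K * (2 * δ) := by positivity
    nlinarith
  have hB : 2 * (ll q + 1) * (4 * δ * T + 2 * w + 2 + (T + 1) * K / (4 * (δ * T))) ≤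
      d / 8 * T + 2 * (ll q + 1) * (2 * w + 2 + K / (2 * δ)) := by
    have h2 : 2 * (ll q + 1) * (4 * δ * T) = d / 8 * T := by
      rw [← hδd]; ring
    have h3 := mul_le_mul_of_nonneg_left hA (show 0 ≤ 2 * (ll q + 1) by positivity)
    linarith
  have hD : Real.exp (-(s / C)) * (2 * |Real.log (q / (1 - q))| * ((5 + 2 * δ) * T + 2 * w + 2)) ≤
      d / 8 * T + d / 56 * (2 * w + 2) := by
    rw [← hlr, ← mul_assoc]
    have h2 : (5 + 2 * δ) * T + 2 * w + 2 ≤ 7 * T + (2 * w + 2) := by nlinarith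
    have h3 : 0 ≤ (5 + 2 * δ) * T + 2 * w + 2 := by positivity
    calc _ ≤ d / 56 * ((5 + 2 * δ) * T + 2 * w + 2) := mul_le_mul_of_nonneg_right hs h3
      _ ≤ d / 56 * (7 * T + (2 * w + 2)) := mul_le_mul_of_nonneg_left h2 (by positivity)
      _ = _ := by ring
  have hE := le_abs_self (Real.log ((1 - Real.exp (-(2 * 1)))⁻¹))
  rw [div_lt_iff₀ hd0] at hT5
  have hF : (T - s) * (3 * d / 8) = T * (3 * d / 8) - s * (3 * d / 8) := by ring
  rw [hF] at hcore
  have hG : T * (3 * d / 8) ≤ d / 4 * T + K₃ := by rw [hK₃]; linarith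
  linarith

end Pool.Agent.LibFA
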