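import Pool.Agent.LibFA.Lower

open Filter Topology

namespace Pool.Agent.LibFA

/-- linear lower bound for a pair dissipation -/
theorem pair_lower {q : ℝ} (h0 : 0 ≤ q) (h1 : q ≤ 1) {φ : (Cfg → ℝ) → ℝ} (hφ : IsState φ)
    {W N : Finset ℤ} {x y : ℤ} (hx : x ∈ W) (hy : y ∈ W) (hN : N ⊆ W) {θ : ℝ} (hθ : 0 < θ) :
    (1 - θ) * ((1 - q) * PP φ (insert x (insert y N)) {x, y}) +
      (1 - 1 / θ) * (q * PP φ (insert x (insert y N)) {y}) ≤ eL q (PP φ W) W x y := by
  set U := insert x (insert y N) with hU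
  have hUW : U ⊆ W := Finset.insert_subset hx (Finset.insert_subset hy hN)
  have hd : Disjoint U (W \ U) := Finset.disjoint_sdiff
  have hUu : U ∪ (W \ U) = W := Finset.union_sdiff_of_subset hUW
  have e1 : PP φ U {x, y} = ∑ A ∈ (W \ U).powerset, PP φ W (insert x (insert y A)) := by
    rw [PP_marg hφ hd (A := {x, y}), hUu]
    · unfold marg
      refine Finset.sum_congr rfl fun A _ => ?_
      rw [Finset.insert_union, Finset.singleton_union]
    · intro z hz
      rw [Finset.mem_insert, Finset.mem_singleton] at hz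
      rw [hU, Finset.mem_insert, Finset.mem_insert]
      tauto
  have e2 : PP φ U {y} = ∑ A ∈ (W \ U).powerset, PP φ W (insert y A) := by
    rw [PP_marg hφ hd (A := {y}), hUu]
    · unfold marg
      refine Finset.sum_congr rfl fun A _ => ?_
      congr 1
    · intro z hz
      rw [Finset.mem_singleton] at hz
      rw [hU, Finset.mem_insert, Finset.mem_insert]
      tauto
  have hsub : (W \ U).powerset ⊆ ((W.erase x).erase y).powerset := by
    intro A hA
    rw [Finset.mem_powerset] at hA ⊢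
    intro z hz
    have := hA hz
    rw [Finset.mem_sdiff, hU, Finset.mem_insert, Finset.mem_insert, not_or, not_or] at this
    rw [Finset.mem_erase, Finset.mem_erase]
    exact ⟨this.2.2.1, this.2.1, this.1⟩
  calc _ = ∑ A ∈ (W \ U).powerset, ((1 - θ) * ((1 - q) * PP φ W (insert x (insert y A))) +
        (1 - 1 / θ) * (q * PP φ W (insert y A))) := by
          rw [e1, e2, Finset.sum_add_distrib, Finset.mul_sum, Finset.mul_sum, Finset.mul_sum, Finset.mul_sum]
    _ ≤ ∑ A ∈ (W \ U).powerset, jj ((1 - q) * PP φ W (insert x (insert y A))) (q * PP φ W (insert y A)) := by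
          refine Finset.sum_le_sum fun A _ => ?_
          exact jj_linear (mul_nonneg (by linarith) (PP_nonneg hφ _ _)) (mul_nonneg h0 (PP_nonneg hφ _ _)) hθ
    _ ≤ _ := Finset.sum_le_sum_of_subset_of_nonneg hsub fun _ _ _ => jj_nonneg _ _

/-- the segment `{s j : 0 ≤ j ≤ n}` -/
def seg (s : ℤ) (n : ℕ) : Finset ℤ := (Finset.range (n + 1)).image (fun j : ℕ => s * j)

theorem mem_seg {s : ℤ} {n : ℕ} {x : ℤ} : x ∈ seg s n ↔ ∃ j : ℕ, j ≤ n ∧ s * j = x := by
  unfold seg
  rw [Finset.mem_image]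
  constructor
  · rintro ⟨j, hj, h⟩; exact ⟨j, by rw [Finset.mem_range] at hj; omega, h⟩
  · rintro ⟨j, hj, h⟩; exact ⟨j, by rw [Finset.mem_range]; omega, h⟩

theorem seg_succ (s : ℤ) (n : ℕ) : seg s (n + 1) = insert (s * ((n + 1 : ℕ) : ℤ)) (seg s n) := by
  unfold seg
  rw [Finset.range_add_one (n := n + 1), Finset.image_insert]

theorem smul_notMem_seg {s : ℤ} (hs : s = 1 ∨ s = -1) {n m : ℕ} (h : n < m) : s * (m : ℤ) ∉ seg s n := by
  rw [mem_seg]
  rintro ⟨j, hj, h'⟩
  rcases hs with rfl | rfl <;> omega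

theorem seg_sub {s : ℤ} (hs : s = 1 ∨ s = -1) {n M : ℕ} (h : n ≤ M) : seg s n ⊆ Finset.Icc (-(M:ℤ)) M := by
  intro x hx
  rw [mem_seg] at hx
  obtain ⟨j, hj, rfl⟩ := hx
  rw [Finset.mem_Icc]
  rcases hs with rfl | rfl <;> constructor <;> omega

/-- probability that the first infected site in direction `s` is at distance `b` -/
noncomputable def ee (φ : (Cfg → ℝ) → ℝ) (s : ℤ) (b : ℕ) : ℝ := PP φ (seg s b) {s * (b:ℤ)}
noncomputable def ff (φ : (Cfg → ℝ) → ℝ) (s : ℤ) (b : ℕ) : ℝ :=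
  PP φ (seg s (b + 1)) {s * ((b + 1 : ℕ) : ℤ), s * (b:ℤ)}

theorem ee_nonneg {φ : (Cfg → ℝ) → ℝ} (hφ : IsState φ) (s : ℤ) (b : ℕ) : 0 ≤ ee φ s b := PP_nonneg hφ _ _
theorem ff_nonneg {φ : (Cfg → ℝ) → ℝ} (hφ : IsState φ) (s : ℤ) (b : ℕ) : 0 ≤ ff φ s b := PP_nonneg hφ _ _

theorem ee_split {φ : (Cfg → ℝ) → ℝ} (hφ : IsState φ) {s : ℤ} (hs : s = 1 ∨ s = -1) (b : ℕ) :
    PP φ (seg s (b + 1)) {s * (b:ℤ)} = ee φ s b - ff φ s b := by
  have hn : s * ((b + 1 : ℕ) : ℤ) ∉ seg s b := smul_notMem_seg hs (Nat.lt_succ_self b)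
  have hn2 : s * ((b + 1 : ℕ) : ℤ) ∉ ({s * (b:ℤ)} : Finset ℤ) := by
    rw [Finset.mem_singleton]
    rcases hs with rfl | rfl <;> push_cast <;> omega
  have h1 : ee φ s b = PP φ (seg s (b + 1)) {s * (b:ℤ)} + ff φ s b := by
    unfold ee ff PP
    rw [seg_succ, ← hφ.add]
    congr 1
    funext η
    exact cyl_split hn hn2 η
  linarith

/-- lower bound on the dissipation created by a hole edge in direction `s` -/
theorem edge_lower {q : ℝ} (h0 : 0 < q) (h1 : q < 1) {φ : (Cfg → ℝ) → ℝ} (hφ : IsState φ) {s : ℤ}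
    (hs : s = 1 ∨ s = -1) (R M : ℕ) (hR : 1 ≤ R) :
    q ^ 3 / 64 * ∑ b ∈ Finset.Ico R M, ee φ s b - ee φ s R ≤
      DL q (PP φ (Finset.Icc (-(M:ℤ)) M)) (Finset.Icc (-(M:ℤ)) M) := by
  rcases Nat.lt_or_ge R M with hRM | hRM
  swap
  · rw [Finset.Ico_eq_empty (by omega)]
    have h2 := DL_nonneg q (PP φ (Finset.Icc (-(M:ℤ)) M)) (Finset.Icc (-(M:ℤ)) M)
    have h3 := ee_nonneg hφ s R
    simp only [Finset.sum_empty, mul_zero]
    linarith
  set W := Finset.Icc (-(M:ℤ)) (M:ℤ) with hW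
  have hmem : ∀ i : ℕ, i ≤ M → s * (i:ℤ) ∈ W := by
    intro i hi
    exact seg_sub hs hi (mem_seg.2 ⟨i, le_refl _, rfl⟩)
  -- the two kinds of pairs
  have hθ1 : (0:ℝ) < 1 + q / 8 := by positivity
  have hu1 : q / 8 * (1 - q / 2) < 1 := by nlinarith
  have hθ2 : (0:ℝ) < 1 - q / 8 * (1 - q / 2) := by linarith
  have type1 : ∀ i : ℕ, 1 ≤ i → i < M →
      (1 - (1 + q / 8)) * ((1 - q) * ff φ s i) + (1 - 1 / (1 + q / 8)) * (q * ee φ s (i + 1)) ≤
        eL q (PP φ W) W (s * (i:ℤ)) (s * ((i + 1 : ℕ) : ℤ)) := by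
    intro i hi hiM
    have hset : insert (s * (i:ℤ)) (insert (s * ((i + 1 : ℕ) : ℤ)) (seg s (i - 1))) = seg s (i + 1) := by
      have h3 : i = (i - 1) + 1 := by omega
      rw [seg_succ s i, Finset.insert_comm]
      congr 1
      conv_rhs => rw [h3, seg_succ, ← h3]
    have h4 := pair_lower h0.le h1.le hφ (W := W) (N := seg s (i - 1)) (x := s * (i:ℤ))
      (y := s * ((i + 1 : ℕ) : ℤ)) (hmem i (by omega)) (hmem (i + 1) (by omega)) (seg_sub hs (by omega))
      hθ1
    rw [hset] at h4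
    have h5 : ff φ s i = PP φ (seg s (i + 1)) {s * (i:ℤ), s * ((i + 1 : ℕ) : ℤ)} := by
      unfold ff; rw [Finset.pair_comm]
    rw [h5]
    exact h4
  have type2 : ∀ i : ℕ, 1 ≤ i → i < M →
      (1 - (1 - q / 8 * (1 - q / 2))) * ((1 - q) * ff φ s i) +
        (1 - 1 / (1 - q / 8 * (1 - q / 2))) * (q * (ee φ s i - ff φ s i)) ≤
        eL q (PP φ W) W (s * ((i + 1 : ℕ) : ℤ)) (s * (i:ℤ)) := by
    intro i hi hiM
    have hset : insert (s * ((i + 1 : ℕ) : ℤ)) (insert (s * (i:ℤ)) (seg s (i - 1))) = seg s (i + 1) := by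
      have h3 : i = (i - 1) + 1 := by omega
      rw [seg_succ s i]
      congr 1
      conv_rhs => rw [h3, seg_succ, ← h3]
    have h4 := pair_lower h0.le h1.le hφ (W := W) (N := seg s (i - 1)) (x := s * ((i + 1 : ℕ) : ℤ))
      (y := s * (i:ℤ)) (hmem (i + 1) (by omega)) (hmem i (by omega)) (seg_sub hs (by omega))
      hθ2
    rw [hset, ee_split hφ hs] at h4
    exact h4
  -- sum over sites
  have hinj : Set.InjOn (fun i : ℕ => s * (i:ℤ)) ((Finset.Icc R M : Finset ℕ) : Set ℕ) := by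
    intro i _ j _ h
    simp only at h
    rcases hs with rfl | rfl <;> omega
  have hDL : ∑ i ∈ Finset.Icc R M, ((if i < M then eL q (PP φ W) W (s * (i:ℤ)) (s * ((i + 1 : ℕ) : ℤ)) else 0) +
      (if R < i then eL q (PP φ W) W (s * (i:ℤ)) (s * ((i - 1 : ℕ) : ℤ)) else 0)) ≤ DL q (PP φ W) W := by
    have h2 : ∑ x ∈ (Finset.Icc R M).image (fun i : ℕ => s * (i:ℤ)), ∑ y ∈ nb W x, eL q (PP φ W) W x y ≤
        DL q (PP φ W) W := by
      refine Finset.sum_le_sum_of_subset_of_nonneg ?_ fun _ _ _ => Finset.sum_nonneg fun _ _ => eL_nonneg _ _ _ _ _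
      intro x hx
      rw [Finset.mem_image] at hx
      obtain ⟨i, hi, rfl⟩ := hx
      exact hmem i (Finset.mem_Icc.1 hi).2
    rw [Finset.sum_image hinj] at h2
    refine le_trans (Finset.sum_le_sum fun i hi => ?_) h2
    rw [Finset.mem_Icc] at hi
    have t1 : (if i < M then eL q (PP φ W) W (s * (i:ℤ)) (s * ((i + 1 : ℕ) : ℤ)) else 0) =
        ∑ y ∈ (if i < M then {s * ((i + 1 : ℕ) : ℤ)} else ∅ : Finset ℤ), eL q (PP φ W) W (s * (i:ℤ)) y := by
      split_ifs
      · rw [Finset.sum_singleton]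
      · rw [Finset.sum_empty]
    have t2 : (if R < i then eL q (PP φ W) W (s * (i:ℤ)) (s * ((i - 1 : ℕ) : ℤ)) else 0) =
        ∑ y ∈ (if R < i then {s * ((i - 1 : ℕ) : ℤ)} else ∅ : Finset ℤ), eL q (PP φ W) W (s * (i:ℤ)) y := by
      split_ifs
      · rw [Finset.sum_singleton]
      · rw [Finset.sum_empty]
    have hd : Disjoint (if i < M then {s * ((i + 1 : ℕ) : ℤ)} else ∅ : Finset ℤ)
        (if R < i then {s * ((i - 1 : ℕ) : ℤ)} else ∅ : Finset ℤ) := by
      split_ifs
      · rw [Finset.disjoint_singleton]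
        rcases hs with rfl | rfl <;> push_cast <;> omega
      · exact Finset.disjoint_empty_right _
      · exact Finset.disjoint_empty_left _
      · exact Finset.disjoint_empty_left _
    rw [t1, t2, ← Finset.sum_union hd]
    refine Finset.sum_le_sum_of_subset_of_nonneg ?_ fun _ _ _ => eL_nonneg _ _ _ _ _
    intro y hy
    rw [Finset.mem_union] at hy
    unfold nb
    rw [Finset.mem_filter]
    rcases hy with h | h
    · split_ifs at h with h3
      · rw [Finset.mem_singleton] at h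
        subst h
        refine ⟨hmem _ (by omega), ?_⟩
        rcases hs with rfl | rfl <;> push_cast <;> omega
      · simp at h
    · split_ifs at h with h3
      · rw [Finset.mem_singleton] at h
        subst h
        refine ⟨hmem _ (by omega), ?_⟩
        rcases hs with rfl | rfl
        · right; push_cast [show 1 ≤ i by omega]; ring
        · left; push_cast [show 1 ≤ i by omega]; ring
      · simp at h
  rw [Finset.sum_add_distrib, ← Finset.sum_filter, ← Finset.sum_filter] at hDL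
  have f1 : (Finset.Icc R M).filter (fun i => i < M) = Finset.Ico R M := by
    ext i; simp only [Finset.mem_filter, Finset.mem_Icc, Finset.mem_Ico]; omega
  have f2 : ∑ i ∈ (Finset.Icc R M).filter (fun i => R < i), eL q (PP φ W) W (s * (i:ℤ)) (s * ((i - 1 : ℕ) : ℤ)) =
      ∑ i ∈ Finset.Ico R M, eL q (PP φ W) W (s * ((i + 1 : ℕ) : ℤ)) (s * (i:ℤ)) := by
    have h3 : (Finset.Icc R M).filter (fun i => R < i) = (Finset.Ico R M).image (fun i => i + 1) := by
      ext i
      simp only [Finset.mem_filter, Finset.mem_Icc, Finset.mem_image, Finset.mem_Ico]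
      constructor
      · intro h; exact ⟨i - 1, by omega, by omega⟩
      · rintro ⟨j, hj, rfl⟩; omega
    rw [h3, Finset.sum_image (fun i _ j _ h => by simpa using h)]
    rfl
  rw [f1, f2] at hDL
  -- shift of the sum of `ee`
  have hshift : ∑ i ∈ Finset.Ico R M, ee φ s (i + 1) = ∑ i ∈ Finset.Ico R M, ee φ s i - ee φ s R + ee φ s M := by
    have h3 := Finset.sum_Ico_add' (fun i => ee φ s i) R M 1
    rw [h3]
    have h4 := Finset.sum_Ico_consecutive (fun i => ee φ s i) (show R ≤ R + 1 by omega) (show R + 1 ≤ M + 1 by omega)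
    have h5 := Finset.sum_Ico_consecutive (fun i => ee φ s i) (show R ≤ M by omega) (show M ≤ M + 1 by omega)
    simp only [Nat.Ico_succ_singleton, Finset.sum_singleton] at h4 h5
    linarith
  have hsum1 := Finset.sum_le_sum (s := Finset.Ico R M) (fun i hi => type1 i (by
    have := (Finset.mem_Ico.1 hi).1; omega) (Finset.mem_Ico.1 hi).2)
  have hsum2 := Finset.sum_le_sum (s := Finset.Ico R M) (fun i hi => type2 i (by
    have := (Finset.mem_Ico.1 hi).1; omega) (Finset.mem_Ico.1 hi).2)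
  rw [Finset.sum_add_distrib, ← Finset.mul_sum, ← Finset.mul_sum, ← Finset.mul_sum, ← Finset.mul_sum] at hsum1
  rw [Finset.sum_add_distrib, ← Finset.mul_sum, ← Finset.mul_sum, ← Finset.mul_sum, ← Finset.mul_sum,
    Finset.sum_sub_distrib] at hsum2
  rw [hshift] at hsum1
  set E := ∑ i ∈ Finset.Ico R M, ee φ s i with hE
  set F := ∑ i ∈ Finset.Ico R M, ff φ s i with hF
  have hE0 : 0 ≤ E := Finset.sum_nonneg fun i _ => ee_nonneg hφ s i
  have hF0 : 0 ≤ F := Finset.sum_nonneg fun i _ => ff_nonneg hφ s i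
  have heR := ee_nonneg hφ s R
  have heM := ee_nonneg hφ s M
  -- algebra
  have hc1 : 1 - 1 / (1 + q / 8) = (q / 8) / (1 + q / 8) := by field_simp; ring
  have hc2 : 1 - 1 / (1 - q / 8 * (1 - q / 2)) =
      -((q / 8 * (1 - q / 2)) / (1 - q / 8 * (1 - q / 2))) := by
    have hgen : ∀ d : ℝ, d ≠ 0 → 1 - 1 / d = -((1 - d) / d) := by
      intro d hd; field_simp; ring
    rw [hgen _ hθ2.ne']
    congr 2
    ring
  rw [hc1] at hsum1
  rw [hc2] at hsum2
  set A1 := (q / 8) / (1 + q / 8) with hA1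
  set A2 := (q / 8 * (1 - q / 2)) / (1 - q / 8 * (1 - q / 2)) with hA2
  have hA1pos : 0 ≤ A1 := by positivity
  have hA1le : A1 ≤ 1 := by
    rw [hA1, div_le_one hθ1]; linarith
  have hA2ge : q / 8 * (1 - q / 2) ≤ A2 := by
    rw [hA2, le_div_iff₀ hθ2]
    have : 0 ≤ q / 8 * (1 - q / 2) := by
      have : 0 < 1 - q / 2 := by linarith
      positivity
    nlinarith
  have hdiff : q ^ 2 / 64 ≤ A1 - A2 := by
    rw [hA1, hA2, div_sub_div _ _ hθ1.ne' hθ2.ne', le_div_iff₀ (mul_pos hθ1 hθ2)]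
    nlinarith [mul_pos h0 h0, mul_pos (mul_pos h0 h0) h0, mul_pos (mul_pos h0 h0) (mul_pos h0 h0)]
  -- coefficient of F
  have hFc : 0 ≤ (1 - (1 + q / 8)) * (1 - q) + (1 - (1 - q / 8 * (1 - q / 2))) * (1 - q) + A2 * q := by
    nlinarith [mul_pos h0 h0, mul_pos (mul_pos h0 h0) h0]
  have hq0 : 0 < q := h0
  have t1 : 0 ≤ A1 * (q * ee φ s M) := by positivity
  have t2 : A1 * (q * ee φ s R) ≤ ee φ s R := by
    have : A1 * q ≤ 1 := by nlinarith
    nlinarith
  have t3 : q ^ 3 / 64 * E ≤ (A1 - A2) * q * E := by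
    have : q ^ 3 / 64 ≤ (A1 - A2) * q := by nlinarith
    exact mul_le_mul_of_nonneg_right this hE0
  have t4 := mul_nonneg hFc hF0
  nlinarith

/-- both directions together -/
theorem edge_total {q : ℝ} (h0 : 0 < q) (h1 : q < 1) {φ : (Cfg → ℝ) → ℝ} (hφ : IsState φ) (R M : ℕ)
    (hR : 1 ≤ R) :
    q ^ 3 / 128 * φ (fun η => if R ≤ uu (M + 1) η ∧ uu (M + 1) η < M then 1 else 0) ≤
      DL q (PP φ (Finset.Icc (-(M:ℤ)) M)) (Finset.Icc (-(M:ℤ)) M) +
      φ (fun η => if uu (M + 1) η ≤ R then 1 else 0) := by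
  have e1 := edge_lower h0 h1 hφ (s := 1) (Or.inl rfl) R M hR
  have e2 := edge_lower h0 h1 hφ (s := -1) (Or.inr rfl) R M hR
  have heR : ∀ s : ℤ, s = 1 ∨ s = -1 → ee φ s R ≤ φ (fun η => if uu (M + 1) η ≤ R then 1 else 0) := by
    intro s hs
    unfold ee PP
    refine hφ.mono fun η => ?_
    by_cases h : cyl (seg s R) {s * (R:ℤ)} η = 0
    · rw [h]; split_ifs <;> norm_num
    · have h2 := cyl_eq_one h (s * (R:ℤ)) (mem_seg.2 ⟨R, le_refl _, rfl⟩)
      have h3 : η (s * (R:ℤ)) = true := by rw [h2]; unfold cfgOf; simp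
      have h4 := uu_le_of_infected (n := M + 1) h3
      have h5 : (s * (R:ℤ)).natAbs = R := by rcases hs with rfl | rfl <;> omega
      rw [h5] at h4
      rw [if_pos h4]
      exact cyl_le_one _ _ _
  have hsum : φ (fun η => if R ≤ uu (M + 1) η ∧ uu (M + 1) η < M then 1 else 0) ≤
      ∑ b ∈ Finset.Ico R M, ee φ 1 b + ∑ b ∈ Finset.Ico R M, ee φ (-1) b := by
    unfold ee PP
    rw [← hφ.sum, ← hφ.sum, ← hφ.add]
    refine hφ.mono fun η => ?_
    rw [Pi.add_apply]
    have n1 : 0 ≤ ∑ b ∈ Finset.Ico R M, cyl (seg 1 b) {1 * (b:ℤ)} η :=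
      Finset.sum_nonneg fun _ _ => cyl_nonneg _ _ _
    have n2 : 0 ≤ ∑ b ∈ Finset.Ico R M, cyl (seg (-1) b) {(-1) * (b:ℤ)} η :=
      Finset.sum_nonneg fun _ _ => cyl_nonneg _ _ _
    split_ifs with h
    swap
    · linarith
    · obtain ⟨z, hz1, hz2⟩ := exists_of_uu_lt (n := M + 1) (η := η) (by omega)
      have hcyl : ∀ s : ℤ, s = 1 ∨ s = -1 → s * ((uu (M + 1) η : ℕ) : ℤ) = z →
          cyl (seg s (uu (M + 1) η)) {s * ((uu (M + 1) η : ℕ) : ℤ)} η = 1 := by
        intro s hs hsz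
        unfold cyl
        rw [if_pos]
        intro x hx
        rw [mem_seg] at hx
        obtain ⟨j, hj, rfl⟩ := hx
        rw [Finset.mem_singleton]
        rcases Nat.lt_or_ge j (uu (M + 1) η) with h' | h'
        · have h3 : η (s * (j:ℤ)) = false := hole_uu (M + 1) η _ (by
            rcases hs with rfl | rfl <;> omega)
          rw [h3]
          constructor
          · intro hh; exact absurd hh (by simp)
          · intro hh
            exfalso
            rcases hs with rfl | rfl <;> omega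
        · have h3 : j = uu (M + 1) η := le_antisymm hj h'
          subst h3
          rw [hsz, hz2]
          simp
      have hmemIco : uu (M + 1) η ∈ Finset.Ico R M := Finset.mem_Ico.2 h
      have hcase : (1:ℤ) * ((uu (M + 1) η : ℕ) : ℤ) = z ∨ (-1) * ((uu (M + 1) η : ℕ) : ℤ) = z := by omega
      rcases hcase with hc | hc
      · have h3 := hcyl 1 (Or.inl rfl) hc
        have h4 := Finset.single_le_sum (f := fun b : ℕ => cyl (seg 1 b) {1 * (b:ℤ)} η)
          (fun _ _ => cyl_nonneg _ _ _) hmemIco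
        beta_reduce at h4
        rw [h3] at h4
        linarith
      · have h3 := hcyl (-1) (Or.inr rfl) hc
        have h4 := Finset.single_le_sum (f := fun b : ℕ => cyl (seg (-1) b) {(-1) * (b:ℤ)} η)
          (fun _ _ => cyl_nonneg _ _ _) hmemIco
        beta_reduce at h4
        rw [h3] at h4
        linarith
  have e3 := heR 1 (Or.inl rfl)
  have e4 := heR (-1) (Or.inr rfl)
  have hq3 : 0 ≤ q ^ 3 / 128 := by positivity
  have e5 := mul_le_mul_of_nonneg_left hsum hq3
  nlinarith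

/-- number of infected sites in the window -/
theorem card_le_uu (M : ℕ) {A : Finset ℤ} (hA : A ⊆ Finset.Icc (-(M:ℤ)) M) :
    (A.card : ℝ) ≤ 2 * ((M:ℝ) + 1 - uu (M + 1) (cfgOf A)) := by
  have hk := uu_le (M + 1) (cfgOf A)
  have hsub : A ⊆ (Finset.Icc (-(M:ℤ)) M).filter (fun x : ℤ => uu (M + 1) (cfgOf A) ≤ x.natAbs) := by
    intro x hx
    rw [Finset.mem_filter]
    exact ⟨hA hx, uu_cfgOf_mem hx⟩
  have h1 := (Finset.card_le_card hsub).trans (card_far M _ hk)
  have h2 : (A.card : ℝ) ≤ ((2 * (M + 1 - uu (M + 1) (cfgOf A)) : ℕ) : ℝ) := by exact_mod_cast h1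
  push_cast [hk] at h2
  exact h2

theorem uu_window (M : ℕ) : ∀ η ζ : Cfg, (∀ x ∈ Finset.Icc (-(M:ℤ)) M, η x = ζ x) →
      (fun η : Cfg => (M:ℝ) + 1 - uu (M + 1) η) η = (fun η : Cfg => (M:ℝ) + 1 - uu (M + 1) η) ζ := by
  intro η ζ h
  have : uu (M + 1) η = uu (M + 1) ζ := by
    apply uu_congr
    intro x hx
    apply h
    rw [Finset.mem_Icc]
    omega
  simp only [this]

theorem sum_card_le {φ : (Cfg → ℝ) → ℝ} (hφ : IsState φ) (M : ℕ) :
    ∑ A ∈ (Finset.Icc (-(M:ℤ)) M).powerset, PP φ (Finset.Icc (-(M:ℤ)) M) A * (A.card : ℝ) ≤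
      2 * φ (fun η => (M:ℝ) + 1 - uu (M + 1) η) := by
  rw [hφ.expand (uu_window M), Finset.mul_sum]
  refine Finset.sum_le_sum fun A hA => ?_
  have h1 := card_le_uu M (Finset.mem_powerset.1 hA)
  have h2 := PP_nonneg hφ (Finset.Icc (-(M:ℤ)) M) A
  nlinarith

/-- dissipation is bounded by the number of infected sites -/
theorem DL_le_inf {q : ℝ} (h0 : 0 ≤ q) (h1 : q ≤ 1) {φ : (Cfg → ℝ) → ℝ} (hφ : IsState φ) (W : Finset ℤ) :
    DL q (PP φ W) W ≤ 2 * ∑ A ∈ W.powerset, PP φ W A * (A.card : ℝ) := by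
  have hpt : ∀ x ∈ W, ∀ y ∈ nb W x, eL q (PP φ W) W x y ≤ ∑ B ∈ W.powerset, if y ∈ B then PP φ W B else 0 := by
    intro x hx y hy
    have hyW := (Finset.mem_filter.1 hy).1
    have hyx : y ≠ x := by
      have := (Finset.mem_filter.1 hy).2
      omega
    have hyE : y ∈ W.erase x := Finset.mem_erase.2 ⟨hyx, hyW⟩
    have e1 : ∑ B ∈ W.powerset, (if y ∈ B then PP φ W B else 0) =
        ∑ A ∈ ((W.erase x).erase y).powerset, (PP φ W (insert y A) + PP φ W (insert x (insert y A))) := by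
      conv_lhs => rw [← Finset.insert_erase hx]
      rw [Finset.sum_powerset_insert (Finset.notMem_erase x _), Finset.insert_erase hx]
      conv_lhs => rw [← Finset.insert_erase hyE]
      rw [Finset.sum_powerset_insert (Finset.notMem_erase y _), Finset.sum_powerset_insert (Finset.notMem_erase y _)]
      have z1 : ∑ A ∈ ((W.erase x).erase y).powerset, (if y ∈ A then PP φ W A else 0) = 0 := by
        refine Finset.sum_eq_zero fun A hA => ?_
        rw [if_neg fun h => (Finset.notMem_erase y _) (Finset.mem_powerset.1 hA h)]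
      have z2 : ∑ A ∈ ((W.erase x).erase y).powerset, (if y ∈ insert x A then PP φ W (insert x A) else 0) = 0 := by
        refine Finset.sum_eq_zero fun A hA => ?_
        rw [if_neg]
        rw [Finset.mem_insert, not_or]
        exact ⟨hyx, fun h => (Finset.notMem_erase y _) (Finset.mem_powerset.1 hA h)⟩
      rw [z1, z2, zero_add, zero_add, Finset.sum_add_distrib]
      congr 1
      · refine Finset.sum_congr rfl fun A _ => ?_
        rw [if_pos (Finset.mem_insert_self _ _)]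
      · refine Finset.sum_congr rfl fun A _ => ?_
        rw [if_pos (Finset.mem_insert_of_mem (Finset.mem_insert_self _ _))]
    rw [e1]
    unfold eL
    refine Finset.sum_le_sum fun A _ => ?_
    have p1 := PP_nonneg hφ W (insert y A)
    have p2 := PP_nonneg hφ W (insert x (insert y A))
    have h2 : 0 ≤ 1 - q := by linarith
    have h3 := jj_le_add (mul_nonneg h2 p2) (mul_nonneg h0 p1)
    nlinarith
  unfold DL
  calc ∑ x ∈ W, ∑ y ∈ nb W x, eL q (PP φ W) W x y
      ≤ ∑ x ∈ W, ∑ y ∈ nb W x, ∑ B ∈ W.powerset, (if y ∈ B then PP φ W B else 0) :=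
        Finset.sum_le_sum fun x hx => Finset.sum_le_sum fun y hy => hpt x hx y hy
    _ = ∑ B ∈ W.powerset, ∑ x ∈ W, ∑ y ∈ nb W x, (if y ∈ B then PP φ W B else 0) := by
        rw [Finset.sum_comm]
        refine Finset.sum_congr rfl fun x _ => Finset.sum_comm
    _ ≤ _ := by
        rw [Finset.mul_sum]
        refine Finset.sum_le_sum fun B hB => ?_
        have hp := PP_nonneg hφ W B
        rw [Finset.sum_comm' (t' := W) (s' := fun y => nb W y) (by
          intro x y
          unfold nb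
          rw [Finset.mem_filter, Finset.mem_filter]
          constructor
          · rintro ⟨a, b, c⟩; exact ⟨⟨a, by omega⟩, b⟩
          · rintro ⟨⟨a, c⟩, b⟩; exact ⟨a, b, by omega⟩)]
        calc ∑ y ∈ W, ∑ x ∈ nb W y, (if y ∈ B then PP φ W B else 0)
            ≤ ∑ y ∈ W, (if y ∈ B then 2 * PP φ W B else 0) := by
              refine Finset.sum_le_sum fun y _ => ?_
              rw [Finset.sum_const, nsmul_eq_mul]
              have hc : ((nb W y).card : ℝ) ≤ 2 := by exact_mod_cast card_nb_le W y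
              split_ifs
              · exact mul_le_mul_of_nonneg_right hc hp
              · simp
          _ = 2 * (PP φ W B * (B.card : ℝ)) := by
              rw [← Finset.sum_filter, Finset.sum_const, nsmul_eq_mul]
              have : W.filter (fun y => y ∈ B) = B := by
                ext y
                rw [Finset.mem_filter]
                exact ⟨fun h => h.2, fun h => ⟨(Finset.mem_powerset.1 hB) h, h⟩⟩
              rw [this]; ring
          _ ≤ _ := le_refl _

end Pool.Agent.LibFA
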