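import Pool.Agent.LibFA.Tight

open Filter Topology

namespace Pool.Agent.LibFA

theorem cyl_oscB (M : ℕ) (A : Finset ℤ) :
    OscB (cyl (WW M) A) (fun x => Real.exp M * Real.exp (-|(x:ℝ)|)) := by
  intro x η v w
  by_cases hx : x ∈ WW M
  · have h1 : |cyl (WW M) A (Function.update η x v) - cyl (WW M) A (Function.update η x w)| ≤ 1 := by
      rw [abs_le]
      have a1 := cyl_nonneg (WW M) A (Function.update η x v)
      have a2 := cyl_le_one (WW M) A (Function.update η x v)
      have a3 := cyl_nonneg (WW M) A (Function.update η x w)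
      have a4 := cyl_le_one (WW M) A (Function.update η x w)
      constructor <;> linarith
    refine h1.trans ?_
    show (1:ℝ) ≤ Real.exp M * Real.exp (-|(x:ℝ)|)
    rw [← Real.exp_add]
    apply Real.one_le_exp
    have h2 : |(x:ℝ)| ≤ M := by
      unfold WW at hx
      rw [Finset.mem_Icc] at hx
      rw [abs_le]
      constructor
      · have : (-(M:ℤ) : ℤ) ≤ x := hx.1
        have h3 : ((-(M:ℤ) : ℤ) : ℝ) ≤ (x:ℝ) := by exact_mod_cast this
        push_cast at h3
        exact h3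
      · exact_mod_cast hx.2
    linarith
  · have h1 : cyl (WW M) A (Function.update η x v) = cyl (WW M) A (Function.update η x w) := by
      apply cyl_congr
      intro y hy
      have hyx : y ≠ x := fun h => hx (h ▸ hy)
      rw [Function.update_of_ne hyx, Function.update_of_ne hyx]
    rw [h1, sub_self, abs_zero]
    positivity

theorem card_WW (M : ℕ) : (WW M).card = 2 * M + 1 := card_box M

/-- the dissipation in a fixed window becomes small uniformly -/
theorem DL_small {q : ℝ} (h0 : 0 < q) (h1 : q < 1) {κ : ℝ} (hκ : 0 < κ) {M₀ : ℕ} (hM : 0 < M₀)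
    {ε : ℝ} (hε0 : 0 < ε) (hε1 : ε ≤ 1) :
    ∃ (N : ℕ) (T : ℝ), M₀ ≤ N ∧ 0 ≤ T ∧ ∀ t, T ≤ t → ∀ L : ℕ, N ≤ L → ∀ η : Cfg,
      DL q (PP (phi q L η N ε t) (WW M₀)) (WW M₀) ≤ 4 * κ := by
  obtain ⟨J, hJ0, hJ⟩ : ∃ J : ℕ, 0 < J ∧
      (1 + κ) / κ * ((1 + κ)⁻¹ ^ J * (4 * ((M₀:ℝ) + J + 1))) < κ := by
    have hr0 : 0 ≤ (1 + κ)⁻¹ := by positivity
    have hr1 : (1 + κ)⁻¹ < 1 := by
      rw [inv_lt_one₀ (by positivity)]; linarith
    have t1 := tendsto_self_mul_const_pow_of_lt_one hr0 hr1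
    have t2 := tendsto_pow_atTop_nhds_zero_of_lt_one hr0 hr1
    have t3 := (t1.const_mul ((1 + κ) / κ * 4)).add
      (t2.const_mul ((1 + κ) / κ * (4 * (M₀ + 1))))
    simp only [mul_zero, add_zero] at t3
    have t4 := (t3.eventually_lt_const hκ).and (eventually_gt_atTop 0)
    obtain ⟨J, hJ1, hJ2⟩ := t4.exists
    refine ⟨J, hJ2, lt_of_eq_of_lt ?_ hJ1⟩
    ring
  set N := M₀ + 1 * J with hN
  have hq1 : 0 < 1 - q := by linarith
  set pm := ε * (q ^ (2 * N + 1) * (1 - q) ^ (2 * N + 1)) with hpm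
  have hpm0 : 0 < pm := by positivity
  set Gb := |Real.log pm| + (2 * N + 1) * |Real.log (q / (1 - q))| with hGb
  have hGb0 : 0 ≤ Gb := by positivity
  set θ := κ / (2 ^ (2 * N + 1) * (Gb + 1)) with hθ
  have hθ0 : 0 < θ := by positivity
  have hev : ∀ᶠ t : ℝ in atTop, ∀ j ∈ Finset.range J, ∀ A ∈ (WW (M₀ + 1 * j)).powerset,
      ∀ (L : ℕ) (η : Cfg), |SS q L t (gen q L (cyl (WW (M₀ + 1 * j)) A)) η| ≤ θ := by
    rw [Filter.eventually_all_finset]
    intro j _
    rw [Filter.eventually_all_finset]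
    intro A _
    obtain ⟨T, _, hT⟩ := gen_SS_tendsto h0.le h1.le (cyl_oscB (M₀ + 1 * j) A) (B := 1) (fun η => by
      rw [abs_of_nonneg (cyl_nonneg _ _ _)]; exact cyl_le_one _ _ _) hθ0
    exact (eventually_ge_atTop T).mono fun t ht L η => hT t ht L η
  obtain ⟨T, hT⟩ := Filter.eventually_atTop.1 hev
  refine ⟨N, max T 0, by omega, le_max_right _ _, fun t ht L hL η => ?_⟩
  have ht0 : 0 ≤ t := (le_max_right _ _).trans ht
  have htT : T ≤ t := (le_max_left _ _).trans ht
  have hst := isState_phi h0.le h1.le L η N hε0.le hε1 ht0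
  have hjN : ∀ j < J, M₀ + 1 * j ≤ N := fun j hj => by omega
  have hpos : ∀ j < J, ∀ A, A ⊆ WW (M₀ + 1 * j) → 0 < PP (phi q L η N ε t) (WW (M₀ + 1 * j)) A :=
    fun j hj A hA => phi_pos h0 h1 L η N hε0 hε1 ht0 (WW_mono (hjN j hj)) hA
  have hflux := weighted_flux h0 h1 hst L hκ one_pos hM hL hpos
  -- lower bound of the left side
  have hlow : -(κ * Om κ J) ≤ ∑ j ∈ Finset.range J, (1 + κ)⁻¹ ^ j * (∑ A ∈ (WW (M₀ + 1 * j)).powerset,
      phi q L η N ε t (gen q L (cyl (WW (M₀ + 1 * j)) A)) *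
        GG q (phi q L η N ε t) (WW (M₀ + 1 * j)) A) := by
    have e1 : -(κ * Om κ J) = ∑ j ∈ Finset.range J, (1 + κ)⁻¹ ^ j * (-κ) := by
      unfold Om
      rw [← Finset.sum_mul]; ring
    rw [e1]
    refine Finset.sum_le_sum fun j hj => ?_
    refine mul_le_mul_of_nonneg_left ?_ (by positivity)
    have hjJ := Finset.mem_range.1 hj
    have hWN : WW (M₀ + 1 * j) ⊆ Finset.Icc (-(N:ℤ)) (N:ℤ) := WW_mono (hjN j hjJ)
    have hpt : ∀ A ∈ (WW (M₀ + 1 * j)).powerset, -(θ * Gb) ≤
        phi q L η N ε t (gen q L (cyl (WW (M₀ + 1 * j)) A)) *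
        GG q (phi q L η N ε t) (WW (M₀ + 1 * j)) A := by
      intro A hA
      have hAW := Finset.mem_powerset.1 hA
      have h2 : |phi q L η N ε t (gen q L (cyl (WW (M₀ + 1 * j)) A))| ≤ θ := by
        have h3 := hT t htT j hj A hA L η
        unfold phi
        rw [PiS_gen_cyl h0.le h1.le η hWN, mul_zero, add_zero, abs_mul, abs_of_nonneg (by linarith : 0 ≤ 1 - ε)]
        have := abs_nonneg (SS q L t (gen q L (cyl (WW (M₀ + 1 * j)) A)) η)
        nlinarith
      have h4 : |GG q (phi q L η N ε t) (WW (M₀ + 1 * j)) A| ≤ Gb := by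
        unfold GG
        have hp1 : PP (phi q L η N ε t) (WW (M₀ + 1 * j)) A ≤ 1 := by
          rw [← sum_PP hst (WW (M₀ + 1 * j))]
          exact Finset.single_le_sum (fun A _ => PP_nonneg hst _ A) hA
        have hp0 : pm ≤ PP (phi q L η N ε t) (WW (M₀ + 1 * j)) A := by
          have h5 := PiS_cyl_lower h0.le h1.le (n := N) η hWN hAW
          have h6 := mul_le_mul_of_nonneg_left h5 hε0.le
          have h7 := SS_nonneg h0.le h1.le L ht0 (cyl_nonneg (WW (M₀ + 1 * j)) A) η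
          have h8 : 0 ≤ (1 - ε) * SS q L t (cyl (WW (M₀ + 1 * j)) A) η := mul_nonneg (by linarith) h7
          unfold PP phi
          rw [hpm]
          linarith
        have hl : |Real.log (PP (phi q L η N ε t) (WW (M₀ + 1 * j)) A)| ≤ |Real.log pm| := by
          have h5 : Real.log (PP (phi q L η N ε t) (WW (M₀ + 1 * j)) A) ≤ 0 :=
            Real.log_nonpos (hpm0.le.trans hp0) hp1
          have h6 : Real.log pm ≤ Real.log (PP (phi q L η N ε t) (WW (M₀ + 1 * j)) A) :=
            Real.log_le_log hpm0 hp0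
          rw [abs_of_nonpos h5, abs_of_nonpos (h6.trans h5)]
          linarith
        have hc : (A.card : ℝ) ≤ 2 * N + 1 := by
          have h5 := Finset.card_le_card (hAW.trans hWN)
          rw [card_box] at h5
          exact_mod_cast h5
        have h9 : |(A.card:ℝ) * Real.log (q / (1 - q))| ≤ (2 * N + 1) * |Real.log (q / (1 - q))| := by
          rw [abs_mul, abs_of_nonneg (Nat.cast_nonneg A.card)]
          exact mul_le_mul_of_nonneg_right hc (abs_nonneg _)
        have h10 := abs_sub (Real.log (PP (phi q L η N ε t) (WW (M₀ + 1 * j)) A))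
          ((A.card:ℝ) * Real.log (q / (1 - q)))
        rw [hGb]
        linarith
      have h11 := neg_abs_le (phi q L η N ε t (gen q L (cyl (WW (M₀ + 1 * j)) A)) *
        GG q (phi q L η N ε t) (WW (M₀ + 1 * j)) A)
      rw [abs_mul] at h11
      have h12 : |phi q L η N ε t (gen q L (cyl (WW (M₀ + 1 * j)) A))| *
          |GG q (phi q L η N ε t) (WW (M₀ + 1 * j)) A| ≤ θ * Gb :=
        mul_le_mul h2 h4 (abs_nonneg _) hθ0.le
      linarith
    have h13 := Finset.card_nsmul_le_sum (WW (M₀ + 1 * j)).powerset _ _ hpt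
    rw [nsmul_eq_mul, Finset.card_powerset, card_WW] at h13
    have h14 : ((2 ^ (2 * (M₀ + 1 * j) + 1) : ℕ) : ℝ) * (θ * Gb) ≤ κ := by
      have h15 : ((2 ^ (2 * (M₀ + 1 * j) + 1) : ℕ) : ℝ) ≤ 2 ^ (2 * N + 1) := by
        push_cast
        exact pow_le_pow_right₀ (by norm_num) (by have := hjN j hjJ; omega)
      have h16 : (2:ℝ) ^ (2 * N + 1) * (θ * (Gb + 1)) = κ := by rw [hθ]; field_simp
      have h17 : θ * Gb ≤ θ * (Gb + 1) := mul_le_mul_of_nonneg_left (by linarith) hθ0.le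
      have h18 : 0 ≤ θ * Gb := by positivity
      calc _ ≤ (2:ℝ) ^ (2 * N + 1) * (θ * Gb) := mul_le_mul_of_nonneg_right h15 h18
        _ ≤ (2:ℝ) ^ (2 * N + 1) * (θ * (Gb + 1)) := mul_le_mul_of_nonneg_left h17 (by positivity)
        _ = κ := h16
    linarith
  have hΩ := Om_ge_one hκ hJ0
  have hrem : (1 + κ) / κ * ((1 + κ)⁻¹ ^ J * (4 * phi q L η N ε t (Xf (M₀ + 1 * J)))) ≤ κ := by
    refine le_trans ?_ hJ.le
    refine mul_le_mul_of_nonneg_left ?_ (by positivity)
    refine mul_le_mul_of_nonneg_left ?_ (by positivity)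
    refine mul_le_mul_of_nonneg_left ?_ (by positivity)
    have h2 := hst.mono (g := Xf (M₀ + 1 * J)) (k := fun _ => ((M₀ + 1 * J : ℕ):ℝ) + 1) (Xf_le _)
    rw [hst.const] at h2
    push_cast at h2
    linarith
  have hDD : DDw q (phi q L η N ε t) κ 1 M₀ J ≤ 4 * κ * Om κ J := by nlinarith
  have hD0 : DL q (PP (phi q L η N ε t) (WW M₀)) (WW M₀) * Om κ J ≤ DDw q (phi q L η N ε t) κ 1 M₀ J := by
    unfold DDw Om
    rw [Finset.mul_sum]
    refine Finset.sum_le_sum fun j _ => ?_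
    rw [mul_comm]
    refine mul_le_mul_of_nonneg_left ?_ (by positivity)
    exact DL_PP_mono h0.le h1.le hst (WW_mono (by omega))
  exact le_of_mul_le_mul_right (hD0.trans hDD) (by linarith)

/-- states with small dissipation are close to the product measure on nonempty patterns -/
theorem PP_close {q : ℝ} (h0 : 0 < q) (h1 : q < 1) {φ : (Cfg → ℝ) → ℝ} (hφ : IsState φ) (M : ℕ) {e : ℝ}
    (he : ((2 * M + 1 : ℕ) : ℝ) * Real.sqrt (DL q (PP φ (WW M)) (WW M) / cmin q (2 * M + 1)) ≤ e) :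
    ∑ A ∈ (WW M).powerset, |PP φ (WW M) A - q ^ A.card * (1 - q) ^ ((WW M).card - A.card)| ≤
      2 * ((1 + q / (1 - q)) ^ (2 * M + 1) *
        (e * (2 * Real.sqrt (1 / (q / (1 - q)) ^ (2 * M + 1)) + e))) +
      2 * (PP φ (WW M) ∅ + (1 - q) ^ (2 * M + 1)) := by
  have hq1 : 0 < 1 - q := by linarith
  set ρ := q / (1 - q) with hρdef
  have hρ : 0 < ρ := div_pos h0 hq1
  set W := WW M with hW
  have hcard : W.card = 2 * M + 1 := card_WW M
  set σ := Real.sqrt (1 / ρ ^ (2 * M + 1)) with hσ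
  have hσ0 : 0 ≤ σ := Real.sqrt_nonneg _
  have he0 : 0 ≤ e := le_trans (by positivity) he
  set Z := (1 + ρ) ^ (2 * M + 1) with hZ
  have hZ0 : 0 < Z := by positivity
  set z := (1 - q) ^ (2 * M + 1) with hz
  have hz0 : 0 < z := by positivity
  have hZz : Z * z = 1 := by
    rw [hZ, hz, ← mul_pow]
    have : (1 + ρ) * (1 - q) = 1 := by rw [hρdef]; field_simp; ring
    rw [this, one_pow]
  have hZ1 : 1 ≤ Z := one_le_pow₀ (by linarith)
  set p := PP φ W with hp
  have hp0 : ∀ A, 0 ≤ p A := fun A => PP_nonneg hφ W A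
  have hp1 : ∀ A ∈ W.powerset, p A ≤ 1 := fun A hA => by
    rw [← sum_PP hφ W]
    exact Finset.single_le_sum (fun A _ => PP_nonneg hφ _ A) hA
  set s2 := (sd q p W) ^ 2 with hs2
  set E := e * (2 * σ + e) with hE
  have hE0 : 0 ≤ E := by positivity
  have hsW : sd q p W ≤ σ := by
    unfold sd
    rw [hσ, hcard]
    apply Real.sqrt_le_sqrt
    exact div_le_div_of_nonneg_right (hp1 W (Finset.mem_powerset_self W)) (by positivity)
  have hsq : ∀ A, (sd q p A) ^ 2 = p A / ρ ^ A.card := by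
    intro A
    unfold sd
    rw [Real.sq_sqrt]
    have := hp0 A
    positivity
  have hnear : ∀ A ∈ W.powerset.erase ∅, |p A - s2 * ρ ^ A.card| ≤ E * ρ ^ A.card := by
    intro A hA
    rw [Finset.mem_erase, Finset.mem_powerset] at hA
    have h2 := sd_close h0 h1 p (a := -(M:ℤ)) (b := (M:ℤ)) (w := 2 * M + 1) hcard.le (2 * M + 1) A hA.2
      (Finset.nonempty_iff_ne_empty.2 hA.1) ((Finset.card_le_card Finset.sdiff_subset).trans hcard.le)
    have h3 : |sd q p W - sd q p A| ≤ e := h2.trans he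
    have h4 : 0 ≤ sd q p A := Real.sqrt_nonneg _
    have h5 : 0 ≤ sd q p W := Real.sqrt_nonneg _
    have h6 : p A = (sd q p A) ^ 2 * ρ ^ A.card := by
      rw [hsq A]; field_simp
    rw [h6, hs2, ← sub_mul, abs_mul, abs_of_pos (pow_pos hρ A.card)]
    refine mul_le_mul_of_nonneg_right ?_ (by positivity)
    have h7 : (sd q p A) ^ 2 - (sd q p W) ^ 2 = -(sd q p W - sd q p A) * (sd q p A + sd q p W) := by ring
    rw [h7, abs_mul, abs_neg, abs_of_nonneg (by linarith : 0 ≤ sd q p A + sd q p W)]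
    have h8 : sd q p A ≤ sd q p W + e := by
      have := (abs_le.1 h3).1
      linarith
    rw [hE]
    exact mul_le_mul h3 (by linarith) (by linarith) he0
  have hsumρ : ∑ A ∈ W.powerset.erase ∅, ρ ^ A.card = Z - 1 := by
    have h2 := Finset.add_sum_erase W.powerset (fun A => ρ ^ A.card) (Finset.empty_mem_powerset W)
    rw [sum_pow_card, hcard] at h2
    simp only [Finset.card_empty, pow_zero] at h2
    linarith
  have hsump : ∑ A ∈ W.powerset.erase ∅, p A = 1 - p ∅ := by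
    have h2 := Finset.add_sum_erase W.powerset p (Finset.empty_mem_powerset W)
    rw [sum_PP hφ W] at h2
    linarith
  have hE1 : ∑ A ∈ W.powerset.erase ∅, |p A - s2 * ρ ^ A.card| ≤ Z * E := by
    calc _ ≤ ∑ A ∈ W.powerset.erase ∅, E * ρ ^ A.card := Finset.sum_le_sum hnear
      _ = E * (Z - 1) := by rw [← Finset.mul_sum, hsumρ]
      _ ≤ Z * E := by nlinarith
  have hE2 : |(1 - p ∅) - s2 * (Z - 1)| ≤ Z * E := by
    rw [← hsump, ← hsumρ, Finset.mul_sum, ← Finset.sum_sub_distrib]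
    exact (Finset.abs_sum_le_sum_abs _ _).trans hE1
  have hpi : ∀ A ∈ W.powerset, q ^ A.card * (1 - q) ^ (W.card - A.card) = z * ρ ^ A.card := by
    intro A hA
    have hc := Finset.card_le_card (Finset.mem_powerset.1 hA)
    rw [hz, ← hcard, ← Nat.sub_add_cancel hc, pow_add, Nat.sub_add_cancel hc, hρdef, div_pow]
    field_simp
  rw [← Finset.add_sum_erase W.powerset _ (Finset.empty_mem_powerset W)]
  have hpi0 := hpi ∅ (Finset.empty_mem_powerset W)
  have hA0 : |p ∅ - q ^ (∅ : Finset ℤ).card * (1 - q) ^ (W.card - (∅ : Finset ℤ).card)| ≤ p ∅ + z := by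
    rw [hpi0]
    simp only [Finset.card_empty, pow_zero, mul_one]
    rw [abs_le]
    have := hp0 ∅
    constructor <;> linarith
  have hA1 : ∑ A ∈ W.powerset.erase ∅, |p A - q ^ A.card * (1 - q) ^ (W.card - A.card)| ≤
      2 * (Z * E) + (p ∅ + z) := by
    have h2 : ∀ A ∈ W.powerset.erase ∅, |p A - q ^ A.card * (1 - q) ^ (W.card - A.card)| ≤
        |p A - s2 * ρ ^ A.card| + |s2 - z| * ρ ^ A.card := by
      intro A hA
      rw [hpi A (Finset.mem_of_mem_erase hA)]
      have h3 : p A - z * ρ ^ A.card = (p A - s2 * ρ ^ A.card) + (s2 - z) * ρ ^ A.card := by ring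
      rw [h3]
      refine (abs_add_le _ _).trans ?_
      rw [abs_mul (s2 - z), abs_of_pos (pow_pos hρ A.card)]
    have h4 := Finset.sum_le_sum h2
    rw [Finset.sum_add_distrib, ← Finset.mul_sum, hsumρ] at h4
    have h5 : |s2 - z| * (Z - 1) ≤ Z * E + (p ∅ + z) := by
      have h6 : |s2 - z| * (Z - 1) = |s2 * (Z - 1) - (1 - z)| := by
        have : s2 * (Z - 1) - (1 - z) = (s2 - z) * (Z - 1) := by
          have : z * (Z - 1) = 1 - z := by rw [mul_sub, mul_comm z Z, hZz, mul_one]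
          rw [sub_mul, this]
        rw [this, abs_mul, abs_of_nonneg (by linarith : 0 ≤ Z - 1)]
      rw [h6]
      have h7 : s2 * (Z - 1) - (1 - z) = -((1 - p ∅) - s2 * (Z - 1)) + (z - p ∅) := by ring
      rw [h7]
      refine (abs_add_le _ _).trans ?_
      rw [abs_neg]
      have h8 : |z - p ∅| ≤ p ∅ + z := by
        rw [abs_le]
        have := hp0 ∅
        constructor <;> linarith
      linarith
    linarith
  linarith

/-- product measure expectation of a function of the coordinates in `W` -/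
noncomputable def pis (q : ℝ) (W : Finset ℤ) (f : Cfg → ℝ) : ℝ :=
  ∑ A ∈ W.powerset, q ^ A.card * (1 - q) ^ (W.card - A.card) * f (cfgOf A)

theorem pis_mono {q : ℝ} {U W : Finset ℤ} (hUW : U ⊆ W) {f : Cfg → ℝ}
    (hf : ∀ η ζ : Cfg, (∀ x ∈ U, η x = ζ x) → f η = f ζ) : pis q W f = pis q U f := by
  unfold pis
  have hd : Disjoint U (W \ U) := Finset.disjoint_sdiff
  have hUW' : U ∪ (W \ U) = W := Finset.union_sdiff_of_subset hUW
  have hc : W.card = U.card + (W \ U).card := by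
    rw [← Finset.card_union_of_disjoint hd, hUW']
  conv_lhs => rw [← hUW']
  rw [sum_powerset_union hd, hUW', hc]
  refine Finset.sum_congr rfl fun A₁ hA₁ => ?_
  have hA₁' := Finset.mem_powerset.1 hA₁
  have h2 : ∀ A₂ ∈ (W \ U).powerset, q ^ (A₁ ∪ A₂).card * (1 - q) ^ (U.card + (W \ U).card - (A₁ ∪ A₂).card) *
      f (cfgOf (A₁ ∪ A₂)) = (q ^ A₁.card * (1 - q) ^ (U.card - A₁.card) * f (cfgOf A₁)) *
        (q ^ A₂.card * (1 - q) ^ ((W \ U).card - A₂.card)) := by
    intro A₂ hA₂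
    have hA₂' := Finset.mem_powerset.1 hA₂
    have hdd : Disjoint A₁ A₂ := Finset.disjoint_of_subset_left hA₁' (Finset.disjoint_of_subset_right hA₂' hd)
    rw [Finset.card_union_of_disjoint hdd]
    have e1 : f (cfgOf (A₁ ∪ A₂)) = f (cfgOf A₁) := by
      apply hf
      intro x hx
      unfold cfgOf
      have : x ∉ A₂ := fun h => Finset.disjoint_left.1 hd hx (hA₂' h)
      simp [this]
    have c1 := Finset.card_le_card hA₁'
    have c2 := Finset.card_le_card hA₂'
    have e2 : U.card + (W \ U).card - (A₁.card + A₂.card) = (U.card - A₁.card) + ((W \ U).card - A₂.card) := by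
      omega
    rw [e1, e2, pow_add, pow_add]
    ring
  rw [Finset.sum_congr rfl h2, ← Finset.mul_sum, Finset.sum_pow_mul_eq_add_pow]
  simp

/-- uniform convergence to equilibrium on configurations with an infection near the origin -/
theorem equil {q : ℝ} (h0 : 0 < q) (h1 : q < 1) (m : ℕ) {f : Cfg → ℝ}
    (hf : ∀ η ζ : Cfg, (∀ x ∈ WW m, η x = ζ x) → f η = f ζ) (n₀ : ℕ) {δ : ℝ} (hδ : 0 < δ) :
    ∃ T : ℝ, 0 ≤ T ∧ ∀ t, T ≤ t → ∃ L₀ : ℕ, ∀ L : ℕ, L₀ ≤ L → ∀ η : Cfg, uu (L + 1) η ≤ n₀ →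
      |SS q L t f η - pis q (WW m) f| ≤ δ := by
  have hq1 : 0 < 1 - q := by linarith
  set B := ∑ A ∈ (WW m).powerset, |f (cfgOf A)| with hB
  have hB0 : 0 ≤ B := Finset.sum_nonneg fun _ _ => abs_nonneg _
  have hfB : ∀ η, |f η| ≤ B := by
    intro η
    rw [expand_cyl hf η]
    refine (Finset.abs_sum_le_sum_abs _ _).trans (Finset.sum_le_sum fun A _ => ?_)
    rw [abs_mul, abs_of_nonneg (cyl_nonneg _ _ _)]
    have := cyl_le_one (WW m) A η
    have := abs_nonneg (f (cfgOf A))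
    nlinarith
  set η' := δ / (16 * (B + 1)) with hη'
  have hη'0 : 0 < η' := by positivity
  have hη'B : 16 * (B + 1) * η' = δ := by rw [hη']; field_simp
  obtain ⟨lam, hlam, htight⟩ := tight h0 h1
  obtain ⟨Bt, hBt0, hBt⟩ := htight n₀
  set ε := min 1 η' with hε
  have hε0 : 0 < ε := lt_min one_pos hη'0
  have hε1 : ε ≤ 1 := min_le_left _ _
  have hε2 : ε ≤ η' := min_le_right _ _
  obtain ⟨M, hMm, hM0, hM1, hM2⟩ : ∃ M : ℕ, m ≤ M ∧ 0 < M ∧
      Real.exp (-(lam * (M + 1))) * Bt < η' ∧ (1 - q) ^ (2 * M + 1) < η' := by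
    have t1 : Tendsto (fun M : ℕ => Real.exp (-(lam * ((M:ℝ) + 1))) * Bt) atTop (𝓝 0) := by
      have h2 : Tendsto (fun M : ℕ => lam * ((M:ℝ) + 1)) atTop atTop :=
        Tendsto.const_mul_atTop hlam (tendsto_atTop_add_const_right _ _ tendsto_natCast_atTop_atTop)
      have h3 := (Real.tendsto_exp_neg_atTop_nhds_zero.comp h2).mul_const Bt
      simpa using h3
    have t2 : Tendsto (fun M : ℕ => (1 - q) ^ (2 * M + 1)) atTop (𝓝 0) := by
      have h2 := tendsto_pow_atTop_nhds_zero_of_lt_one hq1.le (by linarith : 1 - q < 1)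
      refine h2.comp ?_
      exact tendsto_atTop_mono (fun M : ℕ => (show M ≤ 2 * M + 1 by omega)) tendsto_id
    obtain ⟨M, h2, h3, h4, h5⟩ := ((eventually_ge_atTop m).and ((eventually_gt_atTop 0).and
      ((t1.eventually_lt_const hη'0).and (t2.eventually_lt_const hη'0)))).exists
    exact ⟨M, h2, h3, h4, h5⟩
  set ρ := q / (1 - q) with hρdef
  have hρ : 0 < ρ := div_pos h0 hq1
  set σ := Real.sqrt (1 / ρ ^ (2 * M + 1)) with hσ
  have hσ0 : 0 ≤ σ := Real.sqrt_nonneg _
  set Z := (1 + ρ) ^ (2 * M + 1) with hZ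
  have hZ0 : 0 < Z := by positivity
  set e := min 1 (η' / (Z * (2 * σ + 1))) with he
  have he0 : 0 < e := lt_min one_pos (by positivity)
  have he1 : e ≤ 1 := min_le_left _ _
  have he2 : Z * (e * (2 * σ + e)) ≤ η' := by
    have h2 : e ≤ η' / (Z * (2 * σ + 1)) := min_le_right _ _
    have h3 : e * (Z * (2 * σ + 1)) ≤ η' := by
      have h4 : 0 < Z * (2 * σ + 1) := by positivity
      rwa [le_div_iff₀ h4] at h2
    have h5 : Z * (e * (2 * σ + e)) ≤ Z * (e * (2 * σ + 1)) := by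
      refine mul_le_mul_of_nonneg_left (mul_le_mul_of_nonneg_left (by linarith) he0.le) hZ0.le
    linarith
  set cm := cmin q (2 * M + 1) with hcm
  have hcm0 : 0 < cm := cmin_pos h0 h1 _
  set w := ((2 * M + 1 : ℕ) : ℝ) with hw
  have hw0 : 0 < w := by rw [hw]; positivity
  set κ := cm * (e / w) ^ 2 / 4 with hκ
  have hκ0 : 0 < κ := by positivity
  obtain ⟨N, T, hMN, hT0, hT⟩ := DL_small h0 h1 hκ0 hM0 hε0 hε1
  refine ⟨T, hT0, fun t ht => ?_⟩
  have ht0 : 0 ≤ t := hT0.trans ht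
  obtain ⟨L₁, hL₁⟩ := hBt t ht0
  refine ⟨max L₁ N, fun L hL η hη => ?_⟩
  have hLL₁ : L₁ ≤ L := (le_max_left _ _).trans hL
  have hLN : N ≤ L := (le_max_right _ _).trans hL
  have hD := hT t ht L hLN η
  set φ := phi q L η N ε t with hφ
  have hst : IsState φ := isState_phi h0.le h1.le L η N hε0.le hε1 ht0
  have hee : w * Real.sqrt (DL q (PP φ (WW M)) (WW M) / cm) ≤ e := by
    have h2 : DL q (PP φ (WW M)) (WW M) / cm ≤ (e / w) ^ 2 := by
      rw [div_le_iff₀ hcm0]
      have h3 : 4 * κ = (e / w) ^ 2 * cm := by rw [hκ]; ring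
      rw [← h3]; exact hD
    have h3 : Real.sqrt (DL q (PP φ (WW M)) (WW M) / cm) ≤ e / w := by
      rw [← Real.sqrt_sq (show 0 ≤ e / w by positivity)]
      exact Real.sqrt_le_sqrt h2
    calc _ ≤ w * (e / w) := mul_le_mul_of_nonneg_left h3 hw0.le
      _ = e := by field_simp
  have hclose := PP_close h0 h1 hst M hee
  rw [← hρdef, ← hZ, ← hσ] at hclose
  -- the empty pattern
  have hempty : PP φ (WW M) ∅ ≤ 2 * η' := by
    have h2 := phi_le h0.le h1.le L η N hε0.le ht0 (cyl_nonneg (WW M) ∅) (cyl_le_one (WW M) ∅)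
    have h3 : ∀ ζ, cyl (WW M) ∅ ζ ≤ Real.exp (-(lam * (M + 1))) * Real.exp (lam * UU L ζ) := by
      intro ζ
      unfold cyl
      split_ifs with h
      · rw [← Real.exp_add]
        apply Real.one_le_exp
        have h4 : M + 1 ≤ uu (L + 1) ζ := by
          rw [le_uu_iff]
          refine ⟨by omega, fun x hx => ?_⟩
          have hxW : x ∈ WW M := by
            unfold WW
            rw [Finset.mem_Icc]; omega
          have := h x hxW
          simpa using this
        have h5 : (M:ℝ) + 1 ≤ UU L ζ := by unfold UU; exact_mod_cast h4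
        nlinarith
      · positivity
    have h4 := SS_mono h0.le h1.le L ht0 h3 η
    have h5 : (fun ζ => Real.exp (-(lam * (M + 1))) * Real.exp (lam * UU L ζ)) =
        Real.exp (-(lam * (M + 1))) • (fun ζ => Real.exp (lam * UU L ζ)) := rfl
    rw [h5, SS_lin_smul] at h4
    simp only [Pi.smul_apply, smul_eq_mul] at h4
    have h6 := mul_le_mul_of_nonneg_left (hL₁ L hLL₁ η hη) (Real.exp_pos (-(lam * ((M:ℝ) + 1)))).le
    have h7 : PP φ (WW M) ∅ ≤ SS q L t (cyl (WW M) ∅) η + ε * 1 := h2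
    linarith
  have hfM : ∀ η ζ : Cfg, (∀ x ∈ WW M, η x = ζ x) → f η = f ζ := fun η ζ h =>
    hf η ζ fun x hx => h x (WW_mono hMm hx)
  have hφf : |φ f - pis q (WW M) f| ≤ B * (2 * η' + 2 * (2 * η' + η')) := by
    rw [hst.expand hfM]
    unfold pis
    rw [← Finset.sum_sub_distrib]
    refine (Finset.abs_sum_le_sum_abs _ _).trans ?_
    calc ∑ A ∈ (WW M).powerset, |PP φ (WW M) A * f (cfgOf A) -
          q ^ A.card * (1 - q) ^ ((WW M).card - A.card) * f (cfgOf A)| ≤
        ∑ A ∈ (WW M).powerset, B * |PP φ (WW M) A - q ^ A.card * (1 - q) ^ ((WW M).card - A.card)| := by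
          refine Finset.sum_le_sum fun A _ => ?_
          rw [← sub_mul, abs_mul, mul_comm]
          exact mul_le_mul_of_nonneg_right (hfB _) (abs_nonneg _)
      _ ≤ _ := by
          rw [← Finset.mul_sum]
          refine mul_le_mul_of_nonneg_left ?_ hB0
          linarith
  have hSφ : |SS q L t f η - φ f| ≤ 2 * ε * B := by
    have h2 : SS q L t f η - φ f = ε * (SS q L t f η - PiS q N η f) := by
      rw [hφ]; unfold phi; ring
    rw [h2, abs_mul, abs_of_pos hε0]
    have h3 := SS_abs_le h0.le h1.le L ht0 hfB η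
    have h4 := (isState_PiS h0.le h1.le N η).abs_le hfB
    have h5 := abs_sub (SS q L t f η) (PiS q N η f)
    have h6 : |SS q L t f η - PiS q N η f| ≤ 2 * B := by linarith
    have := mul_le_mul_of_nonneg_left h6 hε0.le
    linarith
  rw [← pis_mono (WW_mono hMm) hf]
  have h7 : SS q L t f η - pis q (WW M) f = (SS q L t f η - φ f) + (φ f - pis q (WW M) f) := by ring
  rw [h7]
  refine (abs_add_le _ _).trans ?_
  have h8 : 2 * ε * B ≤ 2 * η' * B := by
    have := mul_le_mul_of_nonneg_right hε2 hB0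
    linarith
  nlinarith

end Pool.Agent.LibFA
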