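import Pool.Agent.LibFA.Mix

open Filter Topology

namespace Pool.Agent.LibFA

/-- centred window -/
noncomputable def WW (M : ℕ) : Finset ℤ := Finset.Icc (-(M:ℤ)) (M:ℤ)

theorem WW_mono {M N : ℕ} (h : M ≤ N) : WW M ⊆ WW N := by
  intro x hx
  unfold WW at *
  rw [Finset.mem_Icc] at *
  constructor <;> omega

/-- distance deficit in a centred window -/
noncomputable def Xf (M : ℕ) : Cfg → ℝ := fun η => (M:ℝ) + 1 - uu (M + 1) η

theorem uu_min {m n : ℕ} (h : m ≤ n) (η : Cfg) : uu m η = min m (uu n η) := by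
  apply le_antisymm
  · rw [le_min_iff]
    refine ⟨uu_le m η, ?_⟩
    rw [le_uu_iff]
    exact ⟨(uu_le m η).trans h, hole_uu m η⟩
  · rw [le_uu_iff]
    exact ⟨min_le_left _ _, hole_mono (min_le_right _ _) (hole_uu n η)⟩

theorem Xf_nonneg (M : ℕ) (η : Cfg) : 0 ≤ Xf M η := by
  unfold Xf
  have : (uu (M + 1) η : ℝ) ≤ ((M + 1 : ℕ) : ℝ) := by exact_mod_cast uu_le (M + 1) η
  push_cast at this
  linarith

theorem Xf_mono {M N : ℕ} (h : M ≤ N) (η : Cfg) : Xf M η ≤ Xf N η := by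
  unfold Xf
  have h1 := uu_min (show M + 1 ≤ N + 1 by omega) η
  have h2 := uu_le (N + 1) η
  have h3 : M + uu (N + 1) η ≤ N + uu (M + 1) η := by omega
  have h4 : (M:ℝ) + uu (N + 1) η ≤ N + uu (M + 1) η := by exact_mod_cast h3
  linarith

theorem Xf_eq {M n : ℕ} (h : M + 1 ≤ n) (η : Cfg) : Xf M η = max ((M:ℝ) + 1 - uu n η) 0 := by
  unfold Xf
  rw [uu_min h η]
  push_cast
  rcases le_total ((M:ℝ) + 1) (uu n η : ℝ) with h' | h'
  · rw [min_eq_left h', max_eq_right (by linarith)]; ring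
  · rw [min_eq_right h', max_eq_left (by linarith)]

theorem Xf_le (M : ℕ) (η : Cfg) : Xf M η ≤ (M:ℝ) + 1 := by
  unfold Xf
  have : (0:ℝ) ≤ uu (M + 1) η := Nat.cast_nonneg _
  linarith

theorem weight_sum {κ : ℝ} (hκ : 0 < κ) (D : ℕ → ℝ) (J : ℕ) :
    ∑ j ∈ Finset.range J, (1 + κ)⁻¹ ^ j * ((D (j + 1) - D j) / κ) =
      ∑ j ∈ Finset.range J, (1 + κ)⁻¹ ^ j * D j + (1 + κ) / κ * ((1 + κ)⁻¹ ^ J * D J - D 0) := by
  induction J with
  | zero => simp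
  | succ J ih =>
    rw [Finset.sum_range_succ, Finset.sum_range_succ, ih, pow_succ]
    have h1 : (1 + κ) ≠ 0 := by positivity
    field_simp
    ring

/-- weighted dissipation -/
noncomputable def DDw (q : ℝ) (φ : (Cfg → ℝ) → ℝ) (κ : ℝ) (w M₀ J : ℕ) : ℝ :=
  ∑ j ∈ Finset.range J, (1 + κ)⁻¹ ^ j * DL q (PP φ (WW (M₀ + w * j))) (WW (M₀ + w * j))

/-- weighted entropy -/
noncomputable def HHw (q : ℝ) (φ : (Cfg → ℝ) → ℝ) (κ : ℝ) (w M₀ J : ℕ) : ℝ :=
  ∑ j ∈ Finset.range J, (1 + κ)⁻¹ ^ j * HH q φ (WW (M₀ + w * j))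

noncomputable def Om (κ : ℝ) (J : ℕ) : ℝ := ∑ j ∈ Finset.range J, (1 + κ)⁻¹ ^ j

theorem Om_ge_one {κ : ℝ} (hκ : 0 < κ) {J : ℕ} (hJ : 0 < J) : 1 ≤ Om κ J := by
  unfold Om
  have h := Finset.single_le_sum (f := fun j => (1 + κ)⁻¹ ^ j) (s := Finset.range J)
    (fun j _ => by positivity) (Finset.mem_range.2 hJ)
  simpa using h

/-- entropy production with weights -/
theorem weighted_flux {q : ℝ} (h0 : 0 < q) (h1 : q < 1) {φ : (Cfg → ℝ) → ℝ} (hφ : IsState φ) (L : ℕ)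
    {κ : ℝ} (hκ : 0 < κ) {w M₀ J : ℕ} (hw : 0 < w) (hM : 0 < M₀) (hL : M₀ + w * J ≤ L)
    (hpos : ∀ j < J, ∀ A, A ⊆ WW (M₀ + w * j) → 0 < PP φ (WW (M₀ + w * j)) A) :
    ∑ j ∈ Finset.range J, (1 + κ)⁻¹ ^ j * (∑ A ∈ (WW (M₀ + w * j)).powerset,
      φ (gen q L (cyl (WW (M₀ + w * j)) A)) * GG q φ (WW (M₀ + w * j)) A) ≤
    -DDw q φ κ w M₀ J + 2 * κ * Om κ J +
      (1 + κ) / κ * ((1 + κ)⁻¹ ^ J * (4 * φ (Xf (M₀ + w * J)))) := by
  set D : ℕ → ℝ := fun j => DL q (PP φ (WW (M₀ + w * j))) (WW (M₀ + w * j)) with hD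
  have hpt : ∀ j ∈ Finset.range J, (1 + κ)⁻¹ ^ j * (∑ A ∈ (WW (M₀ + w * j)).powerset,
      φ (gen q L (cyl (WW (M₀ + w * j)) A)) * GG q φ (WW (M₀ + w * j)) A) ≤
      (1 + κ)⁻¹ ^ j * (-2 * D j) + (1 + κ)⁻¹ ^ j * (2 * κ) + (1 + κ)⁻¹ ^ j * ((D (j + 1) - D j) / κ) := by
    intro j hj
    rw [Finset.mem_range] at hj
    have hjw : w * j + w ≤ w * J := by
      calc w * j + w = w * (j + 1) := by ring
        _ ≤ w * J := Nat.mul_le_mul_left w hj
    rw [← mul_add, ← mul_add]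
    refine mul_le_mul_of_nonneg_left ?_ (by positivity)
    have hab : (-((M₀ + w * j : ℕ):ℤ)) < ((M₀ + w * j : ℕ):ℤ) := by omega
    have hWL : Finset.Icc (-((M₀ + w * j : ℕ):ℤ)) ((M₀ + w * j : ℕ):ℤ) ⊆ Finset.Icc (-(L:ℤ)) (L:ℤ) :=
      WW_mono (M := M₀ + w * j) (N := L) (by omega)
    have h2 := window_ineq h0 h1 hφ L hab hWL (hpos j hj) hκ
    have h3 : DL q (PP φ (Finset.Icc (-((M₀ + w * j : ℕ):ℤ) - 1) (((M₀ + w * j : ℕ):ℤ) + 1)))
        (Finset.Icc (-((M₀ + w * j : ℕ):ℤ) - 1) (((M₀ + w * j : ℕ):ℤ) + 1)) ≤ D (j + 1) := by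
      apply DL_PP_mono h0.le h1.le hφ
      intro x hx
      rw [Finset.mem_Icc] at hx
      unfold WW
      rw [Finset.mem_Icc]
      have e : w * (j + 1) = w * j + w := by ring
      rw [e]
      push_cast at hx ⊢
      constructor <;> omega
    have h4 := div_le_div_of_nonneg_right (sub_le_sub_right h3 (D j)) hκ.le
    calc _ ≤ -2 * D j + 2 * κ + (DL q (PP φ (Finset.Icc (-((M₀ + w * j : ℕ):ℤ) - 1) (((M₀ + w * j : ℕ):ℤ) + 1)))
        (Finset.Icc (-((M₀ + w * j : ℕ):ℤ) - 1) (((M₀ + w * j : ℕ):ℤ) + 1)) - D j) / κ := h2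
      _ ≤ _ := by linarith
  refine (Finset.sum_le_sum hpt).trans ?_
  rw [Finset.sum_add_distrib, Finset.sum_add_distrib, weight_sum hκ D J]
  have hDJ : D J ≤ 4 * φ (Xf (M₀ + w * J)) := by
    have h5 := DL_le_inf h0.le h1.le hφ (WW (M₀ + w * J))
    have h6 := sum_card_le hφ (M₀ + w * J)
    have h7 : D J ≤ 2 * ∑ A ∈ (WW (M₀ + w * J)).powerset, PP φ (WW (M₀ + w * J)) A * (A.card : ℝ) := h5
    have h8 : ∑ A ∈ (WW (M₀ + w * J)).powerset, PP φ (WW (M₀ + w * J)) A * (A.card : ℝ) ≤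
      2 * φ (Xf (M₀ + w * J)) := h6
    linarith
  have hD0 : 0 ≤ D 0 := DL_nonneg _ _ _
  have e1 : ∑ j ∈ Finset.range J, (1 + κ)⁻¹ ^ j * (-2 * D j) = -2 * DDw q φ κ w M₀ J := by
    unfold DDw
    rw [Finset.mul_sum]
    exact Finset.sum_congr rfl fun j _ => by ring
  have e2 : ∑ j ∈ Finset.range J, (1 + κ)⁻¹ ^ j * (2 * κ) = 2 * κ * Om κ J := by
    unfold Om
    rw [Finset.mul_sum]
    exact Finset.sum_congr rfl fun j _ => by ring
  have e3 : ∑ j ∈ Finset.range J, (1 + κ)⁻¹ ^ j * D j = DDw q φ κ w M₀ J := rfl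
  rw [e1, e2, e3]
  have h9 : (1 + κ) / κ * ((1 + κ)⁻¹ ^ J * D J - D 0) ≤
      (1 + κ) / κ * ((1 + κ)⁻¹ ^ J * (4 * φ (Xf (M₀ + w * J)))) := by
    refine mul_le_mul_of_nonneg_left ?_ (by positivity)
    have : (1 + κ)⁻¹ ^ J * D J ≤ (1 + κ)⁻¹ ^ J * (4 * φ (Xf (M₀ + w * J))) :=
      mul_le_mul_of_nonneg_left hDJ (by positivity)
    linarith
  linarith

theorem HHw_le {q : ℝ} (h0 : 0 < q) (h1 : q < 1) {φ : (Cfg → ℝ) → ℝ} (hφ : IsState φ)
    {κ : ℝ} (hκ : 0 < κ) {w M₀ J i : ℕ} (hw : 0 < w) (hZ : 3 ≤ (1 + q / (1 - q)) ^ w)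
    (hi : 2 * M₀ + 1 = i * w)
    (hpos : ∀ j < J, ∀ A, A ⊆ WW (M₀ + w * j) → 0 < PP φ (WW (M₀ + w * j)) A) :
    HHw q φ κ w M₀ J ≤ CB q w * DDw q φ κ w M₀ J := by
  unfold HHw DDw
  rw [Finset.mul_sum]
  refine Finset.sum_le_sum fun j hj => ?_
  rw [Finset.mem_range] at hj
  have e : WW (M₀ + w * j) = Finset.Icc (-((M₀ + w * j : ℕ):ℤ)) (-((M₀ + w * j : ℕ):ℤ) + ((i + 2 * j : ℕ):ℤ) * w - 1) := by
    unfold WW
    congr 1
    have : ((2 * M₀ + 1 : ℕ):ℤ) = ((i * w : ℕ):ℤ) := by rw [hi]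
    push_cast at this ⊢
    linarith
  have h2 := HH_le_DL h0 h1 hw hZ hφ (-((M₀ + w * j : ℕ):ℤ)) (i + 2 * j) (by
    rw [← e]; exact hpos j hj)
  rw [← e] at h2
  have h3 : (0:ℝ) ≤ (1 + κ)⁻¹ ^ j := by positivity
  calc _ ≤ (1 + κ)⁻¹ ^ j * (CB q w * DL q (PP φ (WW (M₀ + w * j))) (WW (M₀ + w * j))) :=
        mul_le_mul_of_nonneg_left h2 h3
    _ = _ := by ring

theorem HHw_lower {q : ℝ} (h0 : 0 < q) (h1 : q < 1) {φ : (Cfg → ℝ) → ℝ} (hφ : IsState φ)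
    {κ : ℝ} (hκ : 0 < κ) {w M₀ J : ℕ}
    (hpos : ∀ j < J, ∀ A, A ⊆ WW (M₀ + w * j) → 0 < PP φ (WW (M₀ + w * j)) A) {ε : ℝ} (hε : 0 < ε) :
    -HHw q φ κ w M₀ J ≤ Om κ J *
      (2 * (ll q + ε) * φ (Xf (M₀ + w * J)) + Real.log ((1 - Real.exp (-(2 * ε)))⁻¹)) := by
  unfold HHw Om
  rw [Finset.sum_mul, ← Finset.sum_neg_distrib]
  refine Finset.sum_le_sum fun j hj => ?_
  rw [Finset.mem_range] at hj
  rw [← mul_neg]
  refine mul_le_mul_of_nonneg_left ?_ (by positivity)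
  have h2 := HH_lower h0 h1 hφ (M₀ + w * j) (hpos j hj) hε
  have h3 : φ (Xf (M₀ + w * j)) ≤ φ (Xf (M₀ + w * J)) :=
    hφ.mono fun η => Xf_mono (by
      have : w * j ≤ w * J := Nat.mul_le_mul_left w hj.le
      omega) η
  have h4 : 0 ≤ 2 * (ll q + ε) := by
    have := ll_pos h0 h1
    linarith
  have h5 := mul_le_mul_of_nonneg_left h3 h4
  have h6 : -HH q φ (WW (M₀ + w * j)) ≤
      2 * (ll q + ε) * φ (Xf (M₀ + w * j)) + Real.log ((1 - Real.exp (-(2 * ε)))⁻¹) := h2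
  linarith

/-- trivial upper bound of the entropy by the expected number of infected sites -/
theorem HH_upper {q : ℝ} {φ : (Cfg → ℝ) → ℝ} (hφ : IsState φ) (M : ℕ) :
    HH q φ (WW M) ≤ 2 * |Real.log (q / (1 - q))| * φ (Xf M) := by
  have h6 : ∑ A ∈ (WW M).powerset, PP φ (WW M) A * (A.card : ℝ) ≤ 2 * φ (Xf M) := sum_card_le hφ M
  have h7 : HH q φ (WW M) ≤ |Real.log (q / (1 - q))| *
      ∑ A ∈ (WW M).powerset, PP φ (WW M) A * (A.card : ℝ) := by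
    unfold HH GG
    rw [Finset.mul_sum]
    refine Finset.sum_le_sum fun A hA => ?_
    have p0 := PP_nonneg hφ (WW M) A
    have p1 : PP φ (WW M) A ≤ 1 := by
      rw [← sum_PP hφ (WW M)]
      exact Finset.single_le_sum (fun A _ => PP_nonneg hφ (WW M) A) hA
    have p2 : PP φ (WW M) A * Real.log (PP φ (WW M) A) ≤ 0 :=
      mul_nonpos_of_nonneg_of_nonpos p0 (Real.log_nonpos p0 p1)
    have p3 : -(A.card * Real.log (q / (1 - q))) ≤ |Real.log (q / (1 - q))| * A.card := by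
      have := neg_abs_le (Real.log (q / (1 - q)))
      have hc : (0:ℝ) ≤ A.card := Nat.cast_nonneg _
      nlinarith
    have p4 := mul_le_mul_of_nonneg_left p3 p0
    nlinarith
  have h8 := mul_le_mul_of_nonneg_left h6 (abs_nonneg (Real.log (q / (1 - q))))
  linarith

theorem HHw_upper {q : ℝ} {φ : (Cfg → ℝ) → ℝ} (hφ : IsState φ)
    {κ : ℝ} (hκ : 0 < κ) {w M₀ J : ℕ} :
    HHw q φ κ w M₀ J ≤ Om κ J * (2 * |Real.log (q / (1 - q))| * φ (Xf (M₀ + w * J))) := by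
  unfold HHw Om
  rw [Finset.sum_mul]
  refine Finset.sum_le_sum fun j hj => ?_
  rw [Finset.mem_range] at hj
  refine mul_le_mul_of_nonneg_left ?_ (by positivity)
  have h2 := HH_upper (q := q) hφ (M₀ + w * j)
  have h3 : φ (Xf (M₀ + w * j)) ≤ φ (Xf (M₀ + w * J)) :=
    hφ.mono fun η => Xf_mono (by
      have : w * j ≤ w * J := Nat.mul_le_mul_left w hj.le
      omega) η
  have h5 := mul_le_mul_of_nonneg_left h3 (show 0 ≤ 2 * |Real.log (q / (1 - q))| by positivity)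
  linarith

theorem HHw_deriv {q : ℝ} (h0 : 0 < q) (h1 : q < 1) (L : ℕ) (η : Cfg) (n : ℕ) {ε t : ℝ}
    (hε0 : 0 < ε) (hε1 : ε ≤ 1) (ht : 0 ≤ t) (κ : ℝ) {w M₀ J : ℕ} (hn : M₀ + w * J ≤ n) :
    HasDerivAt (fun s => HHw q (phi q L η n ε s) κ w M₀ J)
      (∑ j ∈ Finset.range J, (1 + κ)⁻¹ ^ j * (∑ A ∈ (WW (M₀ + w * j)).powerset,
      phi q L η n ε t (gen q L (cyl (WW (M₀ + w * j)) A)) * GG q (phi q L η n ε t) (WW (M₀ + w * j)) A)) t := by
  unfold HHw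
  refine HasDerivAt.fun_sum fun j hj => ?_
  rw [Finset.mem_range] at hj
  have hW : WW (M₀ + w * j) ⊆ Finset.Icc (-(n:ℤ)) n := WW_mono (by
    have : w * j ≤ w * J := Nat.mul_le_mul_left w hj.le
    omega)
  exact (HH_deriv h0 h1 L η n hε0 hε1 ht hW).const_mul _

/-- the key entropy inequality -/
theorem key_ineq {q : ℝ} (h0 : 0 < q) (h1 : q < 1) {w : ℕ} (hw : 0 < w)
    (hZ : 3 ≤ (1 + q / (1 - q)) ^ w) {κ : ℝ} (hκ : 0 < κ) (L : ℕ) (η : Cfg) (n : ℕ) {ε : ℝ}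
    (hε0 : 0 < ε) (hε1 : ε ≤ 1) {M₀ J i : ℕ} (hM : 0 < M₀) (hJ : 0 < J) (hi : 2 * M₀ + 1 = i * w)
    (hL : M₀ + w * J ≤ L) (hn : M₀ + w * J ≤ n) {s T d₀ C : ℝ} (hs : 0 ≤ s) (hsT : s ≤ T)
    (hC : 0 < C) (hCB : CB q w ≤ C)
    (hrem : ∀ t, 0 ≤ t → t ≤ T →
      (1 + κ) / κ * ((1 + κ)⁻¹ ^ J * (4 * phi q L η n ε t (Xf (M₀ + w * J)))) ≤ κ)
    (hd : ∀ t, 0 ≤ t → t ≤ T → d₀ ≤ DL q (PP (phi q L η n ε t) (WW M₀)) (WW M₀)) :
    (T - s) * (d₀ - 3 * κ) ≤ 2 * (ll q + 1) * phi q L η n ε T (Xf (M₀ + w * J)) +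
      Real.log ((1 - Real.exp (-(2 * 1)))⁻¹) + 3 * κ * C +
      Real.exp (-(s / C)) * (2 * |Real.log (q / (1 - q))| * phi q L η n ε 0 (Xf (M₀ + w * J))) := by
  set h : ℝ → ℝ := fun t => HHw q (phi q L η n ε t) κ w M₀ J with hh
  set Ω := Om κ J with hΩ
  have hΩ1 : 1 ≤ Ω := Om_ge_one hκ hJ
  have hjn : ∀ j < J, M₀ + w * j ≤ n := fun j hj => by
    have : w * j ≤ w * J := Nat.mul_le_mul_left w hj.le
    omega
  have hst : ∀ t, 0 ≤ t → IsState (phi q L η n ε t) := fun t ht =>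
    isState_phi h0.le h1.le L η n hε0.le hε1 ht
  have hpos : ∀ t, 0 ≤ t → ∀ j < J, ∀ A, A ⊆ WW (M₀ + w * j) →
      0 < PP (phi q L η n ε t) (WW (M₀ + w * j)) A := fun t ht j hj A hA =>
    phi_pos h0 h1 L η n hε0 hε1 ht (WW_mono (hjn j hj)) hA
  set h' : ℝ → ℝ := fun t => (∑ j ∈ Finset.range J, (1 + κ)⁻¹ ^ j * (∑ A ∈ (WW (M₀ + w * j)).powerset,
      phi q L η n ε t (gen q L (cyl (WW (M₀ + w * j)) A)) *
        GG q (phi q L η n ε t) (WW (M₀ + w * j)) A)) with hh'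
  have hder : ∀ t, 0 ≤ t → HasDerivAt h (h' t) t := fun t ht =>
    HHw_deriv h0 h1 L η n hε0 hε1 ht κ hn
  have hbd : ∀ t, 0 ≤ t → t ≤ T → h' t ≤ -DDw q (phi q L η n ε t) κ w M₀ J + 3 * κ * Ω := by
    intro t ht htT
    have h2 := weighted_flux h0 h1 (hst t ht) L hκ hw hM hL (hpos t ht)
    have h3 := hrem t ht htT
    have h4 : κ ≤ κ * Ω := by nlinarith
    simp only [hh']
    linarith
  -- first phase
  have hph1 : h s ≤ 3 * κ * Ω * C + Real.exp (-(s / C)) * (h 0 - 3 * κ * Ω * C) := by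
    set g : ℝ → ℝ := fun t => Real.exp (t / C) * (h t - 3 * κ * Ω * C) with hg
    have hgd : ∀ t, 0 ≤ t → HasDerivAt g (Real.exp (t / C) * (1 / C) * (h t - 3 * κ * Ω * C) +
        Real.exp (t / C) * h' t) t := by
      intro t ht
      have e1 : HasDerivAt (fun t : ℝ => Real.exp (t / C)) (Real.exp (t / C) * (1 / C)) t :=
        ((hasDerivAt_id t).div_const C).exp
      have e2 : HasDerivAt (fun t => h t - 3 * κ * Ω * C) (h' t) t := (hder t ht).sub_const _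
      exact e1.mul e2
    have hanti : AntitoneOn g (Set.Icc 0 s) := by
      refine antitoneOn_of_deriv_nonpos (convex_Icc 0 s)
        (fun t ht => (hgd t ht.1).continuousAt.continuousWithinAt) ?_ ?_
      · intro t ht
        rw [interior_Icc] at ht
        exact (hgd t ht.1.le).differentiableAt.differentiableWithinAt
      · intro t ht
        rw [interior_Icc] at ht
        rw [(hgd t ht.1.le).deriv]
        have h5 := hbd t ht.1.le (ht.2.le.trans hsT)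
        have h6 := HHw_le h0 h1 (hst t ht.1.le) hκ hw hZ hi (hpos t ht.1.le)
        have h7 : 0 ≤ DDw q (phi q L η n ε t) κ w M₀ J :=
          Finset.sum_nonneg fun j _ => mul_nonneg (by positivity) (DL_nonneg _ _ _)
        have h8 : h t ≤ C * DDw q (phi q L η n ε t) κ w M₀ J :=
          h6.trans (mul_le_mul_of_nonneg_right hCB h7)
        have h9 : h t / C ≤ DDw q (phi q L η n ε t) κ w M₀ J := by
          rw [div_le_iff₀ hC]; linarith
        have e3 : Real.exp (t / C) * (1 / C) * (h t - 3 * κ * Ω * C) + Real.exp (t / C) * h' t =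
            Real.exp (t / C) * (h t / C - 3 * κ * Ω + h' t) := by
          field_simp
        rw [e3]
        exact mul_nonpos_of_nonneg_of_nonpos (Real.exp_pos _).le (by linarith)
    have h10 := hanti (Set.left_mem_Icc.2 hs) (Set.right_mem_Icc.2 hs) hs
    simp only [hg, zero_div, Real.exp_zero, one_mul] at h10
    have h11 : Real.exp (-(s / C)) * (Real.exp (s / C) * (h s - 3 * κ * Ω * C)) ≤
        Real.exp (-(s / C)) * (h 0 - 3 * κ * Ω * C) :=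
      mul_le_mul_of_nonneg_left h10 (Real.exp_pos _).le
    rw [← mul_assoc, ← Real.exp_add, neg_add_cancel, Real.exp_zero, one_mul] at h11
    linarith
  -- second phase
  have hph2 : h T ≤ h s - (T - s) * (d₀ - 3 * κ) * Ω := by
    set g : ℝ → ℝ := fun t => h t + t * ((d₀ - 3 * κ) * Ω) with hg
    have hgd : ∀ t, 0 ≤ t → HasDerivAt g (h' t + 1 * ((d₀ - 3 * κ) * Ω)) t := by
      intro t ht
      exact (hder t ht).add ((hasDerivAt_id t).mul_const _)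
    have hanti : AntitoneOn g (Set.Icc s T) := by
      refine antitoneOn_of_deriv_nonpos (convex_Icc s T)
        (fun t ht => (hgd t (hs.trans ht.1)).continuousAt.continuousWithinAt) ?_ ?_
      · intro t ht
        rw [interior_Icc] at ht
        exact (hgd t (hs.trans ht.1.le)).differentiableAt.differentiableWithinAt
      · intro t ht
        rw [interior_Icc] at ht
        have ht0 := hs.trans ht.1.le
        rw [(hgd t ht0).deriv]
        have h5 := hbd t ht0 ht.2.le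
        have h7 : d₀ * Ω ≤ DDw q (phi q L η n ε t) κ w M₀ J := by
          unfold DDw
          rw [hΩ]
          unfold Om
          rw [Finset.mul_sum]
          refine Finset.sum_le_sum fun j _ => ?_
          rw [mul_comm]
          refine mul_le_mul_of_nonneg_left ?_ (by positivity)
          exact (hd t ht0 ht.2.le).trans (DL_PP_mono h0.le h1.le (hst t ht0) (WW_mono (by omega)))
        linarith
    have h10 := hanti (Set.left_mem_Icc.2 hsT) (Set.right_mem_Icc.2 hsT) hsT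
    simp only [hg] at h10
    linarith
  have hlow := HHw_lower h0 h1 (hst T (hs.trans hsT)) hκ (hpos T (hs.trans hsT)) (ε := 1) one_pos
  have hup := HHw_upper (q := q) (hst 0 le_rfl) hκ (w := w) (M₀ := M₀) (J := J)
  have he1 : 0 < Real.exp (-(s / C)) := Real.exp_pos _
  set X := phi q L η n ε T (Xf (M₀ + w * J)) with hX
  set X0 := phi q L η n ε 0 (Xf (M₀ + w * J)) with hX0
  set Z := Real.log ((1 - Real.exp (-(2 * 1)))⁻¹) with hZdef
  have h12 : Real.exp (-(s / C)) * (h 0 - 3 * κ * Ω * C) ≤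
      Real.exp (-(s / C)) * (Ω * (2 * |Real.log (q / (1 - q))| * X0)) := by
    refine mul_le_mul_of_nonneg_left ?_ he1.le
    have : 0 ≤ 3 * κ * Ω * C := by positivity
    simp only [hh]
    linarith
  have h13 : (T - s) * (d₀ - 3 * κ) * Ω ≤ (2 * (ll q + 1) * X + Z + 3 * κ * C +
      Real.exp (-(s / C)) * (2 * |Real.log (q / (1 - q))| * X0)) * Ω := by
    have e4 : -h T ≤ Ω * (2 * (ll q + 1) * X + Z) := hlow
    nlinarith
  exact le_of_mul_le_mul_right h13 (by linarith)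

end Pool.Agent.LibFA
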