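import Pool.Agent.LibFA.Equil

open Filter Topology MeasureTheory

namespace Pool.Agent.LibFA

theorem AA_pow (q : ℝ) (L n : ℕ) : ∀ v : XX L → ℝ, ((AA q L) ^ n) v = ((MM q L) ^ n).mulVec v := by
  induction n with
  | zero => intro v; simp
  | succ n ih =>
    intro v
    rw [pow_succ, pow_succ, ← Matrix.mulVec_mulVec, ← ih]
    rfl

theorem hasSum_entry (q : ℝ) (L : ℕ) (t : ℝ) (σ τ : XX L) :
    HasSum (fun n : ℕ => t ^ n / (Nat.factorial n : ℝ) * ((MM q L) ^ n) σ τ)
      ((NormedSpace.exp (t • AA q L)) (Pi.single τ 1) σ) := by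
  have h3 := NormedSpace.exp_series_hasSum_exp' (𝕂 := ℝ) (t • AA q L)
  have h4 := h3.mapL ((ContinuousLinearMap.proj (R := ℝ) (φ := fun _ : XX L => ℝ) σ).comp
    (ContinuousLinearMap.apply ℝ (XX L → ℝ) (Pi.single τ 1)))
  have h6 : (NormedSpace.exp (t • AA q L)) (Pi.single τ 1) σ =
      ((ContinuousLinearMap.proj (R := ℝ) (φ := fun _ : XX L => ℝ) σ).comp
    (ContinuousLinearMap.apply ℝ (XX L → ℝ) (Pi.single τ 1))) (NormedSpace.exp (t • AA q L)) := rfl
  rw [h6]
  refine h4.congr_fun ?_
  intro n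
  have h7 : (((MM q L) ^ n).mulVec (Pi.single τ 1)) σ = ((MM q L) ^ n) σ τ := by
    rw [Matrix.mulVec_single_one]; rfl
  rw [← h7, ← AA_pow, smul_pow, div_eq_mul_inv, mul_comm (t ^ n), mul_assoc]
  rfl

theorem SS_eq_series (q : ℝ) (L : ℕ) (t : ℝ) (f : Cfg → ℝ) (η : Cfg) :
    ∑ τ : XX L, (∑' n : ℕ, t ^ n / (Nat.factorial n : ℝ) * ((MM q L) ^ n) (res L η) τ) *
      f (emb L η τ) = SS q L t f η := by
  have h1 : ∀ τ : XX L, (∑' n : ℕ, t ^ n / (Nat.factorial n : ℝ) * ((MM q L) ^ n) (res L η) τ) =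
      (NormedSpace.exp (t • AA q L)) (Pi.single τ 1) (res L η) :=
    fun τ => (hasSum_entry q L t (res L η) τ).tsum_eq
  simp only [h1]
  unfold SS
  have h2 : (fun τ => f (emb L η τ)) = ∑ τ : XX L, f (emb L η τ) • (Pi.single τ (1:ℝ) : XX L → ℝ) := by
    funext τ'
    rw [Finset.sum_apply]
    simp only [Pi.smul_apply, Pi.single_apply, smul_eq_mul, mul_ite, mul_one, mul_zero,
      Finset.sum_ite_eq, Finset.mem_univ, if_true]
  conv_rhs => rw [h2]
  rw [map_sum, Finset.sum_apply]
  refine Finset.sum_congr rfl fun τ _ => ?_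
  rw [map_smul, Pi.smul_apply, smul_eq_mul, mul_comm]

theorem pis_eq (q : ℝ) (S : Finset ℤ) (f : Cfg → ℝ) :
    (∑ σ : ({x : ℤ // x ∈ S} → Bool),
          (∏ x : {x : ℤ // x ∈ S}, (if σ x = true then q else 1 - q))
          * f (fun y => if h : y ∈ S then σ ⟨y, h⟩ else false)) = pis q S f := by
  classical
  unfold pis
  symm
  refine Finset.sum_bij' (fun A _ => fun x : {x : ℤ // x ∈ S} => decide (x.1 ∈ A))
    (fun σ _ => (Finset.univ.filter (fun x : {x : ℤ // x ∈ S} => σ x = true)).image Subtype.val)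
    (fun _ _ => Finset.mem_univ _) ?_ ?_ ?_ ?_
  · intro σ _
    rw [Finset.mem_powerset]
    intro x hx
    rw [Finset.mem_image] at hx
    obtain ⟨y, _, rfl⟩ := hx
    exact y.2
  · intro A hA
    rw [Finset.mem_powerset] at hA
    ext x
    simp only [Finset.mem_image, Finset.mem_filter, Finset.mem_univ, true_and, decide_eq_true_eq,
      Subtype.exists, exists_and_left, exists_prop, exists_eq_right_right]
    exact ⟨fun h => h.1, fun h => ⟨h, hA h⟩⟩
  · intro σ _
    funext x
    by_cases h : σ x = true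
    · rw [h]
      rw [decide_eq_true_eq, Finset.mem_image]
      exact ⟨x, by simpa using h, rfl⟩
    · have h' : σ x = false := by simpa using h
      rw [h', decide_eq_false_iff_not, Finset.mem_image]
      rintro ⟨y, hy, hyx⟩
      have : y = x := Subtype.ext hyx
      subst this
      simp [h'] at hy
  · intro A hA
    rw [Finset.mem_powerset] at hA
    have e1 : ∏ x : {x : ℤ // x ∈ S}, (if decide (x.1 ∈ A) = true then q else 1 - q) =
        q ^ A.card * (1 - q) ^ (S.card - A.card) := by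
      have h2 : ∏ x : {x : ℤ // x ∈ S}, (if decide (x.1 ∈ A) = true then q else 1 - q) =
          ∏ x ∈ S, (if x ∈ A then q else 1 - q) := by
        rw [Finset.univ_eq_attach, Finset.prod_attach S (fun x => if decide (x ∈ A) = true then q else 1 - q)]
        simp only [decide_eq_true_eq]
      rw [h2, Finset.prod_ite, Finset.prod_const, Finset.prod_const]
      have h3 : S.filter (fun x => x ∈ A) = A := by
        ext x; rw [Finset.mem_filter]; exact ⟨fun h => h.2, fun h => ⟨hA h, h⟩⟩
      have h4 : S.filter (fun x => x ∉ A) = S \ A := by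
        ext x; rw [Finset.mem_filter, Finset.mem_sdiff]
      rw [h3, h4, Finset.card_sdiff_of_subset hA]
    rw [e1]
    congr 2
    funext y
    unfold cfgOf
    split_ifs with h
    · rfl
    · have : y ∉ A := fun h' => h (hA h')
      simp [this]

/-- the set of configurations with a large hole -/
theorem hole_small (ν : Measure Cfg) [IsProbabilityMeasure ν]
    (hν : ν {η : Cfg | ∃ x, η x = true} = 1) {δ : ℝ} (hδ : 0 < δ) :
    ∃ n : ℕ, MeasurableSet {η : Cfg | hole (n + 1) η} ∧ ν.real {η : Cfg | hole (n + 1) η} < δ := by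
  have hmeas : ∀ n : ℕ, MeasurableSet {η : Cfg | hole n η} := by
    intro n
    have : {η : Cfg | hole n η} = ⋂ x : ℤ, {η : Cfg | x.natAbs < n → η x = false} := by
      ext η; simp [hole]
    rw [this]
    refine MeasurableSet.iInter fun x => ?_
    by_cases h : x.natAbs < n
    · simp only [h, true_imp_iff]
      exact measurableSet_eq_fun (measurable_pi_apply x) measurable_const
    · simp [h]
  have hanti : Antitone (fun n : ℕ => {η : Cfg | hole n η}) := by
    intro m n h η hη
    exact hole_mono h hη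
  have hlim := tendsto_measure_iInter_atTop (μ := ν) (s := fun n : ℕ => {η : Cfg | hole n η})
    (fun n => (hmeas n).nullMeasurableSet) hanti ⟨0, measure_ne_top _ _⟩
  have hint : (⋂ n : ℕ, {η : Cfg | hole n η}) = {η : Cfg | ∃ x, η x = true}ᶜ := by
    ext η
    simp only [Set.mem_iInter, Set.mem_ofPred_eq, Set.mem_compl_iff, not_exists]
    constructor
    · intro h x hx
      have := h (x.natAbs + 1) x (by omega)
      rw [hx] at this
      exact absurd this (by simp)
    · intro h n x _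
      have := h x
      simpa using this
  have hmeasE : MeasurableSet {η : Cfg | ∃ x, η x = true} := by
    have : {η : Cfg | ∃ x, η x = true} = ⋃ x : ℤ, {η : Cfg | η x = true} := by
      ext η; simp
    rw [this]
    exact MeasurableSet.iUnion fun x => measurableSet_eq_fun (measurable_pi_apply x) measurable_const
  rw [hint, (prob_compl_eq_zero_iff hmeasE).2 hν] at hlim
  have h2 : Tendsto (fun n : ℕ => ν.real {η : Cfg | hole n η}) atTop (𝓝 0) := by
    exact (ENNReal.tendsto_toReal (show (0:ENNReal) ≠ ⊤ by simp)).comp hlim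
  obtain ⟨n, hn1, hn2⟩ := ((h2.eventually_lt_const hδ).and (eventually_gt_atTop 0)).exists
  obtain ⟨k, rfl⟩ : ∃ k, n = k + 1 := ⟨n - 1, by omega⟩
  exact ⟨k, hmeas _, hn1⟩

theorem final {q : ℝ} (h0 : 0 < q) (h1 : q < 1) (f : Cfg → ℝ) (S : Finset ℤ)
    (hf : ∀ η η' : Cfg, (∀ x ∈ S, η x = η' x) → f η = f η') (ν : Measure Cfg) [IsProbabilityMeasure ν]
    (hν : ν {η : Cfg | ∃ x, η x = true} = 1) {ε : ℝ} (hε : 0 < ε) :
    ∃ T : ℝ, ∀ t : ℝ, T ≤ t → ∃ L₀ : ℕ, ∀ L : ℕ, L₀ ≤ L →
      |(∫ η, SS q L t f η ∂ν) - pis q S f| < ε := by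
  obtain ⟨m, hm⟩ : ∃ m : ℕ, S ⊆ WW m := by
    refine ⟨S.sup (fun x : ℤ => x.natAbs), fun x hx => ?_⟩
    have h2 : x.natAbs ≤ S.sup (fun x : ℤ => x.natAbs) := Finset.le_sup (f := fun x : ℤ => x.natAbs) hx
    unfold WW
    rw [Finset.mem_Icc]
    omega
  have hfm : ∀ η ζ : Cfg, (∀ x ∈ WW m, η x = ζ x) → f η = f ζ := fun η ζ h =>
    hf η ζ fun x hx => h x (hm hx)
  set B := ∑ A ∈ (WW m).powerset, |f (cfgOf A)| with hB
  have hB0 : 0 ≤ B := Finset.sum_nonneg fun _ _ => abs_nonneg _
  have hfB : ∀ η, |f η| ≤ B := by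
    intro η
    rw [expand_cyl hfm η]
    refine (Finset.abs_sum_le_sum_abs _ _).trans (Finset.sum_le_sum fun A _ => ?_)
    rw [abs_mul, abs_of_nonneg (cyl_nonneg _ _ _)]
    have := cyl_le_one (WW m) A η
    have := abs_nonneg (f (cfgOf A))
    nlinarith
  set P := pis q S f with hP
  set B₂ := B + |P| with hB₂
  have hB₂0 : 0 ≤ B₂ := by positivity
  obtain ⟨n₀, hmeasH, hH⟩ := hole_small ν hν (δ := ε / (4 * (B₂ + 1))) (by positivity)
  obtain ⟨T, hT0, hT⟩ := equil h0 h1 m hfm n₀ (δ := ε / 2) (by positivity)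
  refine ⟨T, fun t ht => ?_⟩
  obtain ⟨L₀, hL₀⟩ := hT t ht
  refine ⟨max L₀ m, fun L hL => ?_⟩
  have hLL₀ : L₀ ≤ L := (le_max_left _ _).trans hL
  have hLm : m ≤ L := (le_max_right _ _).trans hL
  have ht0 : 0 ≤ t := hT0.trans ht
  set I : Cfg → ℝ := fun η => SS q L t f η with hI
  have hIB : ∀ η, |I η| ≤ B := fun η => SS_abs_le h0.le h1.le L ht0 hfB η
  have hImeas : Measurable I := by
    have h2 : I = (fun σ : XX L => SS q L t f (emb L (fun _ => false) σ)) ∘ (res L) := by
      funext η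
      simp only [hI, Function.comp]
      rw [← SS_eq_series, ← SS_eq_series]
      refine Finset.sum_congr rfl fun τ _ => ?_
      rw [res_emb]
      congr 1
      apply hfm
      intro x hx
      have hx' : x ∈ Finset.Icc (-(L:ℤ) - 1) ((L:ℤ) + 1) := by
        unfold WW at hx
        rw [Finset.mem_Icc] at hx ⊢
        constructor <;> omega
      simp only [emb, dif_pos hx']
    rw [h2]
    refine (measurable_of_finite _).comp ?_
    unfold res
    exact measurable_pi_lambda _ fun x => measurable_pi_apply x.1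
  have hIint : Integrable I ν := Integrable.of_bound hImeas.aestronglyMeasurable B
    (Eventually.of_forall fun η => by rw [Real.norm_eq_abs]; exact hIB η)
  have h2 : (∫ η, I η ∂ν) - P = ∫ η, (I η - P) ∂ν := by
    rw [integral_sub hIint (integrable_const _)]
    simp
  have hpt : ∀ η, |I η - P| ≤ ε / 2 + Set.indicator {η : Cfg | hole (n₀ + 1) η} (fun _ => B₂) η := by
    intro η
    by_cases h : hole (n₀ + 1) η
    · rw [Set.indicator_of_mem (show η ∈ {η : Cfg | hole (n₀ + 1) η} from h)]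
      have h3 := abs_sub (I η) P
      have h4 := hIB η
      rw [hB₂]
      linarith
    · rw [Set.indicator_of_notMem (show η ∉ {η : Cfg | hole (n₀ + 1) η} from h), add_zero]
      have h3 : uu (L + 1) η ≤ n₀ := by
        by_contra hc
        rw [not_le] at hc
        exact h (hole_mono hc (hole_uu _ _))
      have h4 := hL₀ L hLL₀ η h3
      rwa [pis_mono hm hf] at h4
  change |(∫ η, I η ∂ν) - P| < ε
  rw [h2]
  calc |∫ η, (I η - P) ∂ν| ≤ ∫ η, |I η - P| ∂ν := abs_integral_le_integral_abs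
    _ ≤ ∫ η, (ε / 2 + Set.indicator {η : Cfg | hole (n₀ + 1) η} (fun _ => B₂) η) ∂ν := by
        refine integral_mono (hIint.sub (integrable_const _)).abs ?_ hpt
        exact (integrable_const _).add ((integrable_const _).indicator hmeasH)
    _ = ε / 2 + B₂ * ν.real {η : Cfg | hole (n₀ + 1) η} := by
        rw [integral_add (integrable_const _) ((integrable_const _).indicator hmeasH),
          integral_indicator hmeasH]
        simp [mul_comm]
    _ < ε := by
        have h3 : B₂ * ν.real {η : Cfg | hole (n₀ + 1) η} ≤ B₂ * (ε / (4 * (B₂ + 1))) :=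
          mul_le_mul_of_nonneg_left hH.le hB₂0
        have h4 : B₂ * (ε / (4 * (B₂ + 1))) ≤ ε / 4 := by
          rw [mul_div_assoc', div_le_div_iff₀ (by positivity) (by norm_num)]
          nlinarith
        linarith

end Pool.Agent.LibFA
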