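import Pool.Agent.LibFA.Cyl

open Filter Topology

namespace Pool.Agent.LibFA

/-- the constraint as a real function -/
noncomputable def ccx (x : ℤ) : Cfg → ℝ := fun η => if η (x - 1) = true ∨ η (x + 1) = true then 1 else 0

theorem ccx_nonneg (x : ℤ) (η : Cfg) : 0 ≤ ccx x η := by unfold ccx; split_ifs <;> norm_num
theorem ccx_le_one (x : ℤ) (η : Cfg) : ccx x η ≤ 1 := by unfold ccx; split_ifs <;> norm_num

theorem cyl_congr {W A : Finset ℤ} {η ζ : Cfg} (h : ∀ x ∈ W, η x = ζ x) : cyl W A η = cyl W A ζ := by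
  unfold cyl
  have : (∀ x ∈ W, (η x = true ↔ x ∈ A)) ↔ (∀ x ∈ W, (ζ x = true ↔ x ∈ A)) := by
    constructor
    · intro h' x hx; rw [← h x hx]; exact h' x hx
    · intro h' x hx; rw [h x hx]; exact h' x hx
  simp only [this]

theorem KK_cyl_notMem (q : ℝ) {W A : Finset ℤ} {x : ℤ} (hx : x ∉ W) (η : Cfg) :
    KK q x (cyl W A) η = cyl W A η := by
  have h : ∀ v, cyl W A (Function.update η x v) = cyl W A η := fun v =>
    cyl_congr fun y hy => Function.update_of_ne (by rintro rfl; exact hx hy) _ _
  unfold KK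
  rw [h, h]
  split_ifs <;> ring

theorem cyl_upd_true {W A : Finset ℤ} {x : ℤ} (hx : x ∈ W) (hA : x ∉ A) (η : Cfg) :
    cyl W A (Function.update η x true) = 0 := by
  unfold cyl
  rw [if_neg]
  intro h
  have := (h x hx).1 (by simp)
  exact hA this

theorem cyl_ins_upd_false {W A : Finset ℤ} {x : ℤ} (hx : x ∈ W) (η : Cfg) :
    cyl W (insert x A) (Function.update η x false) = 0 := by
  unfold cyl
  rw [if_neg]
  intro h
  have := (h x hx).2 (Finset.mem_insert_self _ _)
  simp at this

theorem cyl_upd_false {W A : Finset ℤ} {x : ℤ} (hx : x ∈ W) (hA : x ∉ A) (η : Cfg) :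
    cyl W A (Function.update η x false) = cyl W A η + cyl W (insert x A) η := by
  have h1 := cyl_split (W := W.erase x) (A := A) (Finset.notMem_erase x W) hA η
  rw [Finset.insert_erase hx] at h1
  rw [← h1]
  have h2 := cyl_split (W := W.erase x) (A := A) (Finset.notMem_erase x W) hA (Function.update η x false)
  rw [Finset.insert_erase hx, cyl_ins_upd_false hx, add_zero] at h2
  rw [← h2]
  exact cyl_congr fun y hy => Function.update_of_ne (Finset.ne_of_mem_erase hy) _ _

theorem cyl_ins_upd_true {W A : Finset ℤ} {x : ℤ} (hx : x ∈ W) (hA : x ∉ A) (η : Cfg) :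
    cyl W (insert x A) (Function.update η x true) = cyl W A η + cyl W (insert x A) η := by
  have h1 := cyl_split (W := W.erase x) (A := A) (Finset.notMem_erase x W) hA η
  rw [Finset.insert_erase hx] at h1
  rw [← h1]
  have h2 := cyl_split (W := W.erase x) (A := A) (Finset.notMem_erase x W) hA (Function.update η x true)
  rw [Finset.insert_erase hx, cyl_upd_true hx hA, zero_add] at h2
  rw [← h2]
  exact cyl_congr fun y hy => Function.update_of_ne (Finset.ne_of_mem_erase hy) _ _

theorem KK_cyl_mem (q : ℝ) {W A : Finset ℤ} {x : ℤ} (hx : x ∈ W) (hA : x ∉ A) (η : Cfg) :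
    KK q x (cyl W A) η - cyl W A η =
      ccx x η * ((1 - q) * cyl W (insert x A) η - q * cyl W A η) := by
  unfold KK ccx
  rw [cyl_upd_true hx hA, cyl_upd_false hx hA]
  split_ifs <;> ring

theorem KK_cyl_mem' (q : ℝ) {W A : Finset ℤ} {x : ℤ} (hx : x ∈ W) (hA : x ∉ A) (η : Cfg) :
    KK q x (cyl W (insert x A)) η - cyl W (insert x A) η =
      -(ccx x η * ((1 - q) * cyl W (insert x A) η - q * cyl W A η)) := by
  unfold KK ccx
  rw [cyl_ins_upd_true hx hA, cyl_ins_upd_false hx]
  split_ifs <;> ring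

/-- flux through the pair `(A, A ∪ {x})` -/
noncomputable def FF (q : ℝ) (φ : (Cfg → ℝ) → ℝ) (W : Finset ℤ) (x : ℤ) (A : Finset ℤ) : ℝ :=
  φ (fun η => ccx x η * ((1 - q) * cyl W (insert x A) η - q * cyl W A η))

theorem gen_cyl (q : ℝ) (L : ℕ) {W : Finset ℤ} (hW : W ⊆ Finset.Icc (-(L:ℤ)) (L:ℤ)) (A : Finset ℤ) (η : Cfg) :
    gen q L (cyl W A) η = ∑ x ∈ W, (KK q x (cyl W A) η - cyl W A η) := by
  unfold gen
  symm
  apply Finset.sum_subset hW
  intro x _ hx
  rw [KK_cyl_notMem q hx, sub_self]

theorem flux_identity {q : ℝ} {φ : (Cfg → ℝ) → ℝ} (hφ : IsState φ) (L : ℕ) {W : Finset ℤ}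
    (hW : W ⊆ Finset.Icc (-(L:ℤ)) (L:ℤ)) (G : Finset ℤ → ℝ) :
    ∑ A ∈ W.powerset, φ (gen q L (cyl W A)) * G A =
      ∑ x ∈ W, ∑ A ∈ (W.erase x).powerset, FF q φ W x A * (G A - G (insert x A)) := by
  have h1 : ∀ A, φ (gen q L (cyl W A)) = ∑ x ∈ W, φ (fun η => KK q x (cyl W A) η - cyl W A η) := by
    intro A
    rw [← hφ.sum]
    congr 1
    funext η
    exact gen_cyl q L hW A η
  simp only [h1, Finset.sum_mul]
  rw [Finset.sum_comm]
  refine Finset.sum_congr rfl fun x hx => ?_
  conv_lhs => rw [← Finset.insert_erase hx]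
  rw [Finset.sum_powerset_insert (Finset.notMem_erase x W), ← Finset.sum_add_distrib]
  refine Finset.sum_congr rfl fun A hA => ?_
  have hxA : x ∉ A := fun h => (Finset.notMem_erase x W) (Finset.mem_powerset.1 hA h)
  rw [Finset.insert_erase hx]
  have e1 : φ (fun η => KK q x (cyl W A) η - cyl W A η) = FF q φ W x A := by
    unfold FF
    congr 1
    funext η
    exact KK_cyl_mem q hx hxA η
  have e2 : φ (fun η => KK q x (cyl W (insert x A)) η - cyl W (insert x A) η) = - FF q φ W x A := by
    unfold FF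
    rw [← neg_one_mul, ← hφ.smul]
    congr 1
    funext η
    rw [KK_cyl_mem' q hx hxA η]
    simp
  rw [e1, e2]
  ring

/-- legal case -/
theorem FF_legal {q : ℝ} {φ : (Cfg → ℝ) → ℝ} (hφ : IsState φ) {W A : Finset ℤ} {x y : ℤ}
    (hyW : y ∈ W) (hyA : y ∈ A) (hxy : y = x + 1 ∨ y = x - 1) :
    FF q φ W x A = (1 - q) * PP φ W (insert x A) - q * PP φ W A := by
  unfold FF PP
  have h1 : ∀ η, ccx x η * ((1 - q) * cyl W (insert x A) η - q * cyl W A η) =
      (1 - q) * cyl W (insert x A) η - q * cyl W A η := by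
    intro η
    by_cases hη : η y = true
    · have : ccx x η = 1 := by
        unfold ccx
        rw [if_pos]
        rcases hxy with h | h
        · right; rw [← h]; exact hη
        · left; rw [← h]; exact hη
      rw [this, one_mul]
    · have c1 : cyl W A η = 0 := by
        unfold cyl; rw [if_neg]
        intro h; exact hη ((h y hyW).2 hyA)
      have c2 : cyl W (insert x A) η = 0 := by
        unfold cyl; rw [if_neg]
        intro h; exact hη ((h y hyW).2 (Finset.mem_insert_of_mem hyA))
      rw [c1, c2]; ring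
  have h2 : (fun η => ccx x η * ((1 - q) * cyl W (insert x A) η - q * cyl W A η)) =
      (1 - q) • cyl W (insert x A) - q • cyl W A := by
    funext η
    rw [h1]; simp
  rw [h2, hφ.sub, hφ.smul, hφ.smul]

/-- frozen case -/
theorem FF_frozen {q : ℝ} {φ : (Cfg → ℝ) → ℝ} (hφ : IsState φ) {W A : Finset ℤ} {x : ℤ}
    (h1W : x - 1 ∈ W) (h2W : x + 1 ∈ W) (h1A : x - 1 ∉ A) (h2A : x + 1 ∉ A) :
    FF q φ W x A = 0 := by
  unfold FF
  have h1 : ∀ η, ccx x η * ((1 - q) * cyl W (insert x A) η - q * cyl W A η) = 0 := by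
    intro η
    by_cases hc : η (x - 1) = true ∨ η (x + 1) = true
    · have c1 : cyl W A η = 0 := by
        unfold cyl; rw [if_neg]
        intro h
        rcases hc with hc | hc
        · exact h1A ((h _ h1W).1 hc)
        · exact h2A ((h _ h2W).1 hc)
      have c2 : cyl W (insert x A) η = 0 := by
        unfold cyl; rw [if_neg]
        intro h
        rcases hc with hc | hc
        · have := (h _ h1W).1 hc
          rw [Finset.mem_insert] at this
          rcases this with h' | h'
          · omega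
          · exact h1A h'
        · have := (h _ h2W).1 hc
          rw [Finset.mem_insert] at this
          rcases this with h' | h'
          · omega
          · exact h2A h'
      rw [c1, c2]; ring
    · have : ccx x η = 0 := by unfold ccx; rw [if_neg hc]
      rw [this, zero_mul]
  have h2 : (fun η => ccx x η * ((1 - q) * cyl W (insert x A) η - q * cyl W A η)) = fun _ => 0 :=
    funext h1
  rw [h2, hφ.zero]

/-- boundary case -/
theorem FF_bdry {q : ℝ} {φ : (Cfg → ℝ) → ℝ} (hφ : IsState φ) {W A : Finset ℤ} {x y z : ℤ}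
    (hyW : y ∈ W) (hyA : y ∉ A) (hzW : z ∉ W) (hzA : z ∉ A) (hzx : z ≠ x) (hyx : y ≠ x)
    (hyz : (y = x - 1 ∧ z = x + 1) ∨ (y = x + 1 ∧ z = x - 1)) :
    FF q φ W x A = (1 - q) * PP φ (insert z W) (insert z (insert x A)) -
      q * PP φ (insert z W) (insert z A) := by
  unfold FF PP
  have h1 : ∀ η, ccx x η * ((1 - q) * cyl W (insert x A) η - q * cyl W A η) =
      (1 - q) * cyl (insert z W) (insert z (insert x A)) η - q * cyl (insert z W) (insert z A) η := by
    intro η
    have s1 := cyl_split hzW hzA η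
    have hz2 : z ∉ insert x A := by
      rw [Finset.mem_insert, not_or]; exact ⟨hzx, hzA⟩
    have s2 := cyl_split hzW hz2 η
    by_cases hzη : η z = true
    · have hc : ccx x η = 1 := by
        unfold ccx; rw [if_pos]
        rcases hyz with ⟨_, h⟩ | ⟨_, h⟩
        · right; rw [← h]; exact hzη
        · left; rw [← h]; exact hzη
      have z1 : cyl (insert z W) A η = 0 := by
        unfold cyl; rw [if_neg]
        intro h
        exact hzA ((h z (Finset.mem_insert_self _ _)).1 hzη)
      have z2 : cyl (insert z W) (insert x A) η = 0 := by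
        unfold cyl; rw [if_neg]
        intro h
        exact hz2 ((h z (Finset.mem_insert_self _ _)).1 hzη)
      rw [hc, one_mul, s1, s2, z1, z2, zero_add, zero_add]
    · have z1 : cyl (insert z W) (insert z A) η = 0 := by
        unfold cyl; rw [if_neg]
        intro h
        exact hzη ((h z (Finset.mem_insert_self _ _)).2 (Finset.mem_insert_self _ _))
      have z2 : cyl (insert z W) (insert z (insert x A)) η = 0 := by
        unfold cyl; rw [if_neg]
        intro h
        exact hzη ((h z (Finset.mem_insert_self _ _)).2 (Finset.mem_insert_self _ _))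
      rw [z1, z2]
      by_cases hyη : η y = true
      · have c1 : cyl W A η = 0 := by
          unfold cyl; rw [if_neg]
          intro h
          exact hyA ((h y hyW).1 hyη)
        have c2 : cyl W (insert x A) η = 0 := by
          unfold cyl; rw [if_neg]
          intro h
          have := (h y hyW).1 hyη
          rw [Finset.mem_insert] at this
          rcases this with h' | h'
          · exact hyx h'
          · exact hyA h'
        rw [c1, c2]; ring
      · have hc : ccx x η = 0 := by
          unfold ccx; rw [if_neg]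
          rintro (h | h)
          · rcases hyz with ⟨h', _⟩ | ⟨_, h'⟩
            · rw [← h'] at h; exact hyη h
            · rw [← h'] at h; exact hzη h
          · rcases hyz with ⟨_, h'⟩ | ⟨h', _⟩
            · rw [← h'] at h; exact hzη h
            · rw [← h'] at h; exact hyη h
        rw [hc]; ring
  have h2 : (fun η => ccx x η * ((1 - q) * cyl W (insert x A) η - q * cyl W A η)) =
      (1 - q) • cyl (insert z W) (insert z (insert x A)) - q • cyl (insert z W) (insert z A) := by
    funext η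
    rw [h1]; simp
  rw [h2, hφ.sub, hφ.smul, hφ.smul]

/-- logarithmic density -/
noncomputable def GG (q : ℝ) (φ : (Cfg → ℝ) → ℝ) (W A : Finset ℤ) : ℝ :=
  Real.log (PP φ W A) - A.card * Real.log (q / (1 - q))

theorem GG_diff {q : ℝ} (h0 : 0 < q) (h1 : q < 1) {φ : (Cfg → ℝ) → ℝ} {W A : Finset ℤ} {x : ℤ}
    (hxA : x ∉ A) (hp : 0 < PP φ W A) (hp' : 0 < PP φ W (insert x A)) :
    GG q φ W A - GG q φ W (insert x A) =
      Real.log (q * PP φ W A) - Real.log ((1 - q) * PP φ W (insert x A)) := by
  unfold GG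
  have h2 : 0 < 1 - q := by linarith
  rw [Finset.card_insert_of_notMem hxA, Real.log_mul h0.ne' hp.ne', Real.log_mul h2.ne' hp'.ne',
    Real.log_div h0.ne' h2.ne']
  push_cast
  ring

/-- counting neighbours -/
theorem sum_count (U : Finset ℤ) (x : ℤ) (f : Finset ℤ → ℝ) :
    ∑ A ∈ (U.erase x).powerset, (((nb U x).filter (fun y => y ∈ A)).card : ℝ) * f A =
      ∑ y ∈ nb U x, ∑ A ∈ ((U.erase x).erase y).powerset, f (insert y A) := by
  have h1 : ∀ A : Finset ℤ, (((nb U x).filter (fun y => y ∈ A)).card : ℝ) * f A =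
      ∑ y ∈ nb U x, if y ∈ A then f A else 0 := by
    intro A
    rw [← Finset.sum_filter, Finset.sum_const, nsmul_eq_mul]
  rw [Finset.sum_congr rfl fun A _ => h1 A, Finset.sum_comm]
  refine Finset.sum_congr rfl fun y hy => ?_
  have hyU : y ∈ U.erase x := by
    unfold nb at hy
    rw [Finset.mem_filter] at hy
    rw [Finset.mem_erase]
    exact ⟨by rcases hy.2 with h | h <;> omega, hy.1⟩
  conv_lhs => rw [← Finset.insert_erase hyU]
  rw [Finset.sum_powerset_insert (Finset.notMem_erase y _)]
  have e1 : ∑ A ∈ ((U.erase x).erase y).powerset, (if y ∈ A then f A else 0) = 0 := by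
    refine Finset.sum_eq_zero fun A hA => ?_
    rw [if_neg]
    intro h
    exact (Finset.notMem_erase y _) (Finset.mem_powerset.1 hA h)
  rw [e1, zero_add]
  refine Finset.sum_congr rfl fun A _ => ?_
  rw [if_pos (Finset.mem_insert_self _ _)]

theorem card_nb_le (U : Finset ℤ) (x : ℤ) : (nb U x).card ≤ 2 := by
  have : nb U x ⊆ {x + 1, x - 1} := by
    intro y hy
    unfold nb at hy
    rw [Finset.mem_filter] at hy
    rw [Finset.mem_insert, Finset.mem_singleton]
    exact hy.2
  exact (Finset.card_le_card this).trans Finset.card_le_two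

/-- legal part of the site inequality, pointwise -/
theorem legal_pt {q : ℝ} (h0 : 0 < q) (h1 : q < 1) {φ : (Cfg → ℝ) → ℝ} (hφ : IsState φ) {W A : Finset ℤ}
    {x : ℤ} (hxA : x ∉ A) (hp : 0 < PP φ W A) (hp' : 0 < PP φ W (insert x A))
    (hleg : ((nb W x).filter (fun y => y ∈ A)).Nonempty) :
    FF q φ W x A * (GG q φ W A - GG q φ W (insert x A)) ≤
      -2 * ((((nb W x).filter (fun y => y ∈ A)).card : ℝ) *
        jj ((1 - q) * PP φ W (insert x A)) (q * PP φ W A)) := by
  obtain ⟨y, hy⟩ := hleg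
  rw [Finset.mem_filter] at hy
  obtain ⟨hy1, hyA⟩ := hy
  unfold nb at hy1
  rw [Finset.mem_filter] at hy1
  rw [FF_legal hφ hy1.1 hyA hy1.2, GG_diff h0 h1 hxA hp hp']
  have h2 : 0 < 1 - q := by linarith
  have h3 := log_ineq (mul_pos h2 hp') (mul_pos h0 hp)
  have h4 : (((nb W x).filter (fun y => y ∈ A)).card : ℝ) ≤ 2 := by
    have := (Finset.card_le_card (Finset.filter_subset (fun y => y ∈ A) (nb W x))).trans (card_nb_le W x)
    exact_mod_cast this
  have h5 := jj_nonneg ((1 - q) * PP φ W (insert x A)) (q * PP φ W A)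
  nlinarith

theorem sum_eL (q : ℝ) (lam : Finset ℤ → ℝ) (W : Finset ℤ) (x : ℤ) :
    ∑ A ∈ (W.erase x).powerset, (((nb W x).filter (fun y => y ∈ A)).card : ℝ) *
        jj ((1 - q) * lam (insert x A)) (q * lam A) = ∑ y ∈ nb W x, eL q lam W x y := by
  rw [sum_count W x (fun A => jj ((1 - q) * lam (insert x A)) (q * lam A))]
  rfl

theorem site_interior {q : ℝ} (h0 : 0 < q) (h1 : q < 1) {φ : (Cfg → ℝ) → ℝ} (hφ : IsState φ) {W : Finset ℤ}
    (hpos : ∀ A, A ⊆ W → 0 < PP φ W A) {x : ℤ} (hx : x ∈ W) (hm : x - 1 ∈ W) (hp : x + 1 ∈ W) :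
    ∑ A ∈ (W.erase x).powerset, FF q φ W x A * (GG q φ W A - GG q φ W (insert x A)) ≤
      -2 * ∑ y ∈ nb W x, eL q (PP φ W) W x y := by
  rw [← sum_eL, Finset.mul_sum]
  refine Finset.sum_le_sum fun A hA => ?_
  rw [Finset.mem_powerset] at hA
  have hxA : x ∉ A := fun h => (Finset.notMem_erase x W) (hA h)
  have hAW : A ⊆ W := hA.trans (Finset.erase_subset _ _)
  have hp1 := hpos A hAW
  have hp2 := hpos (insert x A) (Finset.insert_subset hx hAW)
  by_cases hleg : ((nb W x).filter (fun y => y ∈ A)).Nonempty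
  · exact legal_pt h0 h1 hφ hxA hp1 hp2 hleg
  · rw [Finset.not_nonempty_iff_eq_empty] at hleg
    have hmem : ∀ y ∈ nb W x, y ∉ A := by
      intro y hy hyA
      have : y ∈ (nb W x).filter (fun y => y ∈ A) := Finset.mem_filter.2 ⟨hy, hyA⟩
      rw [hleg] at this
      simp at this
    have n1 : x - 1 ∉ A := hmem _ (Finset.mem_filter.2 ⟨hm, Or.inr rfl⟩)
    have n2 : x + 1 ∉ A := hmem _ (Finset.mem_filter.2 ⟨hp, Or.inl rfl⟩)
    rw [FF_frozen hφ hm hp n1 n2, hleg]
    simp

theorem site_bdry {q : ℝ} (h0 : 0 < q) (h1 : q < 1) {φ : (Cfg → ℝ) → ℝ} (hφ : IsState φ) {W : Finset ℤ}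
    (hpos : ∀ A, A ⊆ W → 0 < PP φ W A) {x y z : ℤ} (hx : x ∈ W) (hyW : y ∈ W) (hzW : z ∉ W)
    (hyz : (y = x - 1 ∧ z = x + 1) ∨ (y = x + 1 ∧ z = x - 1)) {κ : ℝ} (hκ : 0 < κ) :
    ∑ A ∈ (W.erase x).powerset, FF q φ W x A * (GG q φ W A - GG q φ W (insert x A)) ≤
      -2 * ∑ y ∈ nb W x, eL q (PP φ W) W x y + (κ + eL q (PP φ (insert z W)) (insert z W) x z / κ) := by
  have h2 : 0 < 1 - q := by linarith
  have hzx : z ≠ x := by rcases hyz with ⟨_, h⟩ | ⟨_, h⟩ <;> omega
  have hyx : y ≠ x := by rcases hyz with ⟨h, _⟩ | ⟨h, _⟩ <;> omega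
  have hset : ((insert z W).erase x).erase z = W.erase x := by
    ext u
    simp only [Finset.mem_erase, Finset.mem_insert]
    constructor
    · rintro ⟨a, b, c⟩; exact ⟨b, c.resolve_left a⟩
    · rintro ⟨a, b⟩; exact ⟨fun h => hzW (h ▸ b), a, Or.inr b⟩
  have hmass : ∑ A ∈ (W.erase x).powerset, κ * ((1 - q) * PP φ W (insert x A) + q * PP φ W A) ≤ κ := by
    have e1 := sum_PP hφ W
    rw [← Finset.insert_erase hx, Finset.sum_powerset_insert (Finset.notMem_erase x W),
      Finset.insert_erase hx] at e1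
    rw [← Finset.mul_sum, Finset.sum_add_distrib, ← Finset.mul_sum, ← Finset.mul_sum]
    have e2 : 0 ≤ ∑ A ∈ (W.erase x).powerset, PP φ W (insert x A) :=
      Finset.sum_nonneg fun _ _ => PP_nonneg hφ _ _
    have e3 : 0 ≤ ∑ A ∈ (W.erase x).powerset, PP φ W A :=
      Finset.sum_nonneg fun _ _ => PP_nonneg hφ _ _
    have e4 : (1 - q) * ∑ A ∈ (W.erase x).powerset, PP φ W (insert x A) +
        q * ∑ A ∈ (W.erase x).powerset, PP φ W A ≤ 1 := by nlinarith
    have e5 := mul_le_mul_of_nonneg_left e4 hκ.le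
    linarith
  have hpt : ∀ A ∈ (W.erase x).powerset, FF q φ W x A * (GG q φ W A - GG q φ W (insert x A)) ≤
      -2 * ((((nb W x).filter (fun y => y ∈ A)).card : ℝ) *
        jj ((1 - q) * PP φ W (insert x A)) (q * PP φ W A)) +
      (κ * ((1 - q) * PP φ W (insert x A) + q * PP φ W A) +
      jj ((1 - q) * PP φ (insert z W) (insert x (insert z A))) (q * PP φ (insert z W) (insert z A)) / κ) := by
    intro A hA
    rw [Finset.mem_powerset] at hA
    have hxA : x ∉ A := fun h => (Finset.notMem_erase x W) (hA h)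
    have hAW : A ⊆ W := hA.trans (Finset.erase_subset _ _)
    have hzA : z ∉ A := fun h => hzW (hAW h)
    have hp1 := hpos A hAW
    have hp2 := hpos (insert x A) (Finset.insert_subset hx hAW)
    have hj := jj_nonneg ((1 - q) * PP φ (insert z W) (insert x (insert z A)))
      (q * PP φ (insert z W) (insert z A))
    by_cases hleg : ((nb W x).filter (fun y => y ∈ A)).Nonempty
    · have h3 := legal_pt h0 h1 hφ hxA hp1 hp2 hleg
      have h4 : 0 ≤ κ * ((1 - q) * PP φ W (insert x A) + q * PP φ W A) := by positivity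
      have h5 : 0 ≤ jj ((1 - q) * PP φ (insert z W) (insert x (insert z A)))
        (q * PP φ (insert z W) (insert z A)) / κ := by positivity
      linarith
    · rw [Finset.not_nonempty_iff_eq_empty] at hleg
      have hynb : y ∈ nb W x := by
        unfold nb
        rw [Finset.mem_filter]
        refine ⟨hyW, ?_⟩
        rcases hyz with ⟨h, _⟩ | ⟨h, _⟩
        · exact Or.inr h
        · exact Or.inl h
      have hyA : y ∉ A := by
        intro hyA
        have : y ∈ (nb W x).filter (fun y => y ∈ A) := Finset.mem_filter.2 ⟨hynb, hyA⟩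
        rw [hleg] at this
        simp at this
      rw [FF_bdry hφ hyW hyA hzW hzA hzx hyx hyz, GG_diff h0 h1 hxA hp1 hp2, hleg]
      simp only [Finset.card_empty, Nat.cast_zero, zero_mul, mul_zero, zero_add]
      rw [Finset.insert_comm z x A]
      -- comparison of cylinder probabilities
      have s1 : PP φ (insert z W) (insert z A) ≤ PP φ W A := by
        refine hφ.mono fun η => ?_
        rw [cyl_split hzW hzA η]
        have := cyl_nonneg (insert z W) A η
        linarith
      have hz2 : z ∉ insert x A := by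
        rw [Finset.mem_insert, not_or]; exact ⟨hzx, hzA⟩
      have s2 : PP φ (insert z W) (insert x (insert z A)) ≤ PP φ W (insert x A) := by
        refine hφ.mono fun η => ?_
        rw [cyl_split hzW hz2 η, Finset.insert_comm]
        have := cyl_nonneg (insert z W) (insert x A) η
        linarith
      exact bdry_ineq (mul_pos h2 hp2) (mul_pos h0 hp1) (mul_nonneg h2.le (PP_nonneg hφ _ _))
        (mul_nonneg h0.le (PP_nonneg hφ _ _)) (mul_le_mul_of_nonneg_left s2 h2.le)
        (mul_le_mul_of_nonneg_left s1 h0.le) hκ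
  refine (Finset.sum_le_sum hpt).trans ?_
  rw [Finset.sum_add_distrib, Finset.sum_add_distrib, ← Finset.mul_sum, sum_eL, ← Finset.sum_div]
  have he : eL q (PP φ (insert z W)) (insert z W) x z = ∑ A ∈ (W.erase x).powerset,
      jj ((1 - q) * PP φ (insert z W) (insert x (insert z A))) (q * PP φ (insert z W) (insert z A)) := by
    unfold eL
    rw [hset]
  rw [he]
  linarith

end Pool.Agent.LibFA
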