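import Mathlib

open Filter Topology

namespace Pool.Agent.LibFA

/-- squared Hellinger increment -/
noncomputable def jj (x y : ℝ) : ℝ := (Real.sqrt x - Real.sqrt y) ^ 2

theorem jj_nonneg (x y : ℝ) : 0 ≤ jj x y := sq_nonneg _

/-- the entropy production of one pair -/
theorem log_ineq {a b : ℝ} (ha : 0 < a) (hb : 0 < b) :
    4 * jj a b ≤ (a - b) * (Real.log a - Real.log b) := by
  have key : ∀ s t : ℝ, 0 < t → t ≤ s →
      4 * (s - t) ^ 2 ≤ (s ^ 2 - t ^ 2) * (Real.log (s ^ 2) - Real.log (t ^ 2)) := by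
    intro s t ht hst
    have hs : 0 < s := lt_of_lt_of_le ht hst
    have h1 : Real.log (s ^ 2) - Real.log (t ^ 2) = 2 * Real.log (1 + (s / t - 1)) := by
      have : 1 + (s / t - 1) = s / t := by ring
      rw [this, Real.log_pow, Real.log_pow, Real.log_div hs.ne' ht.ne']
      push_cast; ring
    have h2 : 0 ≤ s / t - 1 := by
      rw [sub_nonneg, le_div_iff₀ ht]; linarith
    have h3 := Real.le_log_one_add_of_nonneg h2
    have hst0 : s + t ≠ 0 := by positivity
    have h4 : 2 * (s / t - 1) / (s / t - 1 + 2) = 2 * (s - t) / (s + t) := by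
      have e1 : s / t - 1 = (s - t) / t := by field_simp
      have e2 : (s - t) / t + 2 = (s + t) / t := by field_simp; ring
      rw [e1, e2]
      field_simp
    rw [h4] at h3
    rw [h1]
    have h5 : 0 ≤ s ^ 2 - t ^ 2 := by nlinarith
    have h6 := mul_le_mul_of_nonneg_left h3 h5
    have h7 : (s ^ 2 - t ^ 2) * (2 * (s - t) / (s + t)) = 2 * (s - t) ^ 2 := by
      have e1 : s ^ 2 - t ^ 2 = (s - t) * (s + t) := by ring
      rw [e1]
      field_simp
    rw [h7] at h6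
    nlinarith
  have hsa := Real.sq_sqrt ha.le
  have hsb := Real.sq_sqrt hb.le
  unfold jj
  rcases le_total b a with h | h
  · have := key (Real.sqrt a) (Real.sqrt b) (Real.sqrt_pos.2 hb) (Real.sqrt_le_sqrt h)
    rw [hsa, hsb] at this
    exact this
  · have := key (Real.sqrt b) (Real.sqrt a) (Real.sqrt_pos.2 ha) (Real.sqrt_le_sqrt h)
    rw [hsa, hsb] at this
    nlinarith

theorem log_le_sqrt {x : ℝ} (hx : 0 < x) : Real.log x ≤ Real.sqrt x := by
  set y := Real.sqrt (Real.sqrt x) with hy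
  have hs : 0 < Real.sqrt x := Real.sqrt_pos.2 hx
  have hypos : 0 < y := Real.sqrt_pos.2 hs
  have h1 : y ^ 2 = Real.sqrt x := Real.sq_sqrt hs.le
  have h2 : y ^ 4 = x := by
    have : y ^ 4 = (y ^ 2) ^ 2 := by ring
    rw [this, h1, Real.sq_sqrt hx.le]
  have h3 : Real.log x = 4 * Real.log y := by
    rw [← h2, Real.log_pow]; push_cast; ring
  rw [h3, ← h1]
  have h4 := Real.log_le_sub_one_of_pos hypos
  nlinarith [sq_nonneg (y - 2)]

/-- the boundary term -/
theorem bdry_ineq {a b α β : ℝ} (ha : 0 < a) (hb : 0 < b) (hα0 : 0 ≤ α) (hβ0 : 0 ≤ β)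
    (hα : α ≤ a) (hβ : β ≤ b) {κ : ℝ} (hκ : 0 < κ) :
    (α - β) * (Real.log b - Real.log a) ≤ κ * (a + b) + jj α β / κ := by
  have amgm : ∀ z w : ℝ, 2 * z * w ≤ κ * w ^ 2 + z ^ 2 / κ := by
    intro z w
    have h1 : κ * w ^ 2 + z ^ 2 / κ - 2 * z * w = (κ * w - z) ^ 2 / κ := by
      field_simp; ring
    have h2 : 0 ≤ (κ * w - z) ^ 2 / κ := by positivity
    linarith
  have key : ∀ a b α β : ℝ, 0 < a → 0 < b → 0 ≤ α → 0 ≤ β → α ≤ a → β ≤ b → b ≤ a →
      (α - β) * (Real.log b - Real.log a) ≤ κ * (a + b) + jj α β / κ := by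
    intro a b α β ha hb hα0 hβ0 hα hβ hba
    have hlog : Real.log b ≤ Real.log a := Real.log_le_log hb hba
    have hj := jj_nonneg α β
    have hR : 0 ≤ κ * (a + b) + jj α β / κ := by positivity
    rcases le_total β α with h | h
    · nlinarith
    · -- α ≤ β
      have h1 : Real.log a - Real.log b ≤ Real.sqrt a / Real.sqrt b := by
        rw [← Real.log_div ha.ne' hb.ne', ← Real.sqrt_div ha.le]
        exact log_le_sqrt (div_pos ha hb)
      have hsb : 0 < Real.sqrt b := Real.sqrt_pos.2 hb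
      have h2 : Real.sqrt b * (Real.log a - Real.log b) ≤ Real.sqrt a := by
        have := mul_le_mul_of_nonneg_left h1 hsb.le
        rwa [mul_div_cancel₀ _ hsb.ne'] at this
      have h3 : β - α = (Real.sqrt β - Real.sqrt α) * (Real.sqrt β + Real.sqrt α) := by
        have e1 := Real.sq_sqrt hα0
        have e2 := Real.sq_sqrt hβ0
        nlinarith
      have h4 : Real.sqrt α ≤ Real.sqrt β := Real.sqrt_le_sqrt h
      have h5 : Real.sqrt β ≤ Real.sqrt b := Real.sqrt_le_sqrt hβ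
      have h6 : (β - α) ≤ (Real.sqrt β - Real.sqrt α) * (2 * Real.sqrt b) := by
        rw [h3]
        exact mul_le_mul_of_nonneg_left (by linarith) (by linarith)
      have h7 : (β - α) * (Real.log a - Real.log b) ≤
          2 * (Real.sqrt β - Real.sqrt α) * Real.sqrt a := by
        have h8 : 0 ≤ Real.log a - Real.log b := by linarith
        calc (β - α) * (Real.log a - Real.log b)
            ≤ (Real.sqrt β - Real.sqrt α) * (2 * Real.sqrt b) * (Real.log a - Real.log b) :=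
              mul_le_mul_of_nonneg_right h6 h8
          _ = 2 * (Real.sqrt β - Real.sqrt α) * (Real.sqrt b * (Real.log a - Real.log b)) := by ring
          _ ≤ 2 * (Real.sqrt β - Real.sqrt α) * Real.sqrt a :=
              mul_le_mul_of_nonneg_left h2 (by linarith)
      have h9 := amgm (Real.sqrt β - Real.sqrt α) (Real.sqrt a)
      rw [Real.sq_sqrt ha.le] at h9
      have h10 : (Real.sqrt β - Real.sqrt α) ^ 2 = jj α β := by unfold jj; ring
      rw [h10] at h9
      have h11 : 0 ≤ κ * b := by positivity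
      nlinarith
  rcases le_total b a with h | h
  · exact key a b α β ha hb hα0 hβ0 hα hβ h
  · have := key b a β α hb ha hβ0 hα0 hβ hα h
    have h2 : jj β α = jj α β := by unfold jj; ring
    rw [h2] at this
    nlinarith

/-- convexity of `jj` over finite sums -/
theorem jj_sum_le {ι : Type*} (s : Finset ι) (f g : ι → ℝ) (hf : ∀ i ∈ s, 0 ≤ f i) (hg : ∀ i ∈ s, 0 ≤ g i) :
    jj (∑ i ∈ s, f i) (∑ i ∈ s, g i) ≤ ∑ i ∈ s, jj (f i) (g i) := by
  have hF : 0 ≤ ∑ i ∈ s, f i := Finset.sum_nonneg hf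
  have hG : 0 ≤ ∑ i ∈ s, g i := Finset.sum_nonneg hg
  have h1 : (∑ i ∈ s, Real.sqrt (f i) * Real.sqrt (g i)) ^ 2 ≤ (∑ i ∈ s, f i) * (∑ i ∈ s, g i) := by
    have := Finset.sum_mul_sq_le_sq_mul_sq s (fun i => Real.sqrt (f i)) (fun i => Real.sqrt (g i))
    have e1 : ∑ i ∈ s, Real.sqrt (f i) ^ 2 = ∑ i ∈ s, f i :=
      Finset.sum_congr rfl fun i hi => Real.sq_sqrt (hf i hi)
    have e2 : ∑ i ∈ s, Real.sqrt (g i) ^ 2 = ∑ i ∈ s, g i :=
      Finset.sum_congr rfl fun i hi => Real.sq_sqrt (hg i hi)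
    rwa [e1, e2] at this
  have h2 : ∑ i ∈ s, Real.sqrt (f i) * Real.sqrt (g i) ≤
      Real.sqrt (∑ i ∈ s, f i) * Real.sqrt (∑ i ∈ s, g i) := by
    rw [← Real.sqrt_mul hF]
    apply Real.le_sqrt_of_sq_le
    exact h1
  have h3 : ∑ i ∈ s, jj (f i) (g i) = ∑ i ∈ s, f i + ∑ i ∈ s, g i -
      2 * ∑ i ∈ s, Real.sqrt (f i) * Real.sqrt (g i) := by
    rw [Finset.mul_sum, ← Finset.sum_add_distrib, ← Finset.sum_sub_distrib]
    refine Finset.sum_congr rfl fun i hi => ?_
    unfold jj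
    have e1 := Real.sq_sqrt (hf i hi)
    have e2 := Real.sq_sqrt (hg i hi)
    nlinarith
  rw [h3]
  unfold jj
  have e1 := Real.sq_sqrt hF
  have e2 := Real.sq_sqrt hG
  nlinarith

/-- linear lower bound -/
theorem jj_linear {x y θ : ℝ} (hx : 0 ≤ x) (hy : 0 ≤ y) (hθ : 0 < θ) :
    (1 - θ) * x + (1 - 1 / θ) * y ≤ jj x y := by
  unfold jj
  have e1 := Real.sq_sqrt hx
  have e2 := Real.sq_sqrt hy
  have h1 : 0 ≤ (θ * Real.sqrt x - Real.sqrt y) ^ 2 / θ := by positivity
  have h2 : (θ * Real.sqrt x - Real.sqrt y) ^ 2 / θ = θ * Real.sqrt x ^ 2 -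
      2 * Real.sqrt x * Real.sqrt y + Real.sqrt y ^ 2 / θ := by
    field_simp
    ring
  rw [h2, e1, e2] at h1
  have h3 : (1 - 1 / θ) * y = y - y / θ := by ring
  rw [h3]
  nlinarith

theorem jj_mul {c x y : ℝ} (hc : 0 ≤ c) :
    jj (c * x) (c * y) = c * jj x y := by
  unfold jj
  rw [Real.sqrt_mul hc, Real.sqrt_mul hc]
  have := Real.sq_sqrt hc
  calc _ = Real.sqrt c ^ 2 * (Real.sqrt x - Real.sqrt y) ^ 2 := by ring
    _ = _ := by rw [this]

theorem jj_le_add {x y : ℝ} (hx : 0 ≤ x) (hy : 0 ≤ y) : jj x y ≤ x + y := by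
  unfold jj
  have e1 := Real.sq_sqrt hx
  have e2 := Real.sq_sqrt hy
  have := mul_nonneg (Real.sqrt_nonneg x) (Real.sqrt_nonneg y)
  nlinarith

end Pool.Agent.LibFA
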