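import Pool.Agent.LibFA.Window
import Pool.Agent.LibFA.Dist

open Filter Topology

namespace Pool.Agent.LibFA

/-- the configuration whose infected set is `A` -/
def cfgOf (A : Finset ℤ) : Cfg := fun x => decide (x ∈ A)

theorem cyl_eq_one {W A : Finset ℤ} {η : Cfg} (h : cyl W A η ≠ 0) : ∀ x ∈ W, η x = cfgOf A x := by
  have h' : ∀ x ∈ W, (η x = true ↔ x ∈ A) := by
    by_contra hcon
    apply h
    unfold cyl
    rw [if_neg hcon]
  intro x hx
  have := h' x hx
  unfold cfgOf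
  by_cases hA : x ∈ A
  · simp only [hA, decide_true]; exact this.2 hA
  · simp only [hA, decide_false]
    by_contra hη
    rw [Bool.not_eq_false] at hη
    exact hA (this.1 hη)

theorem expand_cyl {W : Finset ℤ} {g : Cfg → ℝ} (hg : ∀ η ζ : Cfg, (∀ x ∈ W, η x = ζ x) → g η = g ζ)
    (η : Cfg) : g η = ∑ A ∈ W.powerset, cyl W A η * g (cfgOf A) := by
  have h1 : ∀ A ∈ W.powerset, cyl W A η * g (cfgOf A) = cyl W A η * g η := by
    intro A _
    by_cases h : cyl W A η = 0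
    · rw [h, zero_mul, zero_mul]
    · rw [hg _ _ (cyl_eq_one h)]
  rw [Finset.sum_congr rfl h1, ← Finset.sum_mul, sum_cyl, one_mul]

theorem IsState.expand {φ : (Cfg → ℝ) → ℝ} (hφ : IsState φ) {W : Finset ℤ} {g : Cfg → ℝ}
    (hg : ∀ η ζ : Cfg, (∀ x ∈ W, η x = ζ x) → g η = g ζ) :
    φ g = ∑ A ∈ W.powerset, PP φ W A * g (cfgOf A) := by
  have h1 : g = fun η => ∑ A ∈ W.powerset, (g (cfgOf A)) * cyl W A η := by
    funext η
    rw [expand_cyl hg η]
    exact Finset.sum_congr rfl fun A _ => mul_comm _ _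
  conv_lhs => rw [h1]
  rw [hφ.sum]
  refine Finset.sum_congr rfl fun A _ => ?_
  rw [hφ.smul' (g (cfgOf A)) (cyl W A)]
  unfold PP
  ring

noncomputable def ll (q : ℝ) : ℝ := Real.log (1 + q / (1 - q))

theorem ll_pos {q : ℝ} (h0 : 0 < q) (h1 : q < 1) : 0 < ll q := by
  apply Real.log_pos
  have : 0 < q / (1 - q) := div_pos h0 (by linarith)
  linarith

theorem card_far (M k : ℕ) (hk : k ≤ M + 1) :
    ((Finset.Icc (-(M:ℤ)) M).filter (fun x : ℤ => k ≤ x.natAbs)).card ≤ 2 * (M + 1 - k) := by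
  have hsub : (Finset.Icc (-(M:ℤ)) M).filter (fun x : ℤ => k ≤ x.natAbs) ⊆
      Finset.Icc (k:ℤ) M ∪ Finset.Icc (-(M:ℤ)) (-(k:ℤ)) := by
    intro x hx
    rw [Finset.mem_filter, Finset.mem_Icc] at hx
    rw [Finset.mem_union, Finset.mem_Icc, Finset.mem_Icc]
    omega
  refine (Finset.card_le_card hsub).trans ((Finset.card_union_le _ _).trans ?_)
  rw [Int.card_Icc, Int.card_Icc]
  omega

theorem uu_cfgOf_mem {n : ℕ} {A : Finset ℤ} {x : ℤ} (hx : x ∈ A) : uu n (cfgOf A) ≤ x.natAbs :=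
  uu_le_of_infected (by unfold cfgOf; simpa using hx)

/-- partition function bound -/
theorem Z_bound {q : ℝ} (h0 : 0 < q) (h1 : q < 1) (M : ℕ) {ε : ℝ} (hε : 0 < ε) :
    ∑ A ∈ (Finset.Icc (-(M:ℤ)) M).powerset, (q / (1 - q)) ^ A.card *
      Real.exp (-(2 * (ll q + ε) * ((M:ℝ) + 1 - uu (M + 1) (cfgOf A)))) ≤
      (1 - Real.exp (-(2 * ε)))⁻¹ := by
  set W := Finset.Icc (-(M:ℤ)) (M:ℤ) with hW
  have hρ : 0 < q / (1 - q) := div_pos h0 (by linarith)
  have hmaps : ∀ A ∈ W.powerset, uu (M + 1) (cfgOf A) ∈ Finset.range (M + 2) := by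
    intro A _
    rw [Finset.mem_range]
    have := uu_le (M + 1) (cfgOf A)
    omega
  rw [← Finset.sum_fiberwise_of_maps_to hmaps]
  have hk : ∀ k ∈ Finset.range (M + 2), ∑ A ∈ W.powerset.filter (fun A => uu (M + 1) (cfgOf A) = k),
      (q / (1 - q)) ^ A.card * Real.exp (-(2 * (ll q + ε) * ((M:ℝ) + 1 - uu (M + 1) (cfgOf A)))) ≤
      Real.exp (-(2 * ε)) ^ (M + 1 - k) := by
    intro k hk
    rw [Finset.mem_range] at hk
    have hkM : k ≤ M + 1 := by omega
    set V := W.filter (fun x : ℤ => k ≤ x.natAbs) with hV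
    have e1 : ∀ A ∈ W.powerset.filter (fun A => uu (M + 1) (cfgOf A) = k),
        (q / (1 - q)) ^ A.card * Real.exp (-(2 * (ll q + ε) * ((M:ℝ) + 1 - uu (M + 1) (cfgOf A)))) =
        (q / (1 - q)) ^ A.card * Real.exp (-(2 * (ll q + ε) * ((M:ℝ) + 1 - k))) := by
      intro A hA
      rw [(Finset.mem_filter.1 hA).2]
    rw [Finset.sum_congr rfl e1, ← Finset.sum_mul]
    have hsub : W.powerset.filter (fun A => uu (M + 1) (cfgOf A) = k) ⊆ V.powerset := by
      intro A hA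
      rw [Finset.mem_filter, Finset.mem_powerset] at hA
      rw [Finset.mem_powerset]
      intro x hx
      rw [hV, Finset.mem_filter]
      refine ⟨hA.1 hx, ?_⟩
      rw [← hA.2]
      exact uu_cfgOf_mem hx
    have e2 : ∑ A ∈ W.powerset.filter (fun A => uu (M + 1) (cfgOf A) = k), (q / (1 - q)) ^ A.card ≤
        (1 + q / (1 - q)) ^ V.card := by
      rw [← sum_pow_card]
      exact Finset.sum_le_sum_of_subset_of_nonneg hsub fun _ _ _ => by positivity
    have e3 : (1 + q / (1 - q)) ^ V.card ≤ (1 + q / (1 - q)) ^ (2 * (M + 1 - k)) :=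
      pow_le_pow_right₀ (by linarith) (card_far M k hkM)
    have e4 : (1 + q / (1 - q)) ^ (2 * (M + 1 - k)) = Real.exp (2 * ll q * ((M:ℝ) + 1 - k)) := by
      have h2 : (1 + q / (1 - q)) = Real.exp (ll q) := by
        unfold ll; rw [Real.exp_log (by linarith)]
      rw [h2, ← Real.exp_nat_mul]
      congr 1
      push_cast [hkM]
      ring
    have e5 : Real.exp (-(2 * ε)) ^ (M + 1 - k) = Real.exp (2 * ll q * ((M:ℝ) + 1 - k)) *
        Real.exp (-(2 * (ll q + ε) * ((M:ℝ) + 1 - k))) := by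
      rw [← Real.exp_nat_mul, ← Real.exp_add]
      congr 1
      push_cast [hkM]
      ring
    rw [e5, ← e4]
    exact mul_le_mul_of_nonneg_right (e2.trans e3) (Real.exp_pos _).le
  refine (Finset.sum_le_sum hk).trans ?_
  have e6 : ∑ k ∈ Finset.range (M + 2), Real.exp (-(2 * ε)) ^ (M + 1 - k) =
      ∑ i ∈ Finset.range (M + 2), Real.exp (-(2 * ε)) ^ i := by
    have := Finset.sum_range_reflect (fun i => Real.exp (-(2 * ε)) ^ i) (M + 2)
    rw [← this]
    refine Finset.sum_congr rfl fun k _ => ?_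
    congr 1
  rw [e6]
  have hr1 : Real.exp (-(2 * ε)) < 1 := by
    rw [Real.exp_lt_one_iff]; linarith
  have hr0 := (Real.exp_pos (-(2 * ε))).le
  rw [← tsum_geometric_of_lt_one hr0 hr1]
  exact (summable_geometric_of_lt_one hr0 hr1).sum_le_tsum _ (fun i _ => pow_nonneg hr0 i)

/-- entropy of a state in a window -/
noncomputable def HH (q : ℝ) (φ : (Cfg → ℝ) → ℝ) (W : Finset ℤ) : ℝ :=
  ∑ A ∈ W.powerset, PP φ W A * GG q φ W A

theorem HH_lower {q : ℝ} (h0 : 0 < q) (h1 : q < 1) {φ : (Cfg → ℝ) → ℝ} (hφ : IsState φ) (M : ℕ)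
    (hpos : ∀ A, A ⊆ Finset.Icc (-(M:ℤ)) M → 0 < PP φ (Finset.Icc (-(M:ℤ)) M) A) {ε : ℝ} (hε : 0 < ε) :
    -HH q φ (Finset.Icc (-(M:ℤ)) M) ≤
      2 * (ll q + ε) * φ (fun η => (M:ℝ) + 1 - uu (M + 1) η) + Real.log ((1 - Real.exp (-(2 * ε)))⁻¹) := by
  set W := Finset.Icc (-(M:ℤ)) (M:ℤ) with hW
  have hρ : 0 < q / (1 - q) := div_pos h0 (by linarith)
  have hg : ∀ η ζ : Cfg, (∀ x ∈ W, η x = ζ x) →
      (fun η : Cfg => (M:ℝ) + 1 - uu (M + 1) η) η = (fun η : Cfg => (M:ℝ) + 1 - uu (M + 1) η) ζ := by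
    intro η ζ h
    have : uu (M + 1) η = uu (M + 1) ζ := by
      apply uu_congr
      intro x hx
      apply h
      rw [hW, Finset.mem_Icc]
      omega
    simp only [this]
  rw [hφ.expand hg]
  have hG := gibbs_ineq W.powerset (PP φ W) (fun A => (q / (1 - q)) ^ A.card *
      Real.exp (-(2 * (ll q + ε) * ((M:ℝ) + 1 - uu (M + 1) (cfgOf A)))))
      (fun A hA => hpos A (Finset.mem_powerset.1 hA)) (fun A _ => by positivity) (sum_PP hφ W)
      (Z_bound h0 h1 M hε) (by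
        rw [inv_pos, sub_pos, Real.exp_lt_one_iff]; linarith)
  have e1 : ∀ A ∈ W.powerset, PP φ W A * (Real.log ((q / (1 - q)) ^ A.card *
      Real.exp (-(2 * (ll q + ε) * ((M:ℝ) + 1 - uu (M + 1) (cfgOf A))))) - Real.log (PP φ W A)) =
      -(PP φ W A * GG q φ W A) - 2 * (ll q + ε) * (PP φ W A * ((M:ℝ) + 1 - uu (M + 1) (cfgOf A))) := by
    intro A _
    unfold GG
    rw [Real.log_mul (by positivity) (Real.exp_pos _).ne', Real.log_exp, Real.log_pow]
    ring
  rw [Finset.sum_congr rfl e1, Finset.sum_sub_distrib, Finset.sum_neg_distrib, ← Finset.mul_sum] at hG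
  unfold HH
  linarith

/-- entropy upper bound by dissipation on block windows -/
theorem HH_le_DL {q : ℝ} (h0 : 0 < q) (h1 : q < 1) {w : ℕ} (hwpos : 0 < w)
    (hZ : 3 ≤ (1 + q / (1 - q)) ^ w) {φ : (Cfg → ℝ) → ℝ} (hφ : IsState φ) (a : ℤ) (n : ℕ)
    (hpos : ∀ A, A ⊆ Finset.Icc a (a + n * w - 1) → 0 < PP φ (Finset.Icc a (a + n * w - 1)) A) :
    HH q φ (Finset.Icc a (a + n * w - 1)) ≤
      CB q w * DL q (PP φ (Finset.Icc a (a + n * w - 1))) (Finset.Icc a (a + n * w - 1)) := by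
  classical
  set W := Finset.Icc a (a + n * w - 1) with hW
  set lam : Finset ℤ → ℝ := fun A => if A ⊆ W then PP φ W A else 1 with hlam
  have hlampos : ∀ A, 0 < lam A := by
    intro A
    simp only [hlam]
    split_ifs with h
    · exact hpos A h
    · exact one_pos
  have h := chain_ineq h0 h1 hwpos hZ a n hlampos
  rw [← hW] at h
  have e0 : ∀ A, A ⊆ W → lam A = PP φ W A := by
    intro A hA; simp only [hlam]; rw [if_pos hA]
  have e1 : DL q lam W = DL q (PP φ W) W := by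
    unfold DL
    refine Finset.sum_congr rfl fun x hx => Finset.sum_congr rfl fun y hy => ?_
    exact eL_congr e0 hx (Finset.mem_filter.1 hy).1
  have e2 : HLm q lam W = HH q φ W := by
    unfold HLm HH GG
    have e3 : ∑ B ∈ W.powerset, lam B = 1 := by
      rw [← sum_PP hφ W]
      exact Finset.sum_congr rfl fun A hA => e0 A (Finset.mem_powerset.1 hA)
    rw [e3, Real.log_one]
    refine Finset.sum_congr rfl fun A hA => ?_
    rw [e0 A (Finset.mem_powerset.1 hA)]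
    ring
  rw [e1, e2] at h
  exact h

end Pool.Agent.LibFA
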