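import Pool.Agent.LibFA.Edge

open Filter Topology

namespace Pool.Agent.LibFA

theorem isState_SS {q : ℝ} (h0 : 0 ≤ q) (h1 : q ≤ 1) (L : ℕ) {t : ℝ} (ht : 0 ≤ t) (η : Cfg) :
    IsState (fun g => SS q L t g η) where
  add g h := by rw [SS_lin_add]; rfl
  smul c g := by rw [SS_lin_smul]; rfl
  nonneg g hg := SS_nonneg h0 h1 L ht hg η
  one := by rw [SS_const]

theorem isState_mix {φ ψ : (Cfg → ℝ) → ℝ} (hφ : IsState φ) (hψ : IsState ψ) {ε : ℝ} (h0 : 0 ≤ ε)
    (h1 : ε ≤ 1) : IsState (fun g => (1 - ε) * φ g + ε * ψ g) where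
  add g h := by rw [hφ.add, hψ.add]; ring
  smul c g := by rw [hφ.smul, hψ.smul]; ring
  nonneg g hg := add_nonneg (mul_nonneg (by linarith) (hφ.nonneg g hg)) (mul_nonneg h0 (hψ.nonneg g hg))
  one := by rw [hφ.one, hψ.one]; ring

noncomputable def modc (n : ℕ) (η : Cfg) (A : Finset ℤ) : Cfg := fun x =>
  if x ∈ Finset.Icc (-(n:ℤ)) n then decide (x ∈ A) else η x

/-- product measure on `[-n,n]`, exterior `η` -/
noncomputable def PiS (q : ℝ) (n : ℕ) (η : Cfg) (g : Cfg → ℝ) : ℝ :=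
  ∑ A ∈ (Finset.Icc (-(n:ℤ)) n).powerset, q ^ A.card * (1 - q) ^ (2 * n + 1 - A.card) * g (modc n η A)

theorem card_box (n : ℕ) : (Finset.Icc (-(n:ℤ)) (n:ℤ)).card = 2 * n + 1 := by
  rw [Int.card_Icc]; omega

theorem isState_PiS {q : ℝ} (h0 : 0 ≤ q) (h1 : q ≤ 1) (n : ℕ) (η : Cfg) : IsState (PiS q n η) where
  add g h := by
    unfold PiS
    rw [← Finset.sum_add_distrib]
    refine Finset.sum_congr rfl fun A _ => ?_
    rw [Pi.add_apply]; ring
  smul c g := by
    unfold PiS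
    rw [Finset.mul_sum]
    refine Finset.sum_congr rfl fun A _ => ?_
    rw [Pi.smul_apply, smul_eq_mul]; ring
  nonneg g hg := Finset.sum_nonneg fun A _ => by
    have : 0 ≤ 1 - q := by linarith
    exact mul_nonneg (by positivity) (hg _)
  one := by
    unfold PiS
    have := Finset.sum_pow_mul_eq_add_pow q (1 - q) (Finset.Icc (-(n:ℤ)) (n:ℤ))
    rw [card_box] at this
    simp only [mul_one]
    rw [this]
    simp

theorem modc_update_false {n : ℕ} {η : Cfg} {A : Finset ℤ} {x : ℤ} (hx : x ∈ Finset.Icc (-(n:ℤ)) (n:ℤ))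
    (hA : x ∉ A) (ζ : Cfg) (hζ : ∀ y, y ≠ x → ζ y = modc n η A y) :
    Function.update ζ x false = modc n η A := by
  funext y
  by_cases hy : y = x
  · subst hy
    rw [Function.update_self]
    unfold modc
    rw [if_pos hx]
    simp [hA]
  · rw [Function.update_of_ne hy, hζ y hy]

theorem modc_insert_of_ne {n : ℕ} {η : Cfg} {A : Finset ℤ} {x y : ℤ} (hy : y ≠ x) :
    modc n η (insert x A) y = modc n η A y := by
  unfold modc
  split_ifs
  · simp [Finset.mem_insert, hy]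
  · rfl

theorem modc_insert_self {n : ℕ} {η : Cfg} {A : Finset ℤ} {x : ℤ} (hx : x ∈ Finset.Icc (-(n:ℤ)) (n:ℤ)) :
    modc n η (insert x A) x = true := by
  unfold modc
  rw [if_pos hx]
  simp

theorem PiS_KK {q : ℝ} {n : ℕ} (η : Cfg) {x : ℤ} (hx : x ∈ Finset.Icc (-(n:ℤ)) (n:ℤ))
    (g : Cfg → ℝ) : PiS q n η (KK q x g) = PiS q n η g := by
  unfold PiS
  rw [← Finset.insert_erase hx, Finset.sum_powerset_insert (Finset.notMem_erase x _),
    Finset.sum_powerset_insert (Finset.notMem_erase x _), ← Finset.sum_add_distrib, ← Finset.sum_add_distrib]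
  refine Finset.sum_congr rfl fun A hA => ?_
  rw [Finset.mem_powerset] at hA
  have hxA : x ∉ A := fun h => (Finset.notMem_erase x _) (hA h)
  have hcard : A.card + 1 ≤ 2 * n + 1 := by
    have h2 := Finset.card_le_card (Finset.insert_subset hx (hA.trans (Finset.erase_subset _ _)))
    rw [Finset.card_insert_of_notMem hxA, card_box] at h2
    exact h2
  rw [Finset.card_insert_of_notMem hxA]
  have e1 : Function.update (modc n η A) x false = modc n η A :=
    modc_update_false hx hxA _ fun _ _ => rfl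
  have e2 : Function.update (modc n η (insert x A)) x false = modc n η A :=
    modc_update_false hx hxA _ fun y hy => modc_insert_of_ne hy
  have e3 : Function.update (modc n η A) x true = modc n η (insert x A) := by
    funext y
    by_cases hy : y = x
    · subst hy; rw [Function.update_self, modc_insert_self hx]
    · rw [Function.update_of_ne hy, modc_insert_of_ne hy]
  have e4 : Function.update (modc n η (insert x A)) x true = modc n η (insert x A) := by
    funext y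
    by_cases hy : y = x
    · subst hy; rw [Function.update_self, modc_insert_self hx]
    · rw [Function.update_of_ne hy]
  have e5 : modc n η (insert x A) (x - 1) = modc n η A (x - 1) := modc_insert_of_ne (by omega)
  have e6 : modc n η (insert x A) (x + 1) = modc n η A (x + 1) := modc_insert_of_ne (by omega)
  unfold KK
  rw [e1, e2, e3, e4, e5, e6]
  obtain ⟨k, hk⟩ : ∃ k, 2 * n + 1 = A.card + 1 + k := ⟨2 * n + 1 - (A.card + 1), by omega⟩
  have p1 : 2 * n + 1 - A.card = k + 1 := by omega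
  have p2 : 2 * n + 1 - (A.card + 1) = k := by omega
  rw [p1, p2]
  split_ifs
  · ring
  · ring

theorem PiS_gen {q : ℝ} (h0 : 0 ≤ q) (h1 : q ≤ 1) {n L : ℕ} (η : Cfg) (g : Cfg → ℝ)
    (hg : ∀ x ∈ Finset.Icc (-(L:ℤ)) (L:ℤ), x ∉ Finset.Icc (-(n:ℤ)) (n:ℤ) → KK q x g = g) :
    PiS q n η (gen q L g) = 0 := by
  have hS := isState_PiS h0 h1 n η
  have h2 : gen q L g = fun ζ => ∑ x ∈ Finset.Icc (-(L:ℤ)) (L:ℤ), (KK q x g - g) ζ := rfl
  rw [h2, hS.sum]
  refine Finset.sum_eq_zero fun x hx => ?_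
  by_cases hxn : x ∈ Finset.Icc (-(n:ℤ)) (n:ℤ)
  · rw [hS.sub, PiS_KK η hxn, sub_self]
  · rw [hg x hx hxn, sub_self]
    exact hS.zero

theorem PiS_gen_cyl {q : ℝ} (h0 : 0 ≤ q) (h1 : q ≤ 1) {n L : ℕ} (η : Cfg) {W : Finset ℤ}
    (hW : W ⊆ Finset.Icc (-(n:ℤ)) (n:ℤ)) (A : Finset ℤ) : PiS q n η (gen q L (cyl W A)) = 0 := by
  apply PiS_gen h0 h1
  intro x _ hxn
  funext ζ
  exact KK_cyl_notMem q (fun h => hxn (hW h)) ζ

theorem PiS_cyl_lower {q : ℝ} (h0 : 0 ≤ q) (h1 : q ≤ 1) {n : ℕ} (η : Cfg) {W A : Finset ℤ}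
    (hW : W ⊆ Finset.Icc (-(n:ℤ)) (n:ℤ)) (hA : A ⊆ W) :
    q ^ (2 * n + 1) * (1 - q) ^ (2 * n + 1) ≤ PiS q n η (cyl W A) := by
  have h2 : 0 ≤ 1 - q := by linarith
  have hAn : A ∈ (Finset.Icc (-(n:ℤ)) (n:ℤ)).powerset := Finset.mem_powerset.2 (hA.trans hW)
  have h3 : q ^ A.card * (1 - q) ^ (2 * n + 1 - A.card) * cyl W A (modc n η A) ≤ PiS q n η (cyl W A) :=
    Finset.single_le_sum (f := fun A' => q ^ A'.card * (1 - q) ^ (2 * n + 1 - A'.card) *
      cyl W A (modc n η A')) (fun A' _ => mul_nonneg (by positivity) (cyl_nonneg _ _ _)) hAn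
  have h4 : cyl W A (modc n η A) = 1 := by
    unfold cyl
    rw [if_pos]
    intro x hx
    unfold modc
    rw [if_pos (hW hx)]
    simp
  rw [h4, mul_one] at h3
  refine le_trans ?_ h3
  have hcard : A.card ≤ 2 * n + 1 := by
    have := Finset.card_le_card (hA.trans hW)
    rwa [card_box] at this
  exact mul_le_mul (pow_le_pow_of_le_one h0 h1 hcard)
    (pow_le_pow_of_le_one h2 (by linarith) (Nat.sub_le _ _)) (by positivity) (by positivity)

/-- the evolving regularised state -/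
noncomputable def phi (q : ℝ) (L : ℕ) (η : Cfg) (n : ℕ) (ε t : ℝ) (g : Cfg → ℝ) : ℝ :=
  (1 - ε) * SS q L t g η + ε * PiS q n η g

theorem isState_phi {q : ℝ} (h0 : 0 ≤ q) (h1 : q ≤ 1) (L : ℕ) (η : Cfg) (n : ℕ) {ε t : ℝ}
    (hε0 : 0 ≤ ε) (hε1 : ε ≤ 1) (ht : 0 ≤ t) : IsState (phi q L η n ε t) :=
  isState_mix (isState_SS h0 h1 L ht η) (isState_PiS h0 h1 n η) hε0 hε1

theorem phi_pos {q : ℝ} (h0 : 0 < q) (h1 : q < 1) (L : ℕ) (η : Cfg) (n : ℕ) {ε t : ℝ}
    (hε0 : 0 < ε) (hε1 : ε ≤ 1) (ht : 0 ≤ t) {W A : Finset ℤ} (hW : W ⊆ Finset.Icc (-(n:ℤ)) (n:ℤ))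
    (hA : A ⊆ W) : 0 < PP (phi q L η n ε t) W A := by
  unfold PP phi
  have h2 := SS_nonneg h0.le h1.le L ht (cyl_nonneg W A) η
  have h3 := PiS_cyl_lower h0.le h1.le (n := n) η hW hA
  have h4 : 0 < q ^ (2 * n + 1) * (1 - q) ^ (2 * n + 1) := by
    have : 0 < 1 - q := by linarith
    positivity
  have h5 : 0 < ε * PiS q n η (cyl W A) := mul_pos hε0 (lt_of_lt_of_le h4 h3)
  have h6 : 0 ≤ (1 - ε) * SS q L t (cyl W A) η := mul_nonneg (by linarith) h2
  linarith

theorem phi_deriv {q : ℝ} (h0 : 0 ≤ q) (h1 : q ≤ 1) (L : ℕ) (η : Cfg) (n : ℕ) (ε t : ℝ)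
    {W : Finset ℤ} (hW : W ⊆ Finset.Icc (-(n:ℤ)) (n:ℤ)) (A : Finset ℤ) :
    HasDerivAt (fun s => PP (phi q L η n ε s) W A) (phi q L η n ε t (gen q L (cyl W A))) t := by
  have h2 := (hasDerivAt_SS q L (cyl W A) t η).const_mul (1 - ε)
  have h3 := h2.add_const (ε * PiS q n η (cyl W A))
  have h4 : phi q L η n ε t (gen q L (cyl W A)) = (1 - ε) * SS q L t (gen q L (cyl W A)) η := by
    unfold phi
    rw [PiS_gen_cyl h0 h1 η hW, mul_zero, add_zero]
  rw [h4]
  exact h3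

/-- derivative of the window entropy -/
theorem HH_deriv {q : ℝ} (h0 : 0 < q) (h1 : q < 1) (L : ℕ) (η : Cfg) (n : ℕ) {ε t : ℝ}
    (hε0 : 0 < ε) (hε1 : ε ≤ 1) (ht : 0 ≤ t) {W : Finset ℤ} (hW : W ⊆ Finset.Icc (-(n:ℤ)) (n:ℤ)) :
    HasDerivAt (fun s => HH q (phi q L η n ε s) W)
      (∑ A ∈ W.powerset, phi q L η n ε t (gen q L (cyl W A)) * GG q (phi q L η n ε t) W A) t := by
  have hst := isState_phi h0.le h1.le L η n hε0.le hε1 ht
  have hterm : ∀ A ∈ W.powerset, HasDerivAt (fun s => PP (phi q L η n ε s) W A * GG q (phi q L η n ε s) W A)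
      (phi q L η n ε t (gen q L (cyl W A)) * GG q (phi q L η n ε t) W A +
        phi q L η n ε t (gen q L (cyl W A))) t := by
    intro A hA
    have hp := phi_pos h0 h1 L η n hε0 hε1 ht hW (Finset.mem_powerset.1 hA)
    have h2 := phi_deriv h0.le h1.le L η n ε t hW A
    have h3 : HasDerivAt (fun s => GG q (phi q L η n ε s) W A)
        (phi q L η n ε t (gen q L (cyl W A)) / PP (phi q L η n ε t) W A) t := by
      unfold GG
      exact (h2.log hp.ne').sub_const _
    refine (h2.mul h3).congr_deriv ?_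
    field_simp
  have hsum := HasDerivAt.fun_sum hterm
  unfold HH
  refine hsum.congr_deriv ?_
  rw [Finset.sum_add_distrib]
  have hz : ∑ A ∈ W.powerset, phi q L η n ε t (gen q L (cyl W A)) = 0 := by
    rw [← hst.sum]
    have : (fun ζ => ∑ A ∈ W.powerset, gen q L (cyl W A) ζ) = fun _ => 0 := by
      funext ζ
      have h4 : ∑ A ∈ W.powerset, gen q L (cyl W A) ζ = gen q L (fun ξ => ∑ A ∈ W.powerset, cyl W A ξ) ζ := by
        unfold gen
        rw [Finset.sum_comm]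
        refine Finset.sum_congr rfl fun x _ => ?_
        rw [Finset.sum_sub_distrib]
        congr 1
        unfold KK
        split_ifs
        · rw [Finset.sum_add_distrib, Finset.mul_sum, Finset.mul_sum]
        · rfl
      rw [h4]
      have h5 : (fun ξ => ∑ A ∈ W.powerset, cyl W A ξ) = fun _ => (1:ℝ) := funext (sum_cyl W)
      rw [h5, gen_const]
    rw [this, hst.zero]
  rw [hz, add_zero]

end Pool.Agent.LibFA
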