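import Pool.Agent.LibFA.Evolution

open Filter Topology

namespace Pool.Agent.LibFA

theorem SS_le_add {q : ℝ} (h0 : 0 ≤ q) (h1 : q ≤ 1) (L : ℕ) {g : Cfg → ℝ} {D : ℝ}
    (hg : ∀ ζ, gen q L g ζ ≤ D) {t : ℝ} (ht : 0 ≤ t) (η : Cfg) : SS q L t g η ≤ g η + D * t := by
  have hd : ∀ s, HasDerivAt (fun s => SS q L s g η - D * s) (SS q L s (gen q L g) η - D * 1) s :=
    fun s => (hasDerivAt_SS q L g s η).sub ((hasDerivAt_id s).const_mul D)
  have hanti : AntitoneOn (fun s => SS q L s g η - D * s) (Set.Icc 0 t) := by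
    refine antitoneOn_of_deriv_nonpos (convex_Icc 0 t)
      (fun s _ => (hd s).continuousAt.continuousWithinAt) ?_ ?_
    · intro s _
      exact (hd s).differentiableAt.differentiableWithinAt
    · intro s hs
      rw [interior_Icc] at hs
      rw [(hd s).deriv]
      have := SS_mono h0 h1 L hs.1.le (g := gen q L g) (h := fun _ => D) hg η
      rw [SS_const] at this
      linarith
  have := hanti (Set.left_mem_Icc.2 ht) (Set.right_mem_Icc.2 ht) ht
  simp only [SS_zero, mul_zero, sub_zero] at this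
  linarith

theorem gen_uu_add {q : ℝ} (h0 : 0 ≤ q) (h1 : q ≤ 1) (L n : ℕ) (ψ : ℕ → ℝ) {D : ℝ} (hD : 0 < D)
    (hψ : ∀ k, 0 ≤ ψ k) (hup : ∀ k, ψ (k + 1) - ψ k ≤ D)
    (hdown : ∀ k, ψ k - ψ (k + 1) ≤ D) (η : Cfg) :
    gen q L (fun ζ => ψ (uu n ζ)) η ≤ 4 * D := by
  refine le_of_forall_pos_le_add fun ε hε => ?_
  set P := ψ (uu n η) with hP
  have hP0 : 0 ≤ P := hψ _
  set A := 4 * D * (P + 1) / ε with hA
  have hA0 : 0 < A := by positivity
  have h2 := gen_uu_le h0 h1 L n (fun k => ψ k + A) (D / A) (fun k => by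
      have := hψ k
      positivity) (fun k => by
      have h3 := hup k
      have h4 := hψ k
      have h5 : D / A * (ψ k + A) = D + D / A * ψ k := by field_simp; ring
      have h6 : 0 ≤ D / A * ψ k := by positivity
      rw [h5]; linarith) (fun k => by
      have h3 := hdown k
      have h4 := hψ (k + 1)
      have h5 : D / A * (ψ (k + 1) + A) = D + D / A * ψ (k + 1) := by field_simp; ring
      have h6 : 0 ≤ D / A * ψ (k + 1) := by positivity
      rw [h5]; linarith) η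
  have h7 : gen q L (fun ζ => ψ (uu n ζ) + A) = gen q L (fun ζ => ψ (uu n ζ)) := by
    have : (fun ζ => ψ (uu n ζ) + A) = (fun ζ => ψ (uu n ζ)) + (fun _ => A) := rfl
    rw [this, gen_add, gen_const]
    funext ζ; simp
  rw [h7] at h2
  refine h2.trans ?_
  have h8 : 4 * (D / A) * (ψ (uu n η) + A) = 4 * D + 4 * D * P / A := by
    rw [← hP]; field_simp; ring
  rw [h8]
  have h9 : 4 * D * P / A ≤ ε := by
    rw [div_le_iff₀ hA0, hA]
    have : ε * (4 * D * (P + 1) / ε) = 4 * D * (P + 1) := by field_simp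
    rw [this]
    nlinarith
  linarith

theorem SS_uu_add {q : ℝ} (h0 : 0 ≤ q) (h1 : q ≤ 1) (L n : ℕ) (ψ : ℕ → ℝ)
    (hψ : ∀ k, 0 ≤ ψ k) (hup : ∀ k, ψ (k + 1) - ψ k ≤ 1)
    (hdown : ∀ k, ψ k - ψ (k + 1) ≤ 1) {t : ℝ} (ht : 0 ≤ t) (η : Cfg) :
    SS q L t (fun ζ => ψ (uu n ζ)) η ≤ ψ (uu n η) + 4 * t := by
  have := SS_le_add h0 h1 L (g := fun ζ => ψ (uu n ζ)) (D := 4)
    (fun ζ => by
      have := gen_uu_add h0 h1 L n ψ one_pos hψ hup hdown ζ
      linarith) ht η
  exact this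

/-- the distance, as a real function -/
noncomputable def UU (L : ℕ) : Cfg → ℝ := fun ζ => (uu (L + 1) ζ : ℝ)

theorem UU_nonneg (L : ℕ) (η : Cfg) : 0 ≤ UU L η := Nat.cast_nonneg _

theorem SS_UU_le {q : ℝ} (h0 : 0 ≤ q) (h1 : q ≤ 1) (L : ℕ) {t : ℝ} (ht : 0 ≤ t) (η : Cfg) :
    SS q L t (UU L) η ≤ UU L η + 4 * t := by
  refine SS_uu_add h0 h1 L (L + 1) (fun k => (k:ℝ)) (fun k => Nat.cast_nonneg _) (fun k => ?_) (fun k => ?_) ht η
  · push_cast; linarith
  · push_cast; linarith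

theorem SS_Xf_le {q : ℝ} (h0 : 0 ≤ q) (h1 : q ≤ 1) (L : ℕ) {M : ℕ} {t : ℝ} (ht : 0 ≤ t) (η : Cfg) :
    SS q L t (Xf M) η ≤ Xf M η + 4 * t := by
  have := SS_uu_add h0 h1 L (M + 1) (fun k => |(M:ℝ) + 1 - k|) (fun k => abs_nonneg _) (fun k => ?_) (fun k => ?_) ht η
  · have e : (fun ζ : Cfg => |(M:ℝ) + 1 - (uu (M + 1) ζ : ℝ)|) = Xf M := by
      funext ζ
      exact abs_of_nonneg (Xf_nonneg M ζ)
    rw [e] at this
    have e2 : |(M:ℝ) + 1 - (uu (M + 1) η : ℝ)| = Xf M η := congrFun e η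
    rw [← e2]
    exact this
  · have := abs_sub_abs_le_abs_sub ((M:ℝ) + 1 - ((k + 1 : ℕ):ℝ)) ((M:ℝ) + 1 - k)
    refine this.trans ?_
    push_cast
    rw [show (M:ℝ) + 1 - (k + 1) - (M + 1 - k) = -1 by ring]
    simp
  · have := abs_sub_abs_le_abs_sub ((M:ℝ) + 1 - k) ((M:ℝ) + 1 - ((k + 1 : ℕ):ℝ))
    refine this.trans ?_
    push_cast
    rw [show (M:ℝ) + 1 - k - ((M:ℝ) + 1 - (k + 1)) = 1 by ring]
    simp

theorem exp_one_lt : Real.exp 1 < 2.75 := by
  have := Real.exp_one_lt_d9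
  linarith

theorem SS_exp1 {q : ℝ} (h0 : 0 ≤ q) (h1 : q ≤ 1) (L : ℕ) {t : ℝ} (ht : 0 ≤ t) (η : Cfg) :
    SS q L t (fun ζ => Real.exp |UU L ζ - UU L η|) η ≤ Real.exp (7 * t) := by
  have := SS_exp_abs_le h0 h1 L (L + 1) (θ := 1) zero_le_one (UU L η) ht η
  simp only [one_mul] at this
  refine this.trans ?_
  have e : (uu (L + 1) η : ℝ) - UU L η = 0 := by unfold UU; ring
  rw [e, abs_zero, Real.exp_zero, mul_one, Real.exp_le_exp]
  have := exp_one_lt
  nlinarith

theorem SS_exp2 {q : ℝ} (h0 : 0 ≤ q) (h1 : q ≤ 1) (L : ℕ) {t : ℝ} (ht : 0 ≤ t) (η : Cfg) :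
    SS q L t (fun ζ => Real.exp (2 * |UU L ζ - UU L η|)) η ≤ Real.exp (28 * t) := by
  have := SS_exp_abs_le h0 h1 L (L + 1) (θ := 2) zero_le_two (UU L η) ht η
  refine this.trans ?_
  have e : (uu (L + 1) η : ℝ) - UU L η = 0 := by unfold UU; ring
  rw [e, abs_zero, mul_zero, Real.exp_zero, mul_one, Real.exp_le_exp]
  have h3 := exp_one_lt
  have h4 : Real.exp 2 = Real.exp 1 * Real.exp 1 := by rw [← Real.exp_add]; norm_num
  have h5 : Real.exp 2 ≤ 8 := by
    rw [h4]
    have := Real.exp_pos 1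
    nlinarith
  nlinarith

theorem sq_le_exp {x : ℝ} (hx : 0 ≤ x) : x ^ 2 ≤ 2 * Real.exp x := by
  have := Real.quadratic_le_exp_of_nonneg hx
  nlinarith

/-- one step of the second moment recursion -/
theorem step_sq {q : ℝ} (h0 : 0 ≤ q) (h1 : q ≤ 1) (L : ℕ) {a S : ℝ} (ha0 : 0 ≤ a) (ha5 : a ≤ 5)
    (hS : 0 ≤ S) (c : ℝ) (ζ : Cfg) :
    SS q L S (fun ξ => (max (UU L ξ - c - a * S) 0) ^ 2) ζ ≤
      (max (UU L ζ - c) 0) ^ 2 + 2 * max (UU L ζ - c) 0 * (SS q L S (UU L) ζ - UU L ζ - a * S) +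
        (4 * Real.exp (7 * S) + 50 * S ^ 2) := by
  set y := UU L ζ - c with hy
  have hpt : ∀ ξ, (max (UU L ξ - c - a * S) 0) ^ 2 ≤
      (((max y 0) ^ 2 - 2 * max y 0 * (UU L ζ + a * S) + 50 * S ^ 2) + 2 * max y 0 * UU L ξ) +
        4 * Real.exp |UU L ξ - UU L ζ| := by
    intro ξ
    set Δ := UU L ξ - UU L ζ - a * S with hΔ
    have e1 : UU L ξ - c - a * S = y + Δ := by rw [hy, hΔ]; ring
    rw [e1]
    have h2 : (max (y + Δ) 0) ^ 2 ≤ (max y 0) ^ 2 + 2 * max y 0 * Δ + Δ ^ 2 := by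
      rcases le_total y 0 with h | h
      · rw [max_eq_right h]
        rcases le_total (y + Δ) 0 with h' | h'
        · rw [max_eq_right h']; nlinarith [sq_nonneg Δ]
        · rw [max_eq_left h']; nlinarith
      · rw [max_eq_left h]
        rcases le_total (y + Δ) 0 with h' | h'
        · rw [max_eq_right h']; nlinarith [sq_nonneg (y + Δ)]
        · rw [max_eq_left h']; nlinarith
    have h3 : Δ ^ 2 ≤ 4 * Real.exp |UU L ξ - UU L ζ| + 50 * S ^ 2 := by
      have h4 := sq_le_exp (abs_nonneg (UU L ξ - UU L ζ))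
      rw [sq_abs] at h4
      have h5 : Δ ^ 2 ≤ 2 * (UU L ξ - UU L ζ) ^ 2 + 2 * (a * S) ^ 2 := by
        rw [hΔ]; nlinarith [sq_nonneg (UU L ξ - UU L ζ + a * S)]
      have h6 : (a * S) ^ 2 ≤ 25 * S ^ 2 := by
        rw [mul_pow]
        have : a ^ 2 ≤ 25 := by nlinarith
        nlinarith [sq_nonneg S]
      linarith
    have h7 : 2 * max y 0 * Δ = 2 * max y 0 * UU L ξ - 2 * max y 0 * (UU L ζ + a * S) := by
      rw [hΔ]; ring
    linarith
  have h8 := SS_mono h0 h1 L hS hpt ζ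
  have h9 : (fun ξ => (((max y 0) ^ 2 - 2 * max y 0 * (UU L ζ + a * S) + 50 * S ^ 2) + 2 * max y 0 * UU L ξ) +
        4 * Real.exp |UU L ξ - UU L ζ|) =
      ((fun _ => (max y 0) ^ 2 - 2 * max y 0 * (UU L ζ + a * S) + 50 * S ^ 2) + (2 * max y 0) • UU L) +
        (4:ℝ) • (fun ξ => Real.exp |UU L ξ - UU L ζ|) := by
    funext ξ
    simp only [Pi.add_apply, Pi.smul_apply, smul_eq_mul]
  rw [h9, SS_lin_add, SS_lin_add, SS_lin_smul, SS_lin_smul, SS_const] at h8
  simp only [Pi.add_apply, Pi.smul_apply, smul_eq_mul] at h8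
  have h10 := SS_exp1 h0 h1 L hS ζ
  linarith

/-- second moment of the positive part of the deviation -/
theorem G_bound {q : ℝ} (h0 : 0 ≤ q) (h1 : q ≤ 1) {a S : ℝ} (ha0 : 0 ≤ a) (ha5 : a ≤ 5)
    (hS : 1 ≤ S) (R₁ : ℕ)
    (hdrift : ∀ (L : ℕ) (η : Cfg), R₁ ≤ uu (L + 1) η → uu (L + 1) η + R₁ ≤ L →
      SS q L S (UU L) η ≤ UU L η + a * S) (T : ℝ) :
    ∃ R₀ : ℕ, ∀ R : ℕ, R₀ ≤ R → ∀ (L : ℕ) (η : Cfg), R ≤ uu (L + 1) η → uu (L + 1) η + R ≤ L →
      ∀ t, 0 ≤ t → t ≤ T → SS q L t (fun ζ => (max (UU L ζ - UU L η - a * t) 0) ^ 2) η ≤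
        (t + 1) * (4 * Real.exp (7 * S) + 50 * S ^ 2 + 1) := by
  obtain ⟨R₀, hR₀⟩ := exists_nat_ge (R₁ + 28 * T + Real.log (8 * S))
  refine ⟨R₀, fun R hRR L η hR1 hR2 => ?_⟩
  set K := 4 * Real.exp (7 * S) + 50 * S ^ 2 + 1 with hK
  have hK0 : 0 < K := by positivity
  have hRreal : (R₁:ℝ) + 28 * T + Real.log (8 * S) ≤ R := hR₀.trans (by exact_mod_cast hRR)
  have hind : ∀ j : ℕ, ∀ r : ℝ, 0 ≤ r → r ≤ S → r + j * S ≤ T →
      SS q L (r + j * S) (fun ζ => (max (UU L ζ - UU L η - a * (r + j * S)) 0) ^ 2) η ≤ (j + 1) * K := by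
    intro j
    induction j with
    | zero =>
      intro r hr hrS _
      simp only [Nat.cast_zero, zero_mul, add_zero, zero_add, one_mul]
      have hpt : ∀ ζ, (max (UU L ζ - UU L η - a * r) 0) ^ 2 ≤ 2 * Real.exp |UU L ζ - UU L η| := by
        intro ζ
        have h2 : max (UU L ζ - UU L η - a * r) 0 ≤ |UU L ζ - UU L η| := by
          apply max_le _ (abs_nonneg _)
          have := le_abs_self (UU L ζ - UU L η)
          nlinarith
        have h3 : 0 ≤ max (UU L ζ - UU L η - a * r) 0 := le_max_right _ _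
        exact (pow_le_pow_left₀ h3 h2 2).trans (sq_le_exp (abs_nonneg _))
      have h4 := SS_mono h0 h1 L hr hpt η
      have h5 : (fun ζ => 2 * Real.exp |UU L ζ - UU L η|) = (2:ℝ) • (fun ζ => Real.exp |UU L ζ - UU L η|) := rfl
      rw [h5, SS_lin_smul] at h4
      simp only [Pi.smul_apply, smul_eq_mul] at h4
      have h6 := SS_exp1 h0 h1 L hr η
      have h7 : Real.exp (7 * r) ≤ Real.exp (7 * S) := Real.exp_le_exp.2 (by linarith)
      have h8 := Real.exp_pos (7 * S)
      have h9 := sq_nonneg S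
      rw [hK]
      linarith
    | succ j ih =>
      intro r hr hrS hrT
      have hjS : (0:ℝ) ≤ j * S := by positivity
      have hsplit : r + ((j + 1 : ℕ) : ℝ) * S = (r + j * S) + S := by push_cast; ring
      rw [hsplit] at hrT ⊢
      rw [SS_add]
      have hT' : r + j * S ≤ T := by linarith
      have ht0 : 0 ≤ r + j * S := by positivity
      have hih := ih r hr hrS hT'
      set t := r + j * S with ht
      set E := fun ζ : Cfg => 8 * S * (Real.exp (-((R:ℝ) - R₁)) * Real.exp (2 * |UU L ζ - UU L η|)) with hE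
      have hpt : ∀ ζ, SS q L S (fun ξ => (max (UU L ξ - UU L η - a * (t + S)) 0) ^ 2) ζ ≤
          ((max (UU L ζ - UU L η - a * t) 0) ^ 2 + (4 * Real.exp (7 * S) + 50 * S ^ 2)) + E ζ := by
        intro ζ
        have h2 := step_sq h0 h1 L ha0 ha5 (by linarith : (0:ℝ) ≤ S) (UU L η + a * t) ζ
        have e1 : (fun ξ => (max (UU L ξ - UU L η - a * (t + S)) 0) ^ 2) =
            (fun ξ => (max (UU L ξ - (UU L η + a * t) - a * S) 0) ^ 2) := by
          funext ξ; congr 2; ring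
        have e2 : UU L ζ - (UU L η + a * t) = UU L ζ - UU L η - a * t := by ring
        rw [e1]
        rw [e2] at h2
        refine h2.trans ?_
        set y := UU L ζ - UU L η - a * t with hy
        have hy0 : 0 ≤ max y 0 := le_max_right _ _
        have hE0 : 0 ≤ E ζ := by simp only [hE]; positivity
        by_cases hgood : R₁ ≤ uu (L + 1) ζ ∧ uu (L + 1) ζ + R₁ ≤ L
        · have h3 := hdrift L ζ hgood.1 hgood.2
          have h4 : 2 * max y 0 * (SS q L S (UU L) ζ - UU L ζ - a * S) ≤ 0 :=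
            mul_nonpos_of_nonneg_of_nonpos (by positivity) (by linarith)
          linarith
        · have h3 := SS_UU_le h0 h1 L (by linarith : (0:ℝ) ≤ S) ζ
          have h4 : SS q L S (UU L) ζ - UU L ζ - a * S ≤ 4 * S := by
            have : 0 ≤ a * S := by positivity
            linarith
          have h5 : (R:ℝ) - R₁ ≤ |UU L ζ - UU L η| := by
            rw [not_and_or, not_le, not_le] at hgood
            rcases hgood with h | h
            · have h6 : (uu (L + 1) ζ : ℝ) ≤ R₁ := by exact_mod_cast h.le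
              have h7 : (R:ℝ) ≤ uu (L + 1) η := by exact_mod_cast hR1
              have h8 := neg_abs_le (UU L ζ - UU L η)
              unfold UU at h8 ⊢
              linarith
            · have h6 : (L:ℝ) ≤ uu (L + 1) ζ + R₁ := by exact_mod_cast h.le
              have h7 : (uu (L + 1) η : ℝ) + R ≤ L := by exact_mod_cast hR2
              have h8 := le_abs_self (UU L ζ - UU L η)
              unfold UU at h8 ⊢
              linarith
          have h6 : max y 0 ≤ Real.exp |UU L ζ - UU L η| := by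
            have h7 : max y 0 ≤ |UU L ζ - UU L η| := by
              apply max_le _ (abs_nonneg _)
              have := le_abs_self (UU L ζ - UU L η)
              have : 0 ≤ a * t := by positivity
              linarith
            have := Real.add_one_le_exp |UU L ζ - UU L η|
            linarith
          have h9 : (1:ℝ) ≤ Real.exp (-((R:ℝ) - R₁)) * Real.exp |UU L ζ - UU L η| := by
            rw [← Real.exp_add]
            exact Real.one_le_exp (by linarith)
          have h10 : max y 0 ≤ Real.exp (-((R:ℝ) - R₁)) * Real.exp (2 * |UU L ζ - UU L η|) := by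
            have h11 : Real.exp (2 * |UU L ζ - UU L η|) =
                Real.exp |UU L ζ - UU L η| * Real.exp |UU L ζ - UU L η| := by
              rw [← Real.exp_add]; congr 1; ring
            rw [h11, ← mul_assoc]
            have h12 := Real.exp_pos |UU L ζ - UU L η|
            nlinarith
          have h13 : 2 * max y 0 * (SS q L S (UU L) ζ - UU L ζ - a * S) ≤ E ζ := by
            calc _ ≤ 2 * max y 0 * (4 * S) := mul_le_mul_of_nonneg_left h4 (by positivity)
              _ = 8 * S * max y 0 := by ring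
              _ ≤ _ := mul_le_mul_of_nonneg_left h10 (by positivity)
          linarith
      have h14 := SS_mono h0 h1 L ht0 hpt η
      have h15 : (fun ζ => ((max (UU L ζ - UU L η - a * t) 0) ^ 2 + (4 * Real.exp (7 * S) + 50 * S ^ 2)) + E ζ) =
          ((fun ζ => (max (UU L ζ - UU L η - a * t) 0) ^ 2) + (fun _ => 4 * Real.exp (7 * S) + 50 * S ^ 2)) +
            (8 * S * Real.exp (-((R:ℝ) - R₁))) • (fun ζ => Real.exp (2 * |UU L ζ - UU L η|)) := by
        funext ζ
        simp only [hE, Pi.add_apply, Pi.smul_apply, smul_eq_mul]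
        ring
      rw [h15, SS_lin_add, SS_lin_add, SS_lin_smul, SS_const] at h14
      simp only [Pi.add_apply, Pi.smul_apply, smul_eq_mul] at h14
      have h16 := SS_exp2 h0 h1 L ht0 η
      have h17 : 8 * S * Real.exp (-((R:ℝ) - R₁)) * Real.exp (28 * t) ≤ 1 := by
        have e3 : 8 * S = Real.exp (Real.log (8 * S)) := (Real.exp_log (by linarith)).symm
        rw [e3, ← Real.exp_add, ← Real.exp_add, Real.exp_le_one_iff]
        linarith
      have h18 : 8 * S * Real.exp (-((R:ℝ) - R₁)) * SS q L t (fun ζ => Real.exp (2 * |UU L ζ - UU L η|)) η ≤ 1 :=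
        (mul_le_mul_of_nonneg_left h16 (by positivity)).trans h17
      have h19 : ((j + 1 : ℕ) : ℝ) = (j:ℝ) + 1 := by push_cast; ring
      rw [h19]
      have e4 : ((j:ℝ) + 1 + 1) * K = (j + 1) * K + K := by ring
      rw [e4]
      refine h14.trans ?_
      rw [hK] at hih ⊢
      linarith
  intro t ht htT
  have hS0 : 0 < S := by linarith
  have hj := Nat.floor_le (div_nonneg ht hS0.le)
  have hj2 := Nat.lt_floor_add_one (t / S)
  set j := ⌊t / S⌋₊ with hjdef
  have h2 : (j:ℝ) * S ≤ t := by rwa [le_div_iff₀ hS0] at hj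
  have h3 : t ≤ (j:ℝ) * S + S := by
    rw [div_lt_iff₀ hS0] at hj2
    linarith
  have h4 := hind j (t - j * S) (by linarith) (by linarith) (by linarith)
  rw [sub_add_cancel] at h4
  refine h4.trans (mul_le_mul_of_nonneg_right ?_ hK0.le)
  have : (j:ℝ) ≤ j * S := by
    have : (0:ℝ) ≤ j := Nat.cast_nonneg _
    nlinarith
  linarith

end Pool.Agent.LibFA
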