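import Mathlib

open Filter Topology

namespace Pool.Agent.LibFA

/-- Configurations: `true` means infected. -/
abbrev Cfg := ℤ → Bool

/-- The update operator at site `x`. -/
noncomputable def KK (q : ℝ) (x : ℤ) (g : Cfg → ℝ) : Cfg → ℝ := fun η =>
  if η (x - 1) = true ∨ η (x + 1) = true then
    q * g (Function.update η x true) + (1 - q) * g (Function.update η x false)
  else g η

/-- The generator with active sites `|x| ≤ L`. -/
noncomputable def gen (q : ℝ) (L : ℕ) (g : Cfg → ℝ) : Cfg → ℝ := fun η =>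
  ∑ x ∈ Finset.Icc (-(L:ℤ)) (L:ℤ), (KK q x g η - g η)

abbrev Bx (L : ℕ) := {x : ℤ // x ∈ Finset.Icc (-(L:ℤ) - 1) ((L:ℤ) + 1)}

abbrev XX (L : ℕ) := Bx L → Bool

/-- configuration with interior given by `τ` and exterior by `η`. -/
noncomputable def emb (L : ℕ) (η : Cfg) (τ : XX L) : Cfg := fun y =>
  if h : y ∈ Finset.Icc (-(L:ℤ) - 1) ((L:ℤ) + 1) then τ ⟨y, h⟩ else η y

def res (L : ℕ) (η : Cfg) : XX L := fun x => η x.1

theorem emb_res (L : ℕ) (η : Cfg) : emb L η (res L η) = η := by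
  funext y
  simp only [emb, res]
  split_ifs <;> rfl

theorem res_emb (L : ℕ) (η : Cfg) (τ : XX L) : res L (emb L η τ) = τ := by
  funext y
  simp only [emb, res]
  rw [dif_pos y.2]

theorem emb_emb (L : ℕ) (η : Cfg) (τ σ : XX L) : emb L (emb L η τ) σ = emb L η σ := by
  funext y
  simp only [emb]
  split_ifs <;> rfl

theorem emb_update (L : ℕ) (η : Cfg) (τ : XX L) (x : Bx L) (v : Bool) :
    emb L η (Function.update τ x v) = Function.update (emb L η τ) x.1 v := by
  funext y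
  by_cases hy : y = x.1
  · subst hy
    simp only [emb, Function.update_self]
    rw [dif_pos x.2]
  · rw [Function.update_of_ne hy]
    simp only [emb]
    split_ifs with h
    · rw [Function.update_of_ne]
      intro hh
      exact hy (congrArg Subtype.val hh)
    · rfl

/-- the generator matrix of the frozen statement. -/
noncomputable def MM (q : ℝ) (L : ℕ) : Matrix (XX L) (XX L) ℝ :=
  Matrix.of (fun σ' τ' : ({x : ℤ // x ∈ Finset.Icc (-(L:ℤ) - 1) ((L:ℤ) + 1)} → Bool) =>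
    ∑ x : {x : ℤ // x ∈ Finset.Icc (-(L:ℤ) - 1) ((L:ℤ) + 1)},
      if |x.1| ≤ (L:ℤ) ∧
          ((if h : x.1 - 1 ∈ Finset.Icc (-(L:ℤ) - 1) ((L:ℤ) + 1)
              then σ' ⟨x.1 - 1, h⟩ else false) = true ∨
           (if h : x.1 + 1 ∈ Finset.Icc (-(L:ℤ) - 1) ((L:ℤ) + 1)
              then σ' ⟨x.1 + 1, h⟩ else false) = true)
      then q * (if τ' = Function.update σ' x true then (1:ℝ) else 0)
        + (1 - q) * (if τ' = Function.update σ' x false then (1:ℝ) else 0)
        - (if τ' = σ' then (1:ℝ) else 0)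
      else 0)

theorem MM_mulVec (q : ℝ) (L : ℕ) (η : Cfg) (g : Cfg → ℝ) (σ : XX L) :
    (MM q L).mulVec (fun τ => g (emb L η τ)) σ = gen q L g (emb L η σ) := by
  simp only [Matrix.mulVec, dotProduct, MM, Matrix.of_apply, Finset.sum_mul]
  rw [Finset.sum_comm]
  -- right-hand side as a sum over the box
  have hR : gen q L g (emb L η σ) = ∑ x : Bx L, if |x.1| ≤ (L:ℤ) then
      (KK q x.1 g (emb L η σ) - g (emb L η σ)) else 0 := by
    unfold gen
    rw [Finset.univ_eq_attach, Finset.sum_attach (Finset.Icc (-(L:ℤ) - 1) ((L:ℤ) + 1))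
      (fun x => if |x| ≤ (L:ℤ) then (KK q x g (emb L η σ) - g (emb L η σ)) else 0)]
    rw [← Finset.sum_filter]
    apply Finset.sum_congr _ (fun _ _ => rfl)
    ext x
    simp only [Finset.mem_Icc, Finset.mem_filter, abs_le]
    constructor
    · rintro ⟨h1, h2⟩; exact ⟨⟨by omega, by omega⟩, h1, h2⟩
    · rintro ⟨_, h1, h2⟩; exact ⟨h1, h2⟩
  rw [hR]
  refine Finset.sum_congr rfl fun x _ => ?_
  by_cases hx : |x.1| ≤ (L:ℤ)
  · have hx' := abs_le.1 hx
    have hm : x.1 - 1 ∈ Finset.Icc (-(L:ℤ) - 1) ((L:ℤ) + 1) := by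
      rw [Finset.mem_Icc]; constructor <;> omega
    have hp : x.1 + 1 ∈ Finset.Icc (-(L:ℤ) - 1) ((L:ℤ) + 1) := by
      rw [Finset.mem_Icc]; constructor <;> omega
    simp only [hx, true_and, dif_pos hm, dif_pos hp, if_true]
    have e1 : emb L η σ (x.1 - 1) = σ ⟨x.1 - 1, hm⟩ := by simp only [emb, dif_pos hm]
    have e2 : emb L η σ (x.1 + 1) = σ ⟨x.1 + 1, hp⟩ := by simp only [emb, dif_pos hp]
    unfold KK
    rw [e1, e2]
    by_cases hc : σ ⟨x.1 - 1, hm⟩ = true ∨ σ ⟨x.1 + 1, hp⟩ = true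
    · simp only [hc, if_true]
      rw [← emb_update, ← emb_update]
      simp only [sub_mul, add_mul, mul_assoc, ite_mul, one_mul, zero_mul,
        Finset.sum_sub_distrib, Finset.sum_add_distrib, ← Finset.mul_sum, Finset.sum_ite_eq',
        Finset.mem_univ, if_true]
    · simp only [hc, if_false, zero_mul, Finset.sum_const_zero, sub_self]
  · simp only [hx, false_and, if_false, zero_mul, Finset.sum_const_zero]

/-- the generator as a continuous linear map on functions of the box. -/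
noncomputable def AA (q : ℝ) (L : ℕ) : (XX L → ℝ) →L[ℝ] (XX L → ℝ) :=
  LinearMap.toContinuousLinearMap (Matrix.mulVecLin (MM q L))

theorem AA_apply (q : ℝ) (L : ℕ) (h : XX L → ℝ) : AA q L h = (MM q L).mulVec h := rfl

theorem AA_emb (q : ℝ) (L : ℕ) (η : Cfg) (g : Cfg → ℝ) :
    AA q L (fun τ => g (emb L η τ)) = fun τ => gen q L g (emb L η τ) := by
  rw [AA_apply]
  funext σ
  exact MM_mulVec q L η g σ

/-- The semigroup, acting on arbitrary functions. -/
noncomputable def SS (q : ℝ) (L : ℕ) (t : ℝ) (g : Cfg → ℝ) : Cfg → ℝ := fun η =>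
  (NormedSpace.exp (t • AA q L)) (fun τ => g (emb L η τ)) (res L η)

theorem SS_emb (q : ℝ) (L : ℕ) (t : ℝ) (g : Cfg → ℝ) (η : Cfg) :
    (fun τ => SS q L t g (emb L η τ)) = (NormedSpace.exp (t • AA q L)) (fun τ => g (emb L η τ)) := by
  funext τ
  simp only [SS, emb_emb, res_emb]

theorem SS_add (q : ℝ) (L : ℕ) (t s : ℝ) (g : Cfg → ℝ) :
    SS q L (t + s) g = SS q L t (SS q L s g) := by
  funext η
  have h1 : SS q L t (SS q L s g) η =
      (NormedSpace.exp (t • AA q L)) ((NormedSpace.exp (s • AA q L)) (fun τ => g (emb L η τ))) (res L η) := by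
    rw [← SS_emb]; rfl
  rw [h1]
  unfold SS
  let _ : NormedAlgebra ℚ ((XX L → ℝ) →L[ℝ] (XX L → ℝ)) := NormedAlgebra.restrictScalars ℚ ℝ _
  rw [add_smul, NormedSpace.exp_add_of_commute]
  · rfl
  · exact (Commute.refl (AA q L)).smul_left t |>.smul_right s

theorem SS_zero (q : ℝ) (L : ℕ) (g : Cfg → ℝ) : SS q L 0 g = g := by
  funext η
  unfold SS
  rw [zero_smul, NormedSpace.exp_zero]
  simp only [one_apply_eq_self, emb_res]

theorem SS_lin_add (q : ℝ) (L : ℕ) (t : ℝ) (g h : Cfg → ℝ) :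
    SS q L t (g + h) = SS q L t g + SS q L t h := by
  funext η
  simp only [SS, Pi.add_apply]
  have : (fun τ => g (emb L η τ) + h (emb L η τ)) =
    (fun τ => g (emb L η τ)) + (fun τ => h (emb L η τ)) := rfl
  rw [this, map_add]
  rfl

theorem SS_lin_smul (q : ℝ) (L : ℕ) (t : ℝ) (c : ℝ) (g : Cfg → ℝ) :
    SS q L t (c • g) = c • SS q L t g := by
  funext η
  simp only [SS, Pi.smul_apply]
  have : (fun τ => c • g (emb L η τ)) = c • (fun τ => g (emb L η τ)) := rfl
  rw [this, map_smul]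
  rfl

/-- commutation with the generator -/
theorem gen_SS (q : ℝ) (L : ℕ) (t : ℝ) (g : Cfg → ℝ) :
    gen q L (SS q L t g) = SS q L t (gen q L g) := by
  funext η
  have h1 : gen q L (SS q L t g) η = (AA q L (fun τ => SS q L t g (emb L η τ))) (res L η) := by
    rw [AA_emb]
    simp only [emb_res]
  rw [h1, SS_emb]
  unfold SS
  rw [← AA_emb]
  let _ : NormedAlgebra ℚ ((XX L → ℝ) →L[ℝ] (XX L → ℝ)) := NormedAlgebra.restrictScalars ℚ ℝ _
  have hcomm : Commute (AA q L) (NormedSpace.exp (t • AA q L)) :=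
    ((Commute.refl (AA q L)).smul_right t).exp_right
  have := congrArg (fun T : (XX L → ℝ) →L[ℝ] (XX L → ℝ) => T (fun τ => g (emb L η τ)) (res L η)) hcomm.eq
  simpa using this

theorem hasDerivAt_SS_fun (q : ℝ) (L : ℕ) (v : ℝ → Cfg → ℝ) (v' : Cfg → ℝ) (t : ℝ)
    (hv : ∀ η, HasDerivAt (fun s => v s η) (v' η) t) (η : Cfg) :
    HasDerivAt (fun s => SS q L s (v s) η) (SS q L t (gen q L (v t)) η + SS q L t v' η) t := by
  have h1 : HasDerivAt (fun s : ℝ => NormedSpace.exp (s • AA q L))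
      (NormedSpace.exp (t • AA q L) * AA q L) t := hasDerivAt_exp_smul_const (AA q L) t
  have h2 : HasDerivAt (fun s => fun τ => v s (emb L η τ)) (fun τ => v' (emb L η τ)) t :=
    hasDerivAt_pi.2 fun τ => hv _
  have h3 := h1.clm_apply h2
  have h4 := (hasDerivAt_pi.1 h3) (res L η)
  have h5 : SS q L t (gen q L (v t)) η + SS q L t v' η =
      ((NormedSpace.exp (t • AA q L) * AA q L) (fun τ => v t (emb L η τ)) +
      (NormedSpace.exp (t • AA q L)) (fun τ => v' (emb L η τ))) (res L η) := by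
    unfold SS
    rw [← AA_emb]
    rfl
  rw [h5]
  exact h4

theorem hasDerivAt_SS (q : ℝ) (L : ℕ) (g : Cfg → ℝ) (t : ℝ) (η : Cfg) :
    HasDerivAt (fun s => SS q L s g η) (SS q L t (gen q L g) η) t := by
  have h := hasDerivAt_SS_fun q L (fun _ => g) (fun _ => 0) t (fun η => hasDerivAt_const t (g η)) η
  have h0 : SS q L t (fun _ => 0) η = 0 := by
    have := SS_lin_smul q L t 0 (fun _ => 0)
    rw [zero_smul, zero_smul] at this
    exact congrFun this η
  rw [h0, add_zero] at h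
  exact h

/-- the sum of the update operators -/
noncomputable def KS (q : ℝ) (L : ℕ) (g : Cfg → ℝ) : Cfg → ℝ := fun η =>
  ∑ x ∈ Finset.Icc (-(L:ℤ)) (L:ℤ), KK q x g η

theorem card_sites (L : ℕ) : (Finset.Icc (-(L:ℤ)) (L:ℤ)).card = 2 * L + 1 := by
  rw [Int.card_Icc]; omega

theorem KS_eq (q : ℝ) (L : ℕ) (g : Cfg → ℝ) (η : Cfg) :
    KS q L g η = gen q L g η + (2 * L + 1 : ℝ) * g η := by
  unfold KS gen
  rw [Finset.sum_sub_distrib, Finset.sum_const, card_sites]
  push_cast [nsmul_eq_mul]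
  ring

noncomputable def KA (q : ℝ) (L : ℕ) : (XX L → ℝ) →L[ℝ] (XX L → ℝ) :=
  AA q L + ((2 * L + 1 : ℝ)) • (1 : (XX L → ℝ) →L[ℝ] (XX L → ℝ))

theorem KA_emb (q : ℝ) (L : ℕ) (η : Cfg) (g : Cfg → ℝ) :
    KA q L (fun τ => g (emb L η τ)) = fun τ => KS q L g (emb L η τ) := by
  unfold KA
  funext τ
  have := congrFun (AA_emb q L η g) τ
  change AA q L (fun τ => g (emb L η τ)) τ + (2 * L + 1 : ℝ) • g (emb L η τ) = _
  rw [this, KS_eq, smul_eq_mul]

theorem KA_pow_emb (q : ℝ) (L : ℕ) (η : Cfg) (n : ℕ) : ∀ (g : Cfg → ℝ),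
    ((KA q L) ^ n) (fun τ => g (emb L η τ)) = fun τ => ((KS q L)^[n] g) (emb L η τ) := by
  induction n with
  | zero => intro g; rfl
  | succ n ih =>
    intro g
    rw [pow_succ]
    change ((KA q L) ^ n) (KA q L (fun τ => g (emb L η τ))) = _
    rw [KA_emb, ih]
    rfl

theorem hasSum_SS (q : ℝ) (L : ℕ) (t : ℝ) (g : Cfg → ℝ) (η : Cfg) :
    HasSum (fun n : ℕ => Real.exp (-((2 * L + 1) * t)) * (t ^ n / (n.factorial : ℝ) * ((KS q L)^[n] g) η))
      (SS q L t g η) := by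
  let _ : NormedAlgebra ℚ ((XX L → ℝ) →L[ℝ] (XX L → ℝ)) := NormedAlgebra.restrictScalars ℚ ℝ _
  have h1 : t • AA q L = algebraMap ℝ ((XX L → ℝ) →L[ℝ] (XX L → ℝ)) (-((2 * L + 1) * t)) + t • KA q L := by
    rw [Algebra.algebraMap_eq_smul_one]
    unfold KA
    rw [smul_add, smul_smul, neg_smul]
    rw [mul_comm t]
    abel
  have h2 : NormedSpace.exp (t • AA q L) = Real.exp (-((2 * L + 1) * t)) • NormedSpace.exp (t • KA q L) := by
    rw [h1, NormedSpace.exp_add_of_commute (Algebra.commutes _ _), ← NormedSpace.algebraMap_exp_comm,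
      ← Real.exp_eq_exp_ℝ, Algebra.algebraMap_eq_smul_one, smul_mul_assoc, one_mul]
  have h3 := NormedSpace.exp_series_hasSum_exp' (𝕂 := ℝ) (t • KA q L)
  have h4 := h3.mapL ((ContinuousLinearMap.proj (R := ℝ) (φ := fun _ : XX L => ℝ) (res L η)).comp
    (ContinuousLinearMap.apply ℝ (XX L → ℝ) (fun τ => g (emb L η τ))))
  have h5 := h4.mul_left (Real.exp (-((2 * L + 1) * t)))
  have h6 : SS q L t g η = Real.exp (-((2 * L + 1) * t)) *
      ((ContinuousLinearMap.proj (R := ℝ) (φ := fun _ : XX L => ℝ) (res L η)).comp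
    (ContinuousLinearMap.apply ℝ (XX L → ℝ) (fun τ => g (emb L η τ)))) (NormedSpace.exp (t • KA q L)) := by
    unfold SS
    rw [h2]
    rfl
  rw [h6]
  refine h5.congr_fun ?_
  intro n
  congr 1
  have h7 := congrFun (KA_pow_emb q L η n g) (res L η)
  simp only [emb_res] at h7
  rw [← h7, smul_pow, div_eq_mul_inv, mul_comm (t ^ n), mul_assoc]
  rfl

/-- pointwise monotonicity tools -/
theorem KK_nonneg {q : ℝ} (h0 : 0 ≤ q) (h1 : q ≤ 1) (x : ℤ) {g : Cfg → ℝ} (hg : ∀ η, 0 ≤ g η) (η : Cfg) :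
    0 ≤ KK q x g η := by
  unfold KK
  split_ifs
  · exact add_nonneg (mul_nonneg h0 (hg _)) (mul_nonneg (by linarith) (hg _))
  · exact hg _

theorem KS_nonneg {q : ℝ} (h0 : 0 ≤ q) (h1 : q ≤ 1) (L : ℕ) {g : Cfg → ℝ} (hg : ∀ η, 0 ≤ g η) (η : Cfg) :
    0 ≤ KS q L g η := Finset.sum_nonneg fun x _ => KK_nonneg h0 h1 x hg η

theorem SS_nonneg {q : ℝ} (h0 : 0 ≤ q) (h1 : q ≤ 1) (L : ℕ) {t : ℝ} (ht : 0 ≤ t) {g : Cfg → ℝ}
    (hg : ∀ η, 0 ≤ g η) (η : Cfg) : 0 ≤ SS q L t g η := by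
  refine (hasSum_SS q L t g η).nonneg ?_
  intro n
  have h2 : ∀ n : ℕ, ∀ η, 0 ≤ ((KS q L)^[n] g) η := by
    intro n
    induction n with
    | zero => exact hg
    | succ n ih => intro η; rw [Function.iterate_succ_apply']; exact KS_nonneg h0 h1 L ih η
  have := h2 n η
  positivity

theorem KK_sub (q : ℝ) (x : ℤ) (g h : Cfg → ℝ) : KK q x (g - h) = KK q x g - KK q x h := by
  funext η
  simp only [KK, Pi.sub_apply]
  split_ifs <;> ring

theorem KK_add (q : ℝ) (x : ℤ) (g h : Cfg → ℝ) : KK q x (g + h) = KK q x g + KK q x h := by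
  funext η
  simp only [KK, Pi.add_apply]
  split_ifs <;> ring

theorem KK_smul (q : ℝ) (x : ℤ) (c : ℝ) (g : Cfg → ℝ) : KK q x (c • g) = c • KK q x g := by
  funext η
  simp only [KK, Pi.smul_apply, smul_eq_mul]
  split_ifs <;> ring

theorem KK_const (q : ℝ) (x : ℤ) (c : ℝ) : KK q x (fun _ => c) = fun _ => c := by
  funext η
  simp only [KK]
  split_ifs <;> ring

theorem gen_add (q : ℝ) (L : ℕ) (g h : Cfg → ℝ) : gen q L (g + h) = gen q L g + gen q L h := by
  funext η
  simp only [gen, KK_add, Pi.add_apply, ← Finset.sum_add_distrib]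
  refine Finset.sum_congr rfl fun x _ => by ring

theorem gen_smul (q : ℝ) (L : ℕ) (c : ℝ) (g : Cfg → ℝ) : gen q L (c • g) = c • gen q L g := by
  funext η
  simp only [gen, KK_smul, Pi.smul_apply, smul_eq_mul, Finset.mul_sum]
  refine Finset.sum_congr rfl fun x _ => by ring

theorem gen_const (q : ℝ) (L : ℕ) (c : ℝ) : gen q L (fun _ => c) = fun _ => 0 := by
  funext η
  simp only [gen, KK_const, sub_self, Finset.sum_const_zero]

theorem SS_sub (q : ℝ) (L : ℕ) (t : ℝ) (g h : Cfg → ℝ) :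
    SS q L t (g - h) = SS q L t g - SS q L t h := by
  have : g - h = g + (-1 : ℝ) • h := by
    funext η; simp [sub_eq_add_neg]
  rw [this, SS_lin_add, SS_lin_smul]
  funext η; simp [sub_eq_add_neg]

theorem SS_zero_fun (q : ℝ) (L : ℕ) (t : ℝ) : SS q L t (fun _ => 0) = fun _ => 0 := by
  have := SS_lin_smul q L t 0 (fun _ => 0)
  rw [zero_smul, zero_smul] at this
  exact this

theorem SS_const (q : ℝ) (L : ℕ) (t : ℝ) (c : ℝ) : SS q L t (fun _ => c) = fun _ => c := by
  funext η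
  have h : ∀ s : ℝ, HasDerivAt (fun s => SS q L s (fun _ => c) η) 0 s := by
    intro s
    have := hasDerivAt_SS q L (fun _ => c) s η
    rw [gen_const, SS_zero_fun] at this
    exact this
  have h2 := is_const_of_deriv_eq_zero (f := fun s => SS q L s (fun _ => c) η)
    (fun s => (h s).differentiableAt) (fun s => (h s).deriv) t 0
  rw [h2, SS_zero]

theorem SS_mono {q : ℝ} (h0 : 0 ≤ q) (h1 : q ≤ 1) (L : ℕ) {t : ℝ} (ht : 0 ≤ t) {g h : Cfg → ℝ}
    (hgh : ∀ η, g η ≤ h η) (η : Cfg) : SS q L t g η ≤ SS q L t h η := by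
  have := SS_nonneg h0 h1 L ht (g := h - g) (fun η => by simpa using hgh η) η
  rw [SS_sub] at this
  simpa using this

theorem SS_abs_le {q : ℝ} (h0 : 0 ≤ q) (h1 : q ≤ 1) (L : ℕ) {t : ℝ} (ht : 0 ≤ t) {g : Cfg → ℝ} {C : ℝ}
    (hg : ∀ η, |g η| ≤ C) (η : Cfg) : |SS q L t g η| ≤ C := by
  rw [abs_le]
  constructor
  · have := SS_mono h0 h1 L ht (g := fun _ => -C) (h := g) (fun η => (abs_le.1 (hg η)).1) η
    rwa [SS_const] at this
  · have := SS_mono h0 h1 L ht (g := g) (h := fun _ => C) (fun η => (abs_le.1 (hg η)).2) η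
    rwa [SS_const] at this

/-- Jensen for squares -/
theorem SS_sq_le {q : ℝ} (h0 : 0 ≤ q) (h1 : q ≤ 1) (L : ℕ) {t : ℝ} (ht : 0 ≤ t) (g : Cfg → ℝ) (η : Cfg) :
    (SS q L t g η) ^ 2 ≤ SS q L t (fun ζ => g ζ ^ 2) η := by
  set c := SS q L t g η with hc
  have h2 := SS_nonneg h0 h1 L ht (g := fun ζ => (g ζ - c) ^ 2) (fun ζ => sq_nonneg _) η
  have h3 : (fun ζ => (g ζ - c) ^ 2) = (fun ζ => g ζ ^ 2) + ((-2 * c) • g + fun _ => c ^ 2) := by
    funext ζ; simp only [Pi.add_apply, Pi.smul_apply, smul_eq_mul]; ring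
  rw [h3, SS_lin_add, SS_lin_add, SS_lin_smul, SS_const] at h2
  simp only [Pi.add_apply, Pi.smul_apply, smul_eq_mul] at h2
  rw [← hc] at h2
  nlinarith

/-- exponential growth bound -/
theorem SS_growth {q : ℝ} (h0 : 0 ≤ q) (h1 : q ≤ 1) (L : ℕ) {g : Cfg → ℝ} {C : ℝ}
    (hg : ∀ η, gen q L g η ≤ C * g η) {t : ℝ} (ht : 0 ≤ t) (η : Cfg) :
    SS q L t g η ≤ Real.exp (C * t) * g η := by
  have h : ∀ s : ℝ, HasDerivAt (fun s => Real.exp (-(C * s)) * SS q L s g η)
      (Real.exp (-(C * s)) * (-C) * SS q L s g η + Real.exp (-(C * s)) * SS q L s (gen q L g) η) s := by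
    intro s
    have h2 := hasDerivAt_SS q L g s η
    have h3 : HasDerivAt (fun s => Real.exp (-(C * s))) (Real.exp (-(C * s)) * (-C)) s := by
      have : HasDerivAt (fun s : ℝ => -(C * s)) (-C) s := by
        have h4 := (hasDerivAt_id' s).const_mul (-C)
        simpa only [neg_mul, mul_one] using h4
      exact this.exp
    exact h3.mul h2
  have hanti : AntitoneOn (fun s => Real.exp (-(C * s)) * SS q L s g η) (Set.Ici 0) := by
    apply antitoneOn_of_deriv_nonpos (convex_Ici 0)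
    · exact fun s _ => (h s).continuousAt.continuousWithinAt
    · exact fun s _ => (h s).differentiableAt.differentiableWithinAt
    · intro s hs
      rw [interior_Ici] at hs
      rw [(h s).deriv]
      have h4 := SS_mono h0 h1 L (le_of_lt hs) (g := gen q L g) (h := C • g)
        (fun η => by simpa using hg η) η
      rw [SS_lin_smul] at h4
      simp only [Pi.smul_apply, smul_eq_mul] at h4
      have h5 := Real.exp_pos (-(C * s))
      nlinarith
  have := hanti (Set.mem_Ici.2 (le_refl 0)) (Set.mem_Ici.2 ht) ht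
  simp only [mul_zero, neg_zero, Real.exp_zero, one_mul, SS_zero] at this
  have h6 : Real.exp (C * t) * (Real.exp (-(C * t)) * SS q L t g η) = SS q L t g η := by
    rw [← mul_assoc, ← Real.exp_add]; simp
  rw [← h6]
  exact mul_le_mul_of_nonneg_left this (Real.exp_pos _).le

end Pool.Agent.LibFA
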