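import Pool.Agent.LibFA.Drift

open Filter Topology

namespace Pool.Agent.LibFA

theorem exp_le_quad (y : ℝ) : Real.exp y ≤ 1 + y + y ^ 2 * Real.exp |y| := by
  have he : 1 ≤ Real.exp |y| := Real.one_le_exp (abs_nonneg y)
  rcases le_or_gt |y| 1 with h | h
  · have h2 := (abs_le.1 (Real.abs_exp_sub_one_sub_id_le h)).2
    nlinarith [sq_nonneg y]
  · rcases le_total 0 y with hy | hy
    · rw [abs_of_nonneg hy] at h he ⊢
      have : 1 ≤ y ^ 2 := by nlinarith
      nlinarith
    · rw [abs_of_nonpos hy] at h he ⊢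
      have h2 : Real.exp y ≤ 1 := Real.exp_le_one_iff.2 hy
      have h3 : -y ≤ y ^ 2 := by nlinarith
      nlinarith [sq_nonneg y]

theorem lyap {q : ℝ} (h0 : 0 < q) (h1 : q < 1) : ∃ S : ℝ, 1 ≤ S ∧ ∃ lam : ℝ, 0 < lam ∧ lam ≤ 1 ∧
    ∃ r : ℝ, 0 ≤ r ∧ r < 1 ∧ ∃ R : ℕ, ∀ (L : ℕ) (η : Cfg), R ≤ uu (L + 1) η → uu (L + 1) η + R ≤ L →
      SS q L S (fun ζ => Real.exp (lam * UU L ζ)) η ≤ r * Real.exp (lam * UU L η) := by
  obtain ⟨S, hS, c, hc, R, h⟩ := drift h0 h1
  set lam := min 1 (c * Real.exp (-(28 * S)) / 4) with hlam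
  have hlam0 : 0 < lam := lt_min one_pos (by positivity)
  have hlam1 : lam ≤ 1 := min_le_left _ _
  have hlam2 : lam * Real.exp (28 * S) ≤ c / 4 := by
    have h2 : lam ≤ c * Real.exp (-(28 * S)) / 4 := min_le_right _ _
    have h3 := mul_le_mul_of_nonneg_right h2 (Real.exp_pos (28 * S)).le
    have h4 : c * Real.exp (-(28 * S)) / 4 * Real.exp (28 * S) = c / 4 := by
      have : Real.exp (-(28 * S)) * Real.exp (28 * S) = 1 := by rw [← Real.exp_add]; simp
      calc _ = c / 4 * (Real.exp (-(28 * S)) * Real.exp (28 * S)) := by ring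
        _ = _ := by rw [this]; ring
    linarith
  refine ⟨S, hS, lam, hlam0, hlam1, max 0 (1 - lam * c / 2), le_max_left _ _, max_lt one_pos (by
    have : 0 < lam * c := by positivity
    linarith), R, fun L η h2 h3 => ?_⟩
  have hS0 : 0 ≤ S := by linarith
  have hpt : ∀ ξ, Real.exp (lam * UU L ξ) ≤ (Real.exp (lam * UU L η) * (1 - lam * UU L η) +
      (Real.exp (lam * UU L η) * lam) * UU L ξ) +
      (Real.exp (lam * UU L η) * (2 * lam ^ 2)) * Real.exp (2 * |UU L ξ - UU L η|) := by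
    intro ξ
    set Δ := UU L ξ - UU L η with hΔ
    have e1 : Real.exp (lam * UU L ξ) = Real.exp (lam * UU L η) * Real.exp (lam * Δ) := by
      rw [← Real.exp_add]; congr 1; rw [hΔ]; ring
    have h4 := exp_le_quad (lam * Δ)
    have h5 : (lam * Δ) ^ 2 * Real.exp |lam * Δ| ≤ 2 * lam ^ 2 * Real.exp (2 * |Δ|) := by
      have h6 : |lam * Δ| ≤ |Δ| := by
        rw [abs_mul, abs_of_pos hlam0]
        have := abs_nonneg Δ
        nlinarith
      have h7 := Real.exp_le_exp.2 h6
      have h8 := sq_le_exp (abs_nonneg Δ)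
      rw [sq_abs] at h8
      have h9 : Real.exp (2 * |Δ|) = Real.exp |Δ| * Real.exp |Δ| := by
        rw [← Real.exp_add]; congr 1; ring
      rw [h9, mul_pow]
      have h10 := Real.exp_pos |Δ|
      calc lam ^ 2 * Δ ^ 2 * Real.exp |lam * Δ| ≤ lam ^ 2 * Δ ^ 2 * Real.exp |Δ| :=
            mul_le_mul_of_nonneg_left h7 (by positivity)
        _ ≤ lam ^ 2 * (2 * Real.exp |Δ|) * Real.exp |Δ| := by
            refine mul_le_mul_of_nonneg_right ?_ h10.le
            exact mul_le_mul_of_nonneg_left h8 (by positivity)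
        _ = _ := by ring
    rw [e1]
    have h11 : Real.exp (lam * Δ) ≤ 1 + lam * Δ + 2 * lam ^ 2 * Real.exp (2 * |Δ|) := by linarith
    have h12 := mul_le_mul_of_nonneg_left h11 (Real.exp_pos (lam * UU L η)).le
    refine h12.trans (le_of_eq ?_)
    rw [hΔ]; ring
  have h4 := SS_mono h0.le h1.le L hS0 hpt η
  have h5 : (fun ξ => (Real.exp (lam * UU L η) * (1 - lam * UU L η) +
      (Real.exp (lam * UU L η) * lam) * UU L ξ) +
      (Real.exp (lam * UU L η) * (2 * lam ^ 2)) * Real.exp (2 * |UU L ξ - UU L η|)) =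
      ((fun _ => Real.exp (lam * UU L η) * (1 - lam * UU L η)) +
        (Real.exp (lam * UU L η) * lam) • UU L) +
        (Real.exp (lam * UU L η) * (2 * lam ^ 2)) • (fun ξ => Real.exp (2 * |UU L ξ - UU L η|)) := rfl
  rw [h5, SS_lin_add, SS_lin_add, SS_lin_smul, SS_lin_smul, SS_const] at h4
  simp only [Pi.add_apply, Pi.smul_apply, smul_eq_mul] at h4
  have h6 := SS_exp2 h0.le h1.le L hS0 η
  have h7 := h L η h2 h3
  set F := Real.exp (lam * UU L η) with hF
  have hF0 : 0 < F := Real.exp_pos _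
  have h8 : F * lam * SS q L S (UU L) η ≤ F * lam * (UU L η - c) :=
    mul_le_mul_of_nonneg_left h7 (by positivity)
  have h9 : F * (2 * lam ^ 2) * SS q L S (fun ξ => Real.exp (2 * |UU L ξ - UU L η|)) η ≤
      F * lam * (c / 2) := by
    calc _ ≤ F * (2 * lam ^ 2) * Real.exp (28 * S) := mul_le_mul_of_nonneg_left h6 (by positivity)
      _ = F * lam * 2 * (lam * Real.exp (28 * S)) := by ring
      _ ≤ F * lam * 2 * (c / 4) := mul_le_mul_of_nonneg_left hlam2 (by positivity)
      _ = _ := by ring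
  have h10 : SS q L S (fun ζ => Real.exp (lam * UU L ζ)) η ≤ (1 - lam * c / 2) * F := by
    refine h4.trans ?_
    have : F * (1 - lam * UU L η) + F * lam * (UU L η - c) + F * lam * (c / 2) =
      (1 - lam * c / 2) * F := by ring
    linarith
  exact h10.trans (mul_le_mul_of_nonneg_right (le_max_right _ _) hF0.le)

/-- tightness of the distance from the origin to the infected set, uniform in time -/
theorem tight {q : ℝ} (h0 : 0 < q) (h1 : q < 1) : ∃ lam : ℝ, 0 < lam ∧ ∀ n₀ : ℕ, ∃ B : ℝ, 0 < B ∧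
    ∀ t : ℝ, 0 ≤ t → ∃ L₀ : ℕ, ∀ L : ℕ, L₀ ≤ L → ∀ η : Cfg, uu (L + 1) η ≤ n₀ →
      SS q L t (fun ζ => Real.exp (lam * UU L ζ)) η ≤ B := by
  obtain ⟨S, hS, lam, hlam0, hlam1, r, hr0, hr1, R, hly⟩ := lyap h0 h1
  have hS0 : 0 < S := by linarith
  refine ⟨lam, hlam0, fun n₀ => ?_⟩
  set K₁ := Real.exp (7 * S) * Real.exp R with hK₁
  set B := Real.exp (7 * S) * Real.exp n₀ + (K₁ + 1) / (1 - r) with hB
  have h1r : 0 < 1 - r := by linarith
  have hB0 : 0 < B := by positivity
  refine ⟨B, hB0, fun T hT => ?_⟩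
  obtain ⟨L₀, hL₀⟩ := exists_nat_ge ((R:ℝ) + 7 * S + 28 * T + 2 * n₀)
  refine ⟨L₀, fun L hL η hη => ?_⟩
  have hLR : (R:ℝ) + 7 * S + 28 * T + 2 * n₀ ≤ L := hL₀.trans (by exact_mod_cast hL)
  have hUη : UU L η ≤ n₀ := by unfold UU; exact_mod_cast hη
  have hgrow : ∀ (t : ℝ), 0 ≤ t → ∀ ζ, SS q L t (fun ξ => Real.exp (lam * UU L ξ)) ζ ≤
      Real.exp (7 * t) * Real.exp (lam * UU L ζ) := by
    intro t ht ζ
    have h2 := SS_exp_le h0.le h1.le L (L + 1) hlam0.le ht ζ
    refine h2.trans (mul_le_mul_of_nonneg_right ?_ (Real.exp_pos _).le)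
    rw [Real.exp_le_exp]
    have h3 := exp_one_lt
    have h4 : Real.exp lam ≤ Real.exp 1 := Real.exp_le_exp.2 hlam1
    nlinarith
  have hstep : ∀ ζ, SS q L S (fun ξ => Real.exp (lam * UU L ξ)) ζ ≤
      (r * Real.exp (lam * UU L ζ) + K₁) +
        (Real.exp (7 * S) * Real.exp (-((L:ℝ) - R))) * Real.exp (2 * UU L ζ) := by
    intro ζ
    have hn1 : 0 ≤ r * Real.exp (lam * UU L ζ) := by positivity
    have hn2 : 0 ≤ (Real.exp (7 * S) * Real.exp (-((L:ℝ) - R))) * Real.exp (2 * UU L ζ) := by positivity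
    have hn3 : 0 ≤ K₁ := by positivity
    have hU0 := UU_nonneg L ζ
    rcases Nat.lt_or_ge (uu (L + 1) ζ) R with h | h
    · have h2 := hgrow S hS0.le ζ
      have h3 : Real.exp (lam * UU L ζ) ≤ Real.exp R := by
        rw [Real.exp_le_exp]
        have h4 : UU L ζ ≤ R := by unfold UU; exact_mod_cast h.le
        nlinarith
      have h4 := mul_le_mul_of_nonneg_left h3 (Real.exp_pos (7 * S)).le
      linarith
    · rcases Nat.lt_or_ge L (uu (L + 1) ζ + R) with h' | h'
      · have h2 := hgrow S hS0.le ζ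
        have h3 : Real.exp (lam * UU L ζ) ≤ Real.exp (-((L:ℝ) - R)) * Real.exp (2 * UU L ζ) := by
          rw [← Real.exp_add, Real.exp_le_exp]
          have h4 : (L:ℝ) ≤ UU L ζ + R := by unfold UU; exact_mod_cast h'.le
          nlinarith
        have h4 := mul_le_mul_of_nonneg_left h3 (Real.exp_pos (7 * S)).le
        rw [← mul_assoc] at h4
        linarith
      · have h2 := hly L ζ h h'
        linarith
  have hrB : r * B + K₁ + 1 ≤ B := by
    have h2 : (K₁ + 1) / (1 - r) * (1 - r) = K₁ + 1 := by field_simp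
    have h3 : (K₁ + 1) / (1 - r) ≤ B := by
      rw [hB]
      have : 0 ≤ Real.exp (7 * S) * Real.exp n₀ := by positivity
      linarith
    have h4 := mul_le_mul_of_nonneg_right h3 h1r.le
    linarith
  have hind : ∀ j : ℕ, ∀ r' : ℝ, 0 ≤ r' → r' ≤ S → r' + j * S ≤ T →
      SS q L (r' + j * S) (fun ζ => Real.exp (lam * UU L ζ)) η ≤ B := by
    intro j
    induction j with
    | zero =>
      intro r' hr' hrS' _
      simp only [Nat.cast_zero, zero_mul, add_zero]
      have h2 := hgrow r' hr' η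
      have h3 : Real.exp (7 * r') ≤ Real.exp (7 * S) := Real.exp_le_exp.2 (by linarith)
      have h4 : Real.exp (lam * UU L η) ≤ Real.exp n₀ := by
        rw [Real.exp_le_exp]
        have := UU_nonneg L η
        nlinarith
      have h5 : Real.exp (7 * r') * Real.exp (lam * UU L η) ≤ Real.exp (7 * S) * Real.exp n₀ :=
        mul_le_mul h3 h4 (Real.exp_pos _).le (Real.exp_pos _).le
      have h6 : 0 ≤ (K₁ + 1) / (1 - r) := by positivity
      rw [hB]
      linarith
    | succ j ih =>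
      intro r' hr' hrS' hrT'
      have hjS : (0:ℝ) ≤ j * S := by positivity
      have hsplit : r' + ((j + 1 : ℕ) : ℝ) * S = (r' + j * S) + S := by push_cast; ring
      rw [hsplit] at hrT' ⊢
      rw [SS_add]
      have hT' : r' + j * S ≤ T := by linarith
      have ht0 : 0 ≤ r' + j * S := by positivity
      have hih := ih r' hr' hrS' hT'
      set t := r' + j * S with ht
      have h2 := SS_mono h0.le h1.le L ht0 hstep η
      have h3 : (fun ζ => (r * Real.exp (lam * UU L ζ) + K₁) +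
          (Real.exp (7 * S) * Real.exp (-((L:ℝ) - R))) * Real.exp (2 * UU L ζ)) =
          (r • (fun ζ => Real.exp (lam * UU L ζ)) + (fun _ => K₁)) +
          (Real.exp (7 * S) * Real.exp (-((L:ℝ) - R))) • (fun ζ => Real.exp (2 * UU L ζ)) := rfl
      rw [h3, SS_lin_add, SS_lin_add, SS_lin_smul, SS_lin_smul, SS_const] at h2
      simp only [Pi.add_apply, Pi.smul_apply, smul_eq_mul] at h2
      have h4 : SS q L t (fun ζ => Real.exp (2 * UU L ζ)) η ≤ Real.exp (28 * T) * Real.exp (2 * n₀) := by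
        have h5 := SS_exp_le h0.le h1.le L (L + 1) zero_le_two ht0 η
        refine h5.trans (mul_le_mul ?_ ?_ (Real.exp_pos _).le (Real.exp_pos _).le)
        · rw [Real.exp_le_exp]
          have h3 := exp_one_lt
          have h4 : Real.exp 2 = Real.exp 1 * Real.exp 1 := by rw [← Real.exp_add]; norm_num
          have h5 : Real.exp 2 ≤ 8 := by
            rw [h4]
            have := Real.exp_pos 1
            nlinarith
          nlinarith
        · rw [Real.exp_le_exp]
          unfold UU at hUη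
          linarith
      have h6 : Real.exp (7 * S) * Real.exp (-((L:ℝ) - R)) *
          SS q L t (fun ζ => Real.exp (2 * UU L ζ)) η ≤ 1 := by
        refine (mul_le_mul_of_nonneg_left h4 (by positivity)).trans ?_
        rw [← Real.exp_add, ← Real.exp_add, ← Real.exp_add, Real.exp_le_one_iff]
        linarith
      have h7 : r * SS q L t (fun ζ => Real.exp (lam * UU L ζ)) η ≤ r * B :=
        mul_le_mul_of_nonneg_left hih hr0
      linarith
  have hj := Nat.floor_le (div_nonneg hT hS0.le)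
  have hj2 := Nat.lt_floor_add_one (T / S)
  set j := ⌊T / S⌋₊ with hjdef
  have h2 : (j:ℝ) * S ≤ T := by rwa [le_div_iff₀ hS0] at hj
  have h3 : T ≤ (j:ℝ) * S + S := by
    rw [div_lt_iff₀ hS0] at hj2
    linarith
  have h4 := hind j (T - j * S) (by linarith) (by linarith) (by linarith)
  rwa [sub_add_cancel] at h4

end Pool.Agent.LibFA
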