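import Pool.Agent.LibFA.Flux

open Filter Topology

namespace Pool.Agent.LibFA

theorem eL_congr {q : ℝ} {lam lam' : Finset ℤ → ℝ} {U : Finset ℤ} (h : ∀ A, A ⊆ U → lam A = lam' A)
    {x y : ℤ} (hx : x ∈ U) (hy : y ∈ U) : eL q lam U x y = eL q lam' U x y := by
  unfold eL
  refine Finset.sum_congr rfl fun A hA => ?_
  rw [Finset.mem_powerset] at hA
  have hAU : A ⊆ U := hA.trans ((Finset.erase_subset _ _).trans (Finset.erase_subset _ _))
  rw [h _ (Finset.insert_subset hy hAU), h _ (Finset.insert_subset hx (Finset.insert_subset hy hAU))]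

/-- monotonicity of the pair dissipation in the window -/
theorem eL_PP_mono {q : ℝ} (h0 : 0 ≤ q) (h1 : q ≤ 1) {φ : (Cfg → ℝ) → ℝ} (hφ : IsState φ)
    {U W' : Finset ℤ} (h : U ⊆ W') {x y : ℤ} (hx : x ∈ U) (hy : y ∈ U) :
    eL q (PP φ U) U x y ≤ eL q (PP φ W') W' x y := by
  have hd : Disjoint U (W' \ U) := Finset.disjoint_sdiff
  have hU : U ∪ (W' \ U) = W' := Finset.union_sdiff_of_subset h
  have e1 : eL q (PP φ U) U x y = eL q (marg (PP φ W') (W' \ U)) U x y := by
    refine eL_congr (fun A hA => ?_) hx hy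
    rw [PP_marg hφ hd hA, hU]
  rw [e1]
  have := eL_marg h0 h1 (lam := PP φ W') (fun A => PP_nonneg hφ _ _) hd hx hy
  rwa [hU] at this

theorem DL_PP_mono {q : ℝ} (h0 : 0 ≤ q) (h1 : q ≤ 1) {φ : (Cfg → ℝ) → ℝ} (hφ : IsState φ)
    {U W' : Finset ℤ} (h : U ⊆ W') : DL q (PP φ U) U ≤ DL q (PP φ W') W' := by
  unfold DL
  calc ∑ x ∈ U, ∑ y ∈ nb U x, eL q (PP φ U) U x y ≤ ∑ x ∈ U, ∑ y ∈ nb W' x, eL q (PP φ W') W' x y := by
        refine Finset.sum_le_sum fun x hx => ?_
        calc ∑ y ∈ nb U x, eL q (PP φ U) U x y ≤ ∑ y ∈ nb U x, eL q (PP φ W') W' x y :=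
              Finset.sum_le_sum fun y hy => eL_PP_mono h0 h1 hφ h hx (Finset.mem_filter.1 hy).1
          _ ≤ _ := Finset.sum_le_sum_of_subset_of_nonneg (Finset.filter_subset_filter _ h)
              fun _ _ _ => eL_nonneg _ _ _ _ _
    _ ≤ _ := Finset.sum_le_sum_of_subset_of_nonneg h
              fun _ _ _ => Finset.sum_nonneg fun _ _ => eL_nonneg _ _ _ _ _

theorem DL_window {q : ℝ} (h0 : 0 ≤ q) (h1 : q ≤ 1) {φ : (Cfg → ℝ) → ℝ} (hφ : IsState φ) {a b : ℤ}
    (hab : a < b) :
    DL q (PP φ (Finset.Icc a b)) (Finset.Icc a b) +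
      (eL q (PP φ (insert (a - 1) (Finset.Icc a b))) (insert (a - 1) (Finset.Icc a b)) a (a - 1) +
      eL q (PP φ (insert (b + 1) (Finset.Icc a b))) (insert (b + 1) (Finset.Icc a b)) b (b + 1)) ≤
    DL q (PP φ (Finset.Icc (a - 1) (b + 1))) (Finset.Icc (a - 1) (b + 1)) := by
  set W := Finset.Icc a b with hW
  set W' := Finset.Icc (a - 1) (b + 1) with hW'
  have hsub : W ⊆ W' := by
    intro x hx
    rw [hW, Finset.mem_Icc] at hx
    rw [hW', Finset.mem_Icc]
    constructor <;> omega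
  have ha : a ∈ W := Finset.mem_Icc.2 ⟨le_refl _, hab.le⟩
  have hb : b ∈ W := Finset.mem_Icc.2 ⟨hab.le, le_refl _⟩
  have ham : a - 1 ∈ W' := Finset.mem_Icc.2 ⟨by omega, by omega⟩
  have hbp : b + 1 ∈ W' := Finset.mem_Icc.2 ⟨by omega, by omega⟩
  have s1 : insert (a - 1) W ⊆ W' := Finset.insert_subset ham hsub
  have s2 : insert (b + 1) W ⊆ W' := Finset.insert_subset hbp hsub
  have e1 := eL_PP_mono h0 h1 hφ s1 (Finset.mem_insert_of_mem ha) (Finset.mem_insert_self _ _)
  have e2 := eL_PP_mono h0 h1 hφ s2 (Finset.mem_insert_of_mem hb) (Finset.mem_insert_self _ _)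
  have hpt : ∀ x ∈ W, ∑ y ∈ nb W x, eL q (PP φ W) W x y +
      ((if x = a then eL q (PP φ W') W' a (a - 1) else 0) +
       (if x = b then eL q (PP φ W') W' b (b + 1) else 0)) ≤ ∑ y ∈ nb W' x, eL q (PP φ W') W' x y := by
    intro x hx
    have hxI := Finset.mem_Icc.1 hx
    have t1 : ∑ y ∈ nb W x, eL q (PP φ W) W x y ≤ ∑ y ∈ nb W x, eL q (PP φ W') W' x y :=
      Finset.sum_le_sum fun y hy => eL_PP_mono h0 h1 hφ hsub hx (Finset.mem_filter.1 hy).1
    have t2 : (if x = a then eL q (PP φ W') W' a (a - 1) else 0) =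
        ∑ y ∈ (if x = a then {a - 1} else ∅ : Finset ℤ), eL q (PP φ W') W' x y := by
      split_ifs with h
      · rw [Finset.sum_singleton, h]
      · rw [Finset.sum_empty]
    have t3 : (if x = b then eL q (PP φ W') W' b (b + 1) else 0) =
        ∑ y ∈ (if x = b then {b + 1} else ∅ : Finset ℤ), eL q (PP φ W') W' x y := by
      split_ifs with h
      · rw [Finset.sum_singleton, h]
      · rw [Finset.sum_empty]
    have d1 : Disjoint (if x = a then {a - 1} else ∅ : Finset ℤ) (if x = b then {b + 1} else ∅ : Finset ℤ) := by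
      split_ifs with h h' h'
      · rw [Finset.disjoint_singleton]; omega
      · exact Finset.disjoint_empty_right _
      · exact Finset.disjoint_empty_left _
      · exact Finset.disjoint_empty_left _
    have d2 : Disjoint (nb W x) ((if x = a then {a - 1} else ∅ : Finset ℤ) ∪
        (if x = b then {b + 1} else ∅ : Finset ℤ)) := by
      rw [Finset.disjoint_left]
      intro y hy hy'
      have hyW := Finset.mem_Icc.1 (Finset.mem_filter.1 hy).1
      rw [Finset.mem_union] at hy'
      rcases hy' with h | h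
      · split_ifs at h with h2
        · rw [Finset.mem_singleton] at h; omega
        · simp at h
      · split_ifs at h with h2
        · rw [Finset.mem_singleton] at h; omega
        · simp at h
    calc _ ≤ ∑ y ∈ nb W x, eL q (PP φ W') W' x y +
          (∑ y ∈ (if x = a then {a - 1} else ∅ : Finset ℤ), eL q (PP φ W') W' x y +
          ∑ y ∈ (if x = b then {b + 1} else ∅ : Finset ℤ), eL q (PP φ W') W' x y) := by
            rw [← t2, ← t3]; linarith
      _ = ∑ y ∈ nb W x ∪ ((if x = a then {a - 1} else ∅ : Finset ℤ) ∪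
        (if x = b then {b + 1} else ∅ : Finset ℤ)), eL q (PP φ W') W' x y := by
            rw [Finset.sum_union d2, Finset.sum_union d1]
      _ ≤ _ := by
            refine Finset.sum_le_sum_of_subset_of_nonneg ?_ fun _ _ _ => eL_nonneg _ _ _ _ _
            intro y hy
            rw [Finset.mem_union, Finset.mem_union] at hy
            unfold nb
            rw [Finset.mem_filter]
            rcases hy with h | h | h
            · have := Finset.mem_filter.1 h
              exact ⟨hsub this.1, this.2⟩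
            · split_ifs at h with h2
              · rw [Finset.mem_singleton] at h
                exact ⟨h ▸ ham, Or.inr (by omega)⟩
              · simp at h
            · split_ifs at h with h2
              · rw [Finset.mem_singleton] at h
                exact ⟨h ▸ hbp, Or.inl (by omega)⟩
              · simp at h
  have hsum := Finset.sum_le_sum hpt
  rw [Finset.sum_add_distrib, Finset.sum_add_distrib, Finset.sum_ite_eq', Finset.sum_ite_eq',
    if_pos ha, if_pos hb] at hsum
  have hfin : ∑ x ∈ W, ∑ y ∈ nb W' x, eL q (PP φ W') W' x y ≤ DL q (PP φ W') W' :=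
    Finset.sum_le_sum_of_subset_of_nonneg hsub fun _ _ _ => Finset.sum_nonneg fun _ _ => eL_nonneg _ _ _ _ _
  have hDL : DL q (PP φ W) W = ∑ x ∈ W, ∑ y ∈ nb W x, eL q (PP φ W) W x y := rfl
  rw [hDL]
  linarith

/-- the window entropy inequality -/
theorem window_ineq {q : ℝ} (h0 : 0 < q) (h1 : q < 1) {φ : (Cfg → ℝ) → ℝ} (hφ : IsState φ) (L : ℕ) {a b : ℤ}
    (hab : a < b) (hW : Finset.Icc a b ⊆ Finset.Icc (-(L:ℤ)) (L:ℤ))
    (hpos : ∀ A, A ⊆ Finset.Icc a b → 0 < PP φ (Finset.Icc a b) A) {κ : ℝ} (hκ : 0 < κ) :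
    ∑ A ∈ (Finset.Icc a b).powerset, φ (gen q L (cyl (Finset.Icc a b) A)) * GG q φ (Finset.Icc a b) A ≤
      -2 * DL q (PP φ (Finset.Icc a b)) (Finset.Icc a b) + 2 * κ +
      (DL q (PP φ (Finset.Icc (a - 1) (b + 1))) (Finset.Icc (a - 1) (b + 1)) -
        DL q (PP φ (Finset.Icc a b)) (Finset.Icc a b)) / κ := by
  rw [flux_identity hφ L hW]
  set W := Finset.Icc a b with hWdef
  have ha : a ∈ W := Finset.mem_Icc.2 ⟨le_refl _, hab.le⟩
  have hb : b ∈ W := Finset.mem_Icc.2 ⟨hab.le, le_refl _⟩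
  set Xa := κ + eL q (PP φ (insert (a - 1) W)) (insert (a - 1) W) a (a - 1) / κ with hXa
  set Xb := κ + eL q (PP φ (insert (b + 1) W)) (insert (b + 1) W) b (b + 1) / κ with hXb
  have hpt : ∀ x ∈ W, ∑ A ∈ (W.erase x).powerset, FF q φ W x A * (GG q φ W A - GG q φ W (insert x A)) ≤
      -2 * ∑ y ∈ nb W x, eL q (PP φ W) W x y + ((if x = a then Xa else 0) + (if x = b then Xb else 0)) := by
    intro x hx
    have hxI := Finset.mem_Icc.1 hx
    by_cases hxa : x = a
    · subst hxa
      have hxb : x ≠ b := hab.ne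
      rw [if_pos rfl, if_neg hxb, add_zero]
      exact site_bdry h0 h1 hφ hpos hx (y := x + 1) (z := x - 1) (Finset.mem_Icc.2 ⟨by omega, by omega⟩)
        (by rw [hWdef, Finset.mem_Icc]; omega) (Or.inr ⟨rfl, rfl⟩) hκ
    · by_cases hxb : x = b
      · subst hxb
        rw [if_neg hxa, if_pos rfl, zero_add]
        exact site_bdry h0 h1 hφ hpos hx (y := x - 1) (z := x + 1) (Finset.mem_Icc.2 ⟨by omega, by omega⟩)
          (by rw [hWdef, Finset.mem_Icc]; omega) (Or.inl ⟨rfl, rfl⟩) hκ
      · rw [if_neg hxa, if_neg hxb, add_zero, add_zero]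
        exact site_interior h0 h1 hφ hpos hx (Finset.mem_Icc.2 ⟨by omega, by omega⟩)
          (Finset.mem_Icc.2 ⟨by omega, by omega⟩)
  refine (Finset.sum_le_sum hpt).trans ?_
  rw [Finset.sum_add_distrib, Finset.sum_add_distrib, ← Finset.mul_sum, Finset.sum_ite_eq', Finset.sum_ite_eq',
    if_pos ha, if_pos hb]
  have hD := DL_window h0.le h1.le hφ hab
  rw [← hWdef] at hD
  have hDL : DL q (PP φ W) W = ∑ x ∈ W, ∑ y ∈ nb W x, eL q (PP φ W) W x y := rfl
  rw [← hDL, hXa, hXb]
  have h3 : (eL q (PP φ (insert (a - 1) W)) (insert (a - 1) W) a (a - 1) +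
      eL q (PP φ (insert (b + 1) W)) (insert (b + 1) W) b (b + 1)) / κ ≤
      (DL q (PP φ (Finset.Icc (a - 1) (b + 1))) (Finset.Icc (a - 1) (b + 1)) - DL q (PP φ W) W) / κ := by
    apply div_le_div_of_nonneg_right _ hκ.le
    linarith
  rw [add_div] at h3
  linarith

/-- crude bound on the dissipation -/
theorem DL_le {q : ℝ} (h0 : 0 ≤ q) (h1 : q ≤ 1) {φ : (Cfg → ℝ) → ℝ} (hφ : IsState φ) (W : Finset ℤ) :
    DL q (PP φ W) W ≤ 2 * W.card := by
  have hpt : ∀ x ∈ W, ∑ y ∈ nb W x, eL q (PP φ W) W x y ≤ 2 := by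
    intro x hx
    rw [← sum_eL]
    have e1 := sum_PP hφ W
    rw [← Finset.insert_erase hx, Finset.sum_powerset_insert (Finset.notMem_erase x W),
      Finset.insert_erase hx, ← Finset.sum_add_distrib] at e1
    calc _ ≤ ∑ A ∈ (W.erase x).powerset, 2 * (PP φ W A + PP φ W (insert x A)) := by
          refine Finset.sum_le_sum fun A _ => ?_
          have p1 := PP_nonneg hφ W A
          have p2 := PP_nonneg hφ W (insert x A)
          have h2 : 0 ≤ 1 - q := by linarith
          have h3 := jj_le_add (mul_nonneg h2 p2) (mul_nonneg h0 p1)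
          have h4 := jj_nonneg ((1 - q) * PP φ W (insert x A)) (q * PP φ W A)
          have h5 : (((nb W x).filter (fun y => y ∈ A)).card : ℝ) ≤ 2 := by
            have := (Finset.card_le_card (Finset.filter_subset (fun y => y ∈ A) (nb W x))).trans (card_nb_le W x)
            exact_mod_cast this
          have h6 : jj ((1 - q) * PP φ W (insert x A)) (q * PP φ W A) ≤ PP φ W A + PP φ W (insert x A) := by
            nlinarith
          exact mul_le_mul h5 h6 h4 (by norm_num)
      _ = 2 := by rw [← Finset.mul_sum, e1, mul_one]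
  calc DL q (PP φ W) W ≤ ∑ x ∈ W, (2:ℝ) := Finset.sum_le_sum hpt
    _ = 2 * W.card := by rw [Finset.sum_const, nsmul_eq_mul, mul_comm]

end Pool.Agent.LibFA
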